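import Pool.Agent.Work.MP_b30479_gt.TBS.DT.RSum
import Pool.Agent.Work.MP_b30479_gt.TBS.LT.Stmt
import Pool.Agent.Work.MP_b30479_gt.TBS.DT.Crit
import Pool.Agent.Work.MP_b30479_gt.TBS.VOL.MProd
import Mathlib
import Pool.Agent.Work.MP_b30479_gt.TBS.TB.Lob
import Pool.Agent.Work.MP_b30479_gt.TBS.G2.SWDefs

section

/-!
# The critical value as a sum of values of the Bloch-Wigner dilogarithm
-/

namespace Pool.Agent.Work.MP_b30479_gtS.LT

open Finset VOL AX MeasureTheory

theorem norm_ee (w : ℂ) : ‖ee w‖ = Real.exp (-(2 * Real.pi * w.im)) := by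
  unfold ee
  rw [Complex.norm_exp]
  congr 1
  simp [Complex.mul_re, Complex.mul_im]

theorem ee_im (w : ℂ) : (ee w).im = Real.exp (-(2 * Real.pi * w.im)) * Real.sin (2 * Real.pi * w.re) := by
  unfold ee
  rw [Complex.exp_im]
  congr 2
  · simp [Complex.mul_re, Complex.mul_im]
  · simp [Complex.mul_re, Complex.mul_im]

theorem ee_im_pos {w : ℂ} (h0 : 0 < w.re) (h1 : w.re < 1 / 2) : 0 < (ee w).im := by
  rw [ee_im]
  apply mul_pos (Real.exp_pos _)
  have hpi := Real.pi_pos
  exact Real.sin_pos_of_pos_of_lt_pi (by positivity) (by nlinarith only [h1, hpi])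

theorem Fh_re_eq_Lr {x ρ : ℝ} (h0 : 0 < x) (h1 : x < 1) (hρ : 0 ≤ ρ) :
    (Fh (x + ρ * Complex.I)).re = DT.Lr ρ x - Real.pi * ρ / 2 := by
  rcases hρ.eq_or_lt with h | h
  · subst h
    have := Fh_ofReal h0 h1
    simp [this]
  · have hd : ∀ t ∈ Set.Ioo (0 : ℝ) 1,
        HasDerivAt (fun t : ℝ => VC.phr (t + ρ * Complex.I) + DT.Lr ρ t) 0 t := by
      intro t ht
      have h2 := VC.hasDerivAt_phr_re ht.1 ht.2 ρ
      have h4 := DT.hasDerivAt_Lr (x := t) h
      refine (h2.add h4).congr_deriv ?_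
      rw [DT.el_eq]
      ring
    have hc := IsOpen.is_const_of_deriv_eq_zero (isOpen_Ioo (a := (0 : ℝ)) (b := 1))
      isPreconnected_Ioo (fun t ht => (hd t ht).differentiableAt.differentiableWithinAt)
      (fun t ht => (hd t ht).deriv) (x := x) (y := 1 / 2) ⟨h0, h1⟩ ⟨by norm_num, by norm_num⟩
    rw [DT.Lr_half hρ] at hc
    have h5 : VC.phr (((1 / 2 : ℝ) : ℂ) + ρ * Complex.I) = 0 := by
      push_cast
      exact VC.phr_half_im ρ
    rw [h5] at hc
    unfold VC.phr at hc
    linarith only [hc]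

/-- `1 - e^{2πiw} = 2 sin(πw) e^{πi(w-1/2)}` -/
theorem one_sub_ee (w : ℂ) : 1 - ee w = 2 * Complex.sin (Real.pi * w) *
    Complex.exp (Real.pi * (w - 1 / 2) * Complex.I) := by
  unfold ee
  have e1 : Complex.exp (2 * Real.pi * Complex.I * w) =
      Complex.exp (Real.pi * w * Complex.I) * Complex.exp (Real.pi * w * Complex.I) := by
    rw [← Complex.exp_add]
    congr 1
    ring
  have e2 : Complex.exp (Real.pi * (w - 1 / 2) * Complex.I) =
      Complex.exp (Real.pi * w * Complex.I) * (-Complex.I) := by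
    have e3 : (Real.pi * (w - 1 / 2) * Complex.I : ℂ) =
        Real.pi * w * Complex.I + -(Real.pi / 2 * Complex.I) := by ring
    rw [e3, Complex.exp_add, Complex.exp_neg, Complex.exp_pi_div_two_mul_I, Complex.inv_I]
  have e4 : Complex.exp (Real.pi * w * Complex.I) * Complex.exp (-(Real.pi * w * Complex.I)) = 1 := by
    rw [← Complex.exp_add, add_neg_cancel, Complex.exp_zero]
  rw [e1, e2, Complex.sin, neg_mul]
  have hI := Complex.I_sq
  set A := Complex.exp (Real.pi * w * Complex.I)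
  set B := Complex.exp (-(Real.pi * w * Complex.I))
  linear_combination (-1 : ℂ) * e4 + (-(A * A) + A * B) * hI

/-- the argument of `1 - e^{2πiw}` on the strip -/
theorem arg_one_sub_ee {w : ℂ} (hw : w ∈ strip) :
    (1 - ee w).arg = (ph w).im + Real.pi * (w.re - 1 / 2) ∧ |(1 - ee w).arg| < Real.pi := by
  have hpi := Real.pi_pos
  obtain ⟨h0, h1⟩ := hw
  have hne : 2 * Complex.sin (Real.pi * w) ≠ 0 := by
    have := VOL.sin_pi_ne (z := w) ⟨h0, h1⟩
    simpa using this
  have harg1 : (2 * Complex.sin (Real.pi * w)).arg = (ph w).im := by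
    unfold ph
    rw [Complex.log_im]
  have hlt : |(2 * Complex.sin (Real.pi * w)).arg| < Real.pi / 2 := by
    rw [Complex.abs_arg_lt_pi_div_two_iff]
    left
    have := VOL.sin_pi_re_pos (z := w) ⟨h0, h1⟩
    simp only [Complex.mul_re, Complex.re_ofNat, Complex.im_ofNat, zero_mul, sub_zero]
    linarith only [this]
  have harg2 : (Complex.exp (Real.pi * (w - 1 / 2) * Complex.I)).arg = Real.pi * (w.re - 1 / 2) := by
    have e : Complex.exp (Real.pi * (w - 1 / 2) * Complex.I) =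
        ((Real.exp (-(Real.pi * w.im)) : ℝ) : ℂ) *
          Complex.exp (((Real.pi * (w.re - 1 / 2) : ℝ) : ℂ) * Complex.I) := by
      rw [Complex.ofReal_exp, ← Complex.exp_add]
      congr 1
      apply Complex.ext <;> simp [Complex.mul_re, Complex.mul_im]
    rw [e, Complex.arg_real_mul _ (Real.exp_pos _), Complex.exp_mul_I, Complex.arg_cos_add_sin_mul_I]
    constructor <;> nlinarith only [hpi, h0, h1]
  rw [abs_lt] at hlt
  rw [one_sub_ee, Complex.arg_mul hne (Complex.exp_ne_zero _) (by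
    rw [harg2]
    constructor <;> nlinarith only [hlt, hpi, h0, h1, hlt.1, hlt.2]), harg2, ← harg1]
  refine ⟨rfl, ?_⟩
  rw [abs_lt]
  constructor <;> nlinarith only [hlt, hpi, h0, h1, hlt.1, hlt.2]

theorem BWd_ee {w : ℂ} (hw : w ∈ strip) (h : 0 ≤ w.im) :
    DT.BWd (ee w) = -(2 * Real.pi * ((Fh w).re + w.im * (ph w).im)) := by
  have hpi := Real.pi_pos
  obtain ⟨h0, h1⟩ := hw
  have e : w = (w.re : ℂ) + w.im * Complex.I := (Complex.re_add_im w).symm
  have hF : (Fh w).re = DT.Lr w.im w.re - Real.pi * w.im / 2 := by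
    conv_lhs => rw [e]
    exact Fh_re_eq_Lr h0 h1 h
  have hL := DT.Lr_series h w.re
  rw [← e] at hL
  unfold DT.BWd
  rw [norm_ee, Real.log_exp, (arg_one_sub_ee ⟨h0, h1⟩).1, hF, hL]
  unfold ee
  field_simp
  ring

theorem BWd_conj {z : ℂ} (h : (1 - z).arg ≠ Real.pi) : DT.BWd ((starRingEnd ℂ) z) = -DT.BWd z := by
  unfold DT.BWd
  have s0 : (∑' k : ℕ, (starRingEnd ℂ) z ^ (k + 1) / ((k : ℂ) + 1) ^ 2) =
      (starRingEnd ℂ) (∑' k : ℕ, z ^ (k + 1) / ((k : ℂ) + 1) ^ 2) := by
    rw [Complex.conj_tsum]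
    congr 1
    ext k
    simp
  have e : 1 - (starRingEnd ℂ) z = (starRingEnd ℂ) (1 - z) := by simp
  rw [s0, Complex.conj_im, RCLike.norm_conj, e, Complex.arg_conj, if_neg h]
  ring

/-- the Bloch-Wigner dilogarithm of `e^{2πiw}` on the strip -/
theorem BW_ee {w : ℂ} (hw : w ∈ strip) :
    BW (ee w) = -(2 * Real.pi * ((Fh w).re + w.im * (ph w).im)) := by
  have hpi := Real.pi_pos
  rcases le_total 0 w.im with h | h
  · unfold BW
    rw [if_pos, BWd_ee hw h]
    rw [norm_ee, Real.exp_le_one_iff]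
    have : 0 ≤ 2 * Real.pi * w.im := by positivity
    linarith only [this]
  · rcases h.eq_or_lt with h' | h'
    · unfold BW
      rw [if_pos, BWd_ee hw h'.ge]
      rw [norm_ee, h']
      simp
    · have hc : (starRingEnd ℂ) w ∈ strip := VOL.strip_conj hw
      have hn : ¬ ‖ee w‖ ≤ 1 := by
        rw [norm_ee, Real.exp_le_one_iff, not_le]
        nlinarith only [hpi, h']
      have e1 : (ee w)⁻¹ = (starRingEnd ℂ) (ee ((starRingEnd ℂ) w)) := by
        unfold ee
        rw [← Complex.exp_conj, ← Complex.exp_neg]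
        congr 1
        simp only [map_mul, Complex.conj_ofReal, Complex.conj_I, map_ofNat, Complex.conj_conj]
        ring
      have h2 := BWd_ee hc (by rw [Complex.conj_im]; linarith only [h'])
      have h3 : (1 - ee ((starRingEnd ℂ) w)).arg ≠ Real.pi := by
        have := (arg_one_sub_ee hc).2
        rw [abs_lt] at this
        exact this.2.ne
      unfold BW
      rw [if_neg hn, e1, BWd_conj h3, neg_neg, h2, VOL.Fh_conj hw, VOL.ph_conj hw]
      simp

theorem BW_ee_one_sub {w : ℂ} (hw : w ∈ strip) : BW (ee (1 - w)) = -BW (ee w) := by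
  rw [BW_ee hw, BW_ee (VOL.strip_one_sub hw), VOL.Fh_one_sub, VOL.ph_one_sub]
  simp
  ring

theorem ee_add (w z : ℂ) : ee (w + z) = ee w * ee z := by
  unfold ee
  rw [← Complex.exp_add]
  congr 1
  ring

theorem ee_neg (w : ℂ) : ee (-w) = (ee w)⁻¹ := by
  unfold ee
  rw [← Complex.exp_neg]
  congr 1
  ring

theorem ee_half : ee (1 / 2) = -1 := by
  unfold ee
  rw [show (2 * Real.pi * Complex.I * (1 / 2) : ℂ) = Real.pi * Complex.I by ring,
    Complex.exp_pi_mul_I]

theorem ee_one : ee 1 = 1 := by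
  unfold ee
  rw [mul_one, Complex.exp_two_pi_mul_I]

theorem ee_ne (w : ℂ) : ee w ≠ 0 := Complex.exp_ne_zero _

theorem shape_one (w ζ : ℂ) : -(ee ζ / ee w) = ee (1 / 2 - w + ζ) := by
  rw [ee_add, sub_eq_add_neg, ee_add, ee_half, ee_neg]
  field_simp

theorem shape_two (w ζ : ℂ) : -(1 / (ee ζ * ee w)) = ee (1 / 2 - w - ζ) := by
  rw [sub_eq_add_neg, ee_add, sub_eq_add_neg, ee_add, ee_half, ee_neg, ee_neg]
  have h1 := ee_ne w
  have h2 := ee_ne ζ
  field_simp

/-- all shapes have positive imaginary part -/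
theorem shapes_pos {w ζ : ℂ} (h0 : 0 < w.re) (h1 : w.re < 1 / 2) (h2 : |ζ.re| < w.re)
    (h3 : w.re + |ζ.re| < 1 / 2) : 0 < (ee w).im ∧ 0 < (-(ee ζ / ee w)).im ∧
      0 < (-(1 / (ee ζ * ee w))).im := by
  have h4 := le_abs_self ζ.re
  have h5 := neg_abs_le ζ.re
  rw [shape_one, shape_two]
  refine ⟨ee_im_pos h0 h1, ee_im_pos ?_ ?_, ee_im_pos ?_ ?_⟩
  · simp
    linarith only [h3, h5]
  · simp
    linarith only [h2, h4]
  · simp
    linarith only [h3, h4]
  · simp
    linarith only [h2, h5]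

/-- the ring function -/
theorem rvol_eq {w ζ : ℂ} (h0 : 0 < w.re) (h1 : w.re < 1 / 2) (h3 : w.re + |ζ.re| < 1 / 2) :
    rvol (ee w) (ee ζ) = 2 * Real.pi * ((Fh (w + 1 / 2 + ζ) + Fh (w + 1 / 2 - ζ) - 2 * Fh w).re +
      w.im * (ph (w + 1 / 2 + ζ) + ph (w + 1 / 2 - ζ) - 2 * ph w).im + ζ.im * (tz w ζ).im) := by
  have h4 := le_abs_self ζ.re
  have h5 := neg_abs_le ζ.re
  have m1 : w + 1 / 2 + ζ ∈ strip := by
    constructor
    · rw [re_add_half]; linarith only [h0, h3, h5]
    · rw [re_add_half]; linarith only [h3, h4]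
  have m2 : w + 1 / 2 - ζ ∈ strip := by
    constructor
    · rw [re_sub_half]; linarith only [h0, h3, h4]
    · rw [re_sub_half]; linarith only [h3, h5]
  have m0 : w ∈ strip := ⟨h0, by linarith only [h0, h1]⟩
  unfold rvol
  have e1 : 1 / 2 - w - ζ = 1 - (w + 1 / 2 + ζ) := by ring
  have e2 : 1 / 2 - w + ζ = 1 - (w + 1 / 2 - ζ) := by ring
  rw [shape_one, shape_two, e1, e2, BW_ee_one_sub m1, BW_ee_one_sub m2, BW_ee m0, BW_ee m1,
    BW_ee m2]
  unfold tz
  have i1 : (w + 1 / 2 + ζ).im = w.im + ζ.im := by simp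
  have i2 : (w + 1 / 2 - ζ).im = w.im - ζ.im := by simp
  rw [i1, i2]
  simp only [Complex.add_re, Complex.sub_re, Complex.add_im, Complex.sub_im, Complex.mul_re,
    Complex.mul_im, Complex.re_ofNat, Complex.im_ofNat, zero_mul, sub_zero, add_zero]
  ring

/-- at a critical point the real part of the potential is the volume, up to the factor `2π` -/
theorem vol_TT {M : ℕ} {b : Fin (M + 1) → ℤ} {y : Fin M → ℂ} {ζ : Fin (M + 1) → ℂ}
    (h : Crit b y ζ) (h0 : ∀ j, 0 < (y j).re) (h1 : ∀ j : Fin M, (y j).re + |(ζ j.castSucc).re| < 1 / 2)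
    (h2 : ∀ j : Fin M, (y j).re + |(ζ j.succ).re| < 1 / 2) :
    2 * Real.pi * (TT b y ζ).re = volL y ζ := by
  have h3 : ∀ j, (y j).re < 1 / 2 := fun j => by
    have := abs_nonneg (ζ j.castSucc).re
    linarith only [this, h1, h1 j]
  unfold volL
  have e1 : ∀ j : Fin M, rvol (ee (y j)) (ee (ζ j.castSucc)) + rvol (ee (y j)) (ee (ζ j.succ)) =
      2 * Real.pi * ((tp (y j) (ζ j.castSucc) (ζ j.succ)).re +
        ((ζ j.castSucc).im * (tz (y j) (ζ j.castSucc)).im + (ζ j.succ).im * (tz (y j) (ζ j.succ)).im)) := by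
    intro j
    rw [rvol_eq (h0 j) (h3 j) (h1 j), rvol_eq (h0 j) (h3 j) (h2 j)]
    have hc := congrArg Complex.im (h.crit_y j)
    unfold tw at hc
    unfold tp
    simp only [Complex.add_re, Complex.sub_re, Complex.add_im, Complex.sub_im, Complex.mul_re,
      Complex.mul_im, Complex.re_ofNat, Complex.im_ofNat, zero_mul, sub_zero, add_zero,
      Complex.zero_im] at hc ⊢
    linear_combination (2 * Real.pi * (y j).im) * hc
  rw [sum_congr rfl fun j _ => e1 j, ← mul_sum, sum_add_distrib]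
  congr 1
  -- the derivative with respect to `ζ i`
  have e2 : ∑ j : Fin M, ((ζ j.castSucc).im * (tz (y j) (ζ j.castSucc)).im +
      (ζ j.succ).im * (tz (y j) (ζ j.succ)).im) = ∑ i, (ζ i).im * (dz y ζ i).im := by
    have e3 : ∀ i, (ζ i).im * (dz y ζ i).im = ∑ j : Fin M,
        ((if j.castSucc = i then (ζ i).im * (tz (y j) (ζ i)).im else 0) +
          (if j.succ = i then (ζ i).im * (tz (y j) (ζ i)).im else 0)) := by
      intro i
      unfold dz
      rw [Complex.im_sum, mul_sum]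
      refine sum_congr rfl fun j _ => ?_
      rw [Complex.add_im]
      split_ifs <;> simp [mul_add]
    rw [sum_congr rfl fun i _ => e3 i, sum_comm]
    refine sum_congr rfl fun j _ => ?_
    rw [sum_add_distrib]
    simp
  rw [e2]
  unfold TT
  rw [Complex.add_re, Complex.re_sum, Complex.re_sum]
  have e4 : ∀ i, (ζ i).im * (dz y ζ i).im =
      (Real.pi * Complex.I * b i * ζ i ^ 2 + 2 * Real.pi * Complex.I * ζ i).re := by
    intro i
    have hc := congrArg Complex.im (h.crit_z i)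
    have e5 : (2 * Real.pi * Complex.I * (b i * ζ i + 1) : ℂ).im = 2 * Real.pi * (b i * (ζ i).re + 1) := by
      simp [Complex.mul_re, Complex.mul_im]
    rw [Complex.add_im, e5, Complex.zero_im] at hc
    have e6 : (Real.pi * Complex.I * b i * ζ i ^ 2 + 2 * Real.pi * Complex.I * ζ i : ℂ).re =
        -(2 * Real.pi * b i * (ζ i).re * (ζ i).im) - 2 * Real.pi * (ζ i).im := by
      rw [sq]
      simp [Complex.mul_re, Complex.mul_im]
      ring
    rw [e6]
    have e7 : (dz y ζ i).im = -(2 * Real.pi * (b i * (ζ i).re + 1)) := by linarith only [hc]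
    rw [e7]
    ring
  rw [sum_congr rfl fun i _ => (e4 i).symm]
  ring

/-! ### the gluing equations in exponential form -/

/-- `1 - e^{2πiw} = e^{ph w} e^{πi(w-1/2)}` on the strip -/
theorem one_sub_ee' {w : ℂ} (hw : w ∈ strip) :
    1 - ee w = Complex.exp (ph w + Real.pi * (w - 1 / 2) * Complex.I) := by
  rw [one_sub_ee, Complex.exp_add, VOL.exp_ph hw]

theorem ee_two (w ζ : ℂ) : 1 - ee (w + 1 / 2 + ζ) = 1 + ee w * ee ζ ∧
    1 - ee (w + 1 / 2 - ζ) = 1 + ee w / ee ζ := by
  constructor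
  · rw [ee_add, ee_add, ee_half]
    ring
  · rw [sub_eq_add_neg (w + 1 / 2), ee_add, ee_add, ee_half, ee_neg]
    have := ee_ne ζ
    field_simp
    ring

theorem strip_two {w ζ : ℂ} (h0 : 0 < w.re) (h3 : w.re + |ζ.re| < 1 / 2) :
    w + 1 / 2 + ζ ∈ strip ∧ w + 1 / 2 - ζ ∈ strip := by
  have h4 := le_abs_self ζ.re
  have h5 := neg_abs_le ζ.re
  constructor
  · constructor
    · rw [re_add_half]; linarith only [h0, h3, h5]
    · rw [re_add_half]; linarith only [h3, h4]
  · constructor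
    · rw [re_sub_half]; linarith only [h0, h3, h4]
    · rw [re_sub_half]; linarith only [h3, h5]

/-- the gluing equation at a turning point -/
theorem glue_y {w ζ ζ' : ℂ} (h : tw w ζ ζ' = 0) (h0 : 0 < w.re) (h1 : w.re + |ζ.re| < 1 / 2)
    (h2 : w.re + |ζ'.re| < 1 / 2) :
    (1 + ee w * ee ζ) * (1 + ee w / ee ζ) * ((1 + ee w * ee ζ') * (1 + ee w / ee ζ')) =
      (1 - ee w) ^ 4 := by
  have m0 : w ∈ strip := ⟨h0, by linarith only [h0, h1, abs_nonneg ζ.re]⟩
  obtain ⟨m1, m2⟩ := strip_two h0 h1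
  obtain ⟨m3, m4⟩ := strip_two h0 h2
  rw [← (ee_two w ζ).1, ← (ee_two w ζ).2, ← (ee_two w ζ').1, ← (ee_two w ζ').2, one_sub_ee' m0,
    one_sub_ee' m1, one_sub_ee' m2, one_sub_ee' m3, one_sub_ee' m4, ← Complex.exp_add,
    ← Complex.exp_add, ← Complex.exp_add, ← Complex.exp_nat_mul]
  have h5 : ph (w + 1 / 2 + ζ) + Real.pi * (w + 1 / 2 + ζ - 1 / 2) * Complex.I +
      (ph (w + 1 / 2 - ζ) + Real.pi * (w + 1 / 2 - ζ - 1 / 2) * Complex.I) +
      (ph (w + 1 / 2 + ζ') + Real.pi * (w + 1 / 2 + ζ' - 1 / 2) * Complex.I +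
      (ph (w + 1 / 2 - ζ') + Real.pi * (w + 1 / 2 - ζ' - 1 / 2) * Complex.I)) =
      ((4 : ℕ) : ℂ) * (ph w + Real.pi * (w - 1 / 2) * Complex.I) + 2 * Real.pi * Complex.I := by
    unfold tw at h
    push_cast
    linear_combination h
  rw [h5, Complex.exp_add, Complex.exp_two_pi_mul_I, mul_one]

theorem exp_tz {w ζ : ℂ} (h0 : 0 < w.re) (h1 : w.re + |ζ.re| < 1 / 2) :
    Complex.exp (tz w ζ) = (1 + ee w * ee ζ) / (ee w + ee ζ) := by
  obtain ⟨m1, m2⟩ := strip_two h0 h1
  have hne : (1 : ℂ) - ee (w + 1 / 2 - ζ) ≠ 0 := by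
    rw [one_sub_ee' m2]
    exact Complex.exp_ne_zero _
  have e1 : ee w + ee ζ = ee ζ * (1 - ee (w + 1 / 2 - ζ)) := by
    rw [(ee_two w ζ).2]
    have := ee_ne ζ
    field_simp
    ring
  rw [eq_div_iff (by rw [e1]; exact mul_ne_zero (ee_ne ζ) hne), e1, ← (ee_two w ζ).1,
    one_sub_ee' m1, one_sub_ee' m2]
  unfold tz ee
  rw [← Complex.exp_add, ← Complex.exp_add]
  congr 1
  ring

/-- the filling equation of a twist region -/
theorem glue_z {M : ℕ} {b : Fin (M + 1) → ℤ} {y : Fin M → ℂ} {ζ : Fin (M + 1) → ℂ}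
    (h : Crit b y ζ) (h0 : ∀ j, 0 < (y j).re) (h1 : ∀ j : Fin M, (y j).re + |(ζ j.castSucc).re| < 1 / 2)
    (h2 : ∀ j : Fin M, (y j).re + |(ζ j.succ).re| < 1 / 2) (i : Fin (M + 1)) :
    ee (ζ i) ^ b i * ∏ j : Fin M,
      ((if j.castSucc = i then (1 + ee (y j) * ee (ζ i)) / (ee (y j) + ee (ζ i)) else 1) *
        (if j.succ = i then (1 + ee (y j) * ee (ζ i)) / (ee (y j) + ee (ζ i)) else 1)) = 1 := by
  have e1 : ∀ j : Fin M,
      ((if j.castSucc = i then (1 + ee (y j) * ee (ζ i)) / (ee (y j) + ee (ζ i)) else 1) *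
        (if j.succ = i then (1 + ee (y j) * ee (ζ i)) / (ee (y j) + ee (ζ i)) else 1)) =
      Complex.exp ((if j.castSucc = i then tz (y j) (ζ i) else 0) +
        (if j.succ = i then tz (y j) (ζ i) else 0)) := by
    intro j
    rw [Complex.exp_add]
    congr 1
    · split_ifs with hj
      · subst hj
        rw [exp_tz (h0 j) (h1 j)]
      · rw [Complex.exp_zero]
    · split_ifs with hj
      · subst hj
        rw [exp_tz (h0 j) (h2 j)]
      · rw [Complex.exp_zero]
  rw [prod_congr rfl fun j _ => e1 j, ← Complex.exp_sum]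
  have e2 : ∑ j : Fin M, ((if j.castSucc = i then tz (y j) (ζ i) else 0) +
      (if j.succ = i then tz (y j) (ζ i) else 0)) = dz y ζ i := rfl
  have e3 : ee (ζ i) ^ b i = Complex.exp (2 * Real.pi * Complex.I * (b i * ζ i)) := by
    unfold ee
    rw [← Complex.exp_int_mul]
    congr 1
    ring
  rw [e2, e3, ← Complex.exp_add]
  have e4 : 2 * Real.pi * Complex.I * (b i * ζ i) + dz y ζ i = -(2 * Real.pi * Complex.I) := by
    linear_combination h.crit_z i
  rw [e4, Complex.exp_neg, Complex.exp_two_pi_mul_I, inv_one]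

end Pool.Agent.Work.MP_b30479_gtS.LT

end

section

/-!
# The function `F(z) = ∫ log (2 sin π z)` on the strip `0 ≤ Re z ≤ 1`
-/

namespace Pool.Agent.Work.MP_b30479_gtS.VC

open Complex Set Filter Topology MeasureTheory

/-- the open strip -/
def St : Set ℂ := {z | 0 < z.re ∧ z.re < 1}

/-- the closed strip -/
def Sc : Set ℂ := {z | 0 ≤ z.re ∧ z.re ≤ 1}

/-- `log (2 sin π z)` -/
noncomputable def Lg (z : ℂ) : ℂ := Complex.log (2 * Complex.sin (Real.pi * z))

/-- the primitive of `Lg` vanishing at `1/2` -/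
noncomputable def Fd (z : ℂ) : ℂ := ∫ t in (0 : ℝ)..1, (z - 1 / 2) * Lg (1 / 2 + t * (z - 1 / 2))

theorem isOpen_St : IsOpen St := by
  have h1 : IsOpen {z : ℂ | 0 < z.re} := isOpen_lt continuous_const Complex.continuous_re
  have h2 : IsOpen {z : ℂ | z.re < 1} := isOpen_lt Complex.continuous_re continuous_const
  exact h1.inter h2

theorem isClosed_Sc : IsClosed Sc := by
  have h1 : IsClosed {z : ℂ | 0 ≤ z.re} := isClosed_le continuous_const Complex.continuous_re
  have h2 : IsClosed {z : ℂ | z.re ≤ 1} := isClosed_le Complex.continuous_re continuous_const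
  exact h1.inter h2

theorem St_sub_Sc : St ⊆ Sc := fun _ h => ⟨h.1.le, h.2.le⟩

theorem sin_pi_eq (z : ℂ) : 2 * Complex.sin (Real.pi * z) =
    ((2 * (Real.sin (Real.pi * z.re) * Real.cosh (Real.pi * z.im)) : ℝ) : ℂ) +
    ((2 * (Real.cos (Real.pi * z.re) * Real.sinh (Real.pi * z.im)) : ℝ) : ℂ) * I := by
  have h1 : (Real.pi : ℂ) * z = ((Real.pi * z.re : ℝ) : ℂ) + ((Real.pi * z.im : ℝ) : ℂ) * I := by
    conv_lhs => rw [← Complex.re_add_im z]
    push_cast
    ring
  rw [h1, Complex.sin_add_mul_I, ← Complex.ofReal_sin, ← Complex.ofReal_cos, ← Complex.ofReal_cosh,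
    ← Complex.ofReal_sinh]
  push_cast
  ring

theorem sin_pi_re (z : ℂ) : (2 * Complex.sin (Real.pi * z)).re =
    2 * (Real.sin (Real.pi * z.re) * Real.cosh (Real.pi * z.im)) := by
  rw [sin_pi_eq, Complex.add_re, Complex.ofReal_re, Complex.re_ofReal_mul, Complex.I_re]
  ring

theorem sin_pi_im (z : ℂ) : (2 * Complex.sin (Real.pi * z)).im =
    2 * (Real.cos (Real.pi * z.re) * Real.sinh (Real.pi * z.im)) := by
  rw [sin_pi_eq, Complex.add_im, Complex.ofReal_im, Complex.im_ofReal_mul, Complex.I_im]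
  ring

theorem sin_pi_re_pos {z : ℂ} (hz : z ∈ St) : 0 < (2 * Complex.sin (Real.pi * z)).re := by
  rw [sin_pi_re]
  have hpi := Real.pi_pos
  have h1 : 0 < Real.sin (Real.pi * z.re) := by
    apply Real.sin_pos_of_pos_of_lt_pi
    · exact mul_pos hpi hz.1
    · nlinarith only [hpi, hz, hz.2]
  have h2 := Real.cosh_pos (Real.pi * z.im)
  positivity

theorem sin_pi_re_nonneg {z : ℂ} (hz : z ∈ Sc) : 0 ≤ (2 * Complex.sin (Real.pi * z)).re := by
  rw [sin_pi_re]
  have hpi := Real.pi_pos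
  have h1 : 0 ≤ Real.sin (Real.pi * z.re) := by
    apply Real.sin_nonneg_of_nonneg_of_le_pi
    · exact mul_nonneg hpi.le hz.1
    · nlinarith only [hpi, hz, hz.2]
  have h2 := Real.cosh_pos (Real.pi * z.im)
  positivity

theorem slit_of_Sc {z : ℂ} (hz : z ∈ Sc) (h0 : z ≠ 0) (h1 : z ≠ 1) :
    2 * Complex.sin (Real.pi * z) ∈ Complex.slitPlane := by
  rw [Complex.mem_slitPlane_iff]
  by_cases h : z ∈ St
  · exact Or.inl (sin_pi_re_pos h)
  · right
    have hre : z.re = 0 ∨ z.re = 1 := by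
      by_contra hcon
      push Not at hcon
      exact h ⟨lt_of_le_of_ne hz.1 (Ne.symm hcon.1), lt_of_le_of_ne hz.2 hcon.2⟩
    have him : z.im ≠ 0 := by
      intro h2
      rcases hre with h3 | h3
      · exact h0 (Complex.ext h3 h2)
      · exact h1 (Complex.ext h3 h2)
    rw [sin_pi_im]
    have h4 : Real.sinh (Real.pi * z.im) ≠ 0 := by
      rw [Ne, Real.sinh_eq_zero]
      exact mul_ne_zero Real.pi_ne_zero him
    have h5 : Real.cos (Real.pi * z.re) ≠ 0 := by
      rcases hre with h3 | h3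
      · rw [h3]; simp
      · rw [h3]; simp
    exact mul_ne_zero two_ne_zero (mul_ne_zero h5 h4)

theorem slit_of_St {z : ℂ} (hz : z ∈ St) : 2 * Complex.sin (Real.pi * z) ∈ Complex.slitPlane :=
  Or.inl (sin_pi_re_pos hz)

theorem exp_Lg {z : ℂ} (hz : z ∈ St) : Complex.exp (Lg z) = 2 * Complex.sin (Real.pi * z) :=
  Complex.exp_log (Complex.slitPlane_ne_zero (slit_of_St hz))

theorem exp_Lg' {z : ℂ} (hz : z ∈ Sc) (h0 : z ≠ 0) (h1 : z ≠ 1) :
    Complex.exp (Lg z) = 2 * Complex.sin (Real.pi * z) :=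
  Complex.exp_log (Complex.slitPlane_ne_zero (slit_of_Sc hz h0 h1))

theorem hasDerivAt_Lg {z : ℂ} (hz : z ∈ St) :
    HasDerivAt Lg (Real.pi * Complex.cot (Real.pi * z)) z := by
  have h1 : HasDerivAt (fun w : ℂ => (Real.pi : ℂ) * w) (Real.pi : ℂ) z := by
    simpa using (hasDerivAt_id z).const_mul (Real.pi : ℂ)
  have h2 : HasDerivAt (fun w : ℂ => 2 * Complex.sin (Real.pi * w))
      (2 * (Complex.cos (Real.pi * z) * Real.pi)) z := (h1.csin).const_mul 2
  have h3 := h2.clog (slit_of_St hz)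
  have h4 : 2 * (Complex.cos (Real.pi * z) * Real.pi) / (2 * Complex.sin (Real.pi * z)) =
      Real.pi * Complex.cot (Real.pi * z) := by
    rw [Complex.cot_eq_cos_div_sin, mul_div_mul_left _ _ two_ne_zero]
    ring
  rw [h4] at h3
  exact h3

theorem continuousAt_Lg {z : ℂ} (hz : z ∈ Sc) (h0 : z ≠ 0) (h1 : z ≠ 1) : ContinuousAt Lg z := by
  refine ContinuousAt.clog ?_ (slit_of_Sc hz h0 h1)
  fun_prop

theorem differentiableOn_Lg : DifferentiableOn ℂ Lg St := fun _ hz =>
  (hasDerivAt_Lg hz).differentiableAt.differentiableWithinAt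

/-! ### Norms -/

theorem norm_sin_pi_sq (z : ℂ) : ‖2 * Complex.sin (Real.pi * z)‖ ^ 2 =
    4 * (Real.sin (Real.pi * z.re) ^ 2 + Real.sinh (Real.pi * z.im) ^ 2) := by
  rw [← Complex.normSq_eq_norm_sq, Complex.normSq_apply, sin_pi_re, sin_pi_im]
  have h1 := Real.sin_sq_add_cos_sq (Real.pi * z.re)
  have h2 := Real.cosh_sq (Real.pi * z.im)
  have h3 : Real.cos (Real.pi * z.re) ^ 2 = 1 - Real.sin (Real.pi * z.re) ^ 2 := by linarith only [h1]
  calc _ = 4 * (Real.sin (Real.pi * z.re) ^ 2 * Real.cosh (Real.pi * z.im) ^ 2 +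
      Real.cos (Real.pi * z.re) ^ 2 * Real.sinh (Real.pi * z.im) ^ 2) := by ring
    _ = _ := by rw [h2, h3]; ring

theorem norm_sin_pi_le (z : ℂ) : ‖2 * Complex.sin (Real.pi * z)‖ ≤
    2 * Real.exp (Real.pi * |z.im|) := by
  have h0 : 0 ≤ 2 * Real.exp (Real.pi * |z.im|) := by positivity
  refine le_of_sq_le_sq ?_ h0
  rw [norm_sin_pi_sq]
  have h1 : Real.sinh (Real.pi * z.im) ^ 2 = Real.cosh (Real.pi * |z.im|) ^ 2 - 1 := by
    rw [Real.cosh_sq]
    rcases abs_cases z.im with ⟨h, _⟩ | ⟨h, _⟩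
    · rw [h]; ring
    · rw [h, show Real.pi * -z.im = -(Real.pi * z.im) by ring, Real.sinh_neg]; ring
  have h2 : Real.cosh (Real.pi * |z.im|) ≤ Real.exp (Real.pi * |z.im|) := by
    rw [Real.cosh_eq]
    have h3 : Real.exp (-(Real.pi * |z.im|)) ≤ Real.exp (Real.pi * |z.im|) := by
      apply Real.exp_le_exp.mpr
      have : 0 ≤ Real.pi * |z.im| := by positivity
      linarith only [this]
    linarith only [h3]
  have h4 := Real.sin_sq_le_one (Real.pi * z.re)
  have h5 : Real.cosh (Real.pi * |z.im|) ^ 2 ≤ Real.exp (Real.pi * |z.im|) ^ 2 := by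
    apply pow_le_pow_left₀ (Real.cosh_pos _).le h2
  rw [h1]
  nlinarith only [h4, h5]

theorem norm_sin_pi_ge (z : ℂ) : 2 * |Real.sin (Real.pi * z.re)| ≤
    ‖2 * Complex.sin (Real.pi * z)‖ := by
  refine le_of_sq_le_sq ?_ (norm_nonneg _)
  rw [norm_sin_pi_sq, mul_pow, sq_abs]
  nlinarith only [sq_nonneg (Real.sinh (Real.pi * z.im))]

theorem norm_sin_pi_ge' (z : ℂ) : 2 * |Real.sinh (Real.pi * z.im)| ≤
    ‖2 * Complex.sin (Real.pi * z)‖ := by
  refine le_of_sq_le_sq ?_ (norm_nonneg _)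
  rw [norm_sin_pi_sq, mul_pow, sq_abs]
  nlinarith only [sq_nonneg (Real.sin (Real.pi * z.re))]

theorem Lg_re (z : ℂ) : (Lg z).re = Real.log ‖2 * Complex.sin (Real.pi * z)‖ := Complex.log_re _

theorem Lg_im_abs {z : ℂ} (hz : z ∈ Sc) : |(Lg z).im| ≤ Real.pi / 2 := by
  rw [Lg, Complex.log_im]
  exact Complex.abs_arg_le_pi_div_two_iff.mpr (sin_pi_re_nonneg hz)

theorem Lg_re_le (z : ℂ) (h : 2 * Complex.sin (Real.pi * z) ≠ 0) :
    (Lg z).re ≤ 1 + Real.pi * |z.im| := by
  rw [Lg_re]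
  have h1 : Real.log ‖2 * Complex.sin (Real.pi * z)‖ ≤
      Real.log (2 * Real.exp (Real.pi * |z.im|)) :=
    Real.log_le_log (norm_pos_iff.mpr h) (norm_sin_pi_le z)
  rw [Real.log_mul (by norm_num) (Real.exp_ne_zero _), Real.log_exp] at h1
  have h2 : Real.log 2 < 1 := by linarith only [Real.log_two_lt_d9]
  linarith only [h1, h2]

theorem Lg_re_ge (z : ℂ) (h : Real.sin (Real.pi * z.re) ≠ 0) :
    Real.log |Real.sin (Real.pi * z.re)| ≤ (Lg z).re := by
  rw [Lg_re]
  apply Real.log_le_log (abs_pos.mpr h)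
  have := norm_sin_pi_ge z
  have h1 := abs_nonneg (Real.sin (Real.pi * z.re))
  linarith only [this, h1]

/-- the norm of `Lg` -/
theorem norm_Lg_le {z : ℂ} (hz : z ∈ Sc) (h : Real.sin (Real.pi * z.re) ≠ 0) :
    ‖Lg z‖ ≤ 3 + Real.pi * |z.im| - Real.log |Real.sin (Real.pi * z.re)| := by
  have h1 : ‖Lg z‖ ≤ |(Lg z).re| + |(Lg z).im| := Complex.norm_le_abs_re_add_abs_im _
  have h2 := Lg_im_abs hz
  have h3 : 2 * Complex.sin (Real.pi * z) ≠ 0 := by
    intro h4
    have := norm_sin_pi_ge z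
    rw [h4, norm_zero] at this
    have h5 := abs_pos.mpr h
    linarith only [this, h5]
  have h4 := Lg_re_le z h3
  have h5 := Lg_re_ge z h
  have h6 : Real.log |Real.sin (Real.pi * z.re)| ≤ 0 :=
    Real.log_nonpos (abs_nonneg _) (Real.abs_sin_le_one _)
  have h7 : |(Lg z).re| ≤ 1 + Real.pi * |z.im| - Real.log |Real.sin (Real.pi * z.re)| := by
    rw [abs_le]
    have : 0 ≤ Real.pi * |z.im| := by positivity
    constructor <;> linarith only [h5, this, h4, h6]
  have h8 : Real.pi / 2 ≤ 2 := by linarith only [Real.pi_le_four]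
  linarith only [h1, h2, h7, h8]

end Pool.Agent.Work.MP_b30479_gtS.VC

end

section

/-!
# Bounds for `Pn` and `Rn` up to the boundary of the strip
-/

namespace Pool.Agent.Work.MP_b30479_gtS.G2

open Finset VOL AX Complex MeasureTheory

theorem UU_eq_Fh {w : ℂ} (hw : w ∈ strip) : UU w = (Fh w).re := by
  have h1 := LT.Fh_re_eq_Lr hw.1 hw.2 (abs_nonneg w.im)
  unfold UU
  rw [← h1]
  rcases le_total 0 w.im with h | h
  · rw [abs_of_nonneg h, re_add_im]
  · have e : ((w.re : ℂ) + ((|w.im| : ℝ) : ℂ) * I) = starRingEnd ℂ w := by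
      rw [abs_of_nonpos h]
      apply Complex.ext
      · simp
      · simp
    rw [e, Fh_conj hw, conj_re]

theorem UU_add_one (w : ℂ) : UU (w + 1) = UU w + Real.pi * |w.im| := by
  unfold UU
  have e1 : (w + 1).re = w.re + 1 := by simp
  have e2 : (w + 1).im = w.im := by simp
  rw [e1, e2, DT.Lr_add_one (abs_nonneg _)]
  ring

theorem UU_one_sub (w : ℂ) : UU (1 - w) = -UU w := by
  unfold UU
  have e1 : (1 - w).re = 1 - w.re := by simp
  have e2 : (1 - w).im = -w.im := by simp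
  rw [e1, e2, abs_neg, DT.Lr_one_sub (abs_nonneg _)]
  ring

theorem UU_neg (w : ℂ) : UU (-w) = -UU w - Real.pi * |w.im| := by
  have h := UU_one_sub (w + 1)
  rw [UU_add_one, show (1 : ℂ) - (w + 1) = -w by ring] at h
  linarith only [h]

/-! ### modulus of continuity -/

theorem el_le {ρ v : ℝ} (hρ : 0 ≤ ρ) : DT.el ρ v ≤ Real.log 2 + Real.pi * ρ := by
  have hpi := Real.pi_pos
  have hc := Real.neg_one_le_cos (2 * Real.pi * v)
  have h1 : 2 * Real.cosh (2 * Real.pi * ρ) - 2 * Real.cos (2 * Real.pi * v) ≤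
      (2 * Real.exp (Real.pi * ρ)) ^ 2 := by
    have h2 : Real.cosh (2 * Real.pi * ρ) ≤ Real.exp (2 * Real.pi * ρ) := by
      rw [Real.cosh_eq]
      have : Real.exp (-(2 * Real.pi * ρ)) ≤ Real.exp (2 * Real.pi * ρ) := by
        apply Real.exp_le_exp.2
        have : 0 ≤ 2 * Real.pi * ρ := by positivity
        linarith only [this]
      linarith only [this]
    have h3 : (1 : ℝ) ≤ Real.exp (2 * Real.pi * ρ) := Real.one_le_exp (by positivity)
    have h4 : (2 * Real.exp (Real.pi * ρ)) ^ 2 = 4 * Real.exp (2 * Real.pi * ρ) := by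
      rw [mul_pow, ← Real.exp_nat_mul]
      norm_num
      ring
    rw [h4]
    linarith only [hc, h2, h3]
  unfold DT.el
  rcases eq_or_lt_of_le (show 0 ≤ 2 * Real.cosh (2 * Real.pi * ρ) - 2 * Real.cos (2 * Real.pi * v) by
    have := Real.cos_le_one (2 * Real.pi * v)
    have := Real.one_le_cosh (2 * Real.pi * ρ)
    linarith) with h | h
  · rw [← h, Real.log_zero, zero_div]
    have := Real.log_nonneg (show (1 : ℝ) ≤ 2 by norm_num)
    positivity
  · have h5 := Real.log_le_log h h1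
    rw [Real.log_pow, Real.log_mul two_ne_zero (Real.exp_pos _).ne', Real.log_exp] at h5
    push_cast at h5
    linarith only [h5]

theorem el_ge {ρ v : ℝ} (hρ : 0 ≤ ρ) (h0 : 0 < v) (h1 : v < 1) :
    Real.log v + Real.log (1 - v) ≤ DT.el ρ v := by
  have hs := VOL.sin_pi_pos h0 h1
  have h2 := DT.el_mono (ρ := 0) (ρ' := ρ) (v := v) le_rfl hρ fun _ => hs.ne'
  refine le_trans ?_ h2
  rw [DT.el_eq]
  have e : (2 * Complex.sin (Real.pi * ((v : ℂ) + ((0 : ℝ) : ℂ) * I))) =
      ((2 * Real.sin (Real.pi * v) : ℝ) : ℂ) := by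
    push_cast
    rw [zero_mul, add_zero]
  rw [e, Complex.norm_real, Real.norm_of_nonneg (by positivity), ← Real.log_mul h0.ne'
    (by linarith only [h1] : (1 : ℝ) - v ≠ 0)]
  apply Real.log_le_log (mul_pos h0 (by linarith only [h1]))
  have key : ∀ x : ℝ, 0 ≤ x → x ≤ 1 / 2 → 2 * x ≤ Real.sin (Real.pi * x) := by
    intro x a b
    have hpi := Real.pi_pos
    have h3 := Real.mul_le_sin (x := Real.pi * x) (by positivity) (by nlinarith only [h0, h1, b, hpi])
    have e : 2 / Real.pi * (Real.pi * x) = 2 * x := by field_simp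
    rw [e] at h3
    exact h3
  rcases le_total v (1 / 2) with h | h
  · have := key v h0.le h
    nlinarith only [h0, this]
  · have h3 := key (1 - v) (by linarith only [h1]) (by linarith only [h])
    rw [show Real.pi * (1 - v) = Real.pi - Real.pi * v by ring, Real.sin_pi_sub] at h3
    nlinarith only [h1, h3]

/-- `h - h log h` -/
noncomputable def xlx (h : ℝ) : ℝ := h - h * Real.log h

theorem xlx_nonneg {h : ℝ} (h0 : 0 ≤ h) (h1 : h ≤ 1) : 0 ≤ xlx h := by
  unfold xlx
  have := Real.log_nonpos h0 h1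
  nlinarith only [h0, this, mul_nonneg h0 (neg_nonneg.2 this)]

theorem mul_log_add {x h : ℝ} (hx : 0 ≤ x) (hh : 0 ≤ h) :
    x * Real.log x + h * Real.log h ≤ (x + h) * Real.log (x + h) := by
  have h1 : x * Real.log x ≤ x * Real.log (x + h) := by
    rcases hx.eq_or_lt with h | h'
    · rw [← h, zero_mul, zero_mul]
    · exact mul_le_mul_of_nonneg_left (Real.log_le_log h' (by linarith only [hh])) hx
  have h2 : h * Real.log h ≤ h * Real.log (x + h) := by
    rcases hh.eq_or_lt with h' | h'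
    · rw [← h', zero_mul, zero_mul]
    · exact mul_le_mul_of_nonneg_left (Real.log_le_log h' (by linarith only [hx])) hh
  rw [add_mul]
  linarith only [h1, h2]

theorem integral_log_ge {x h : ℝ} (hx : 0 ≤ x) (hh : 0 ≤ h) :
    -xlx h ≤ ∫ v in x..(x + h), Real.log v := by
  rw [integral_log]
  unfold xlx
  have := mul_log_add hx hh
  linarith only [this]

theorem xlx_mono {a b : ℝ} (ha : 0 ≤ a) (hab : a ≤ b) (hb : b ≤ 1) : xlx a ≤ xlx b := by
  have h1 := mul_log_add ha (sub_nonneg.2 hab)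
  have h2 : Real.log (b - a) ≤ 0 := Real.log_nonpos (by linarith only [hab]) (by linarith only [ha, hb])
  rw [add_sub_cancel] at h1
  -- `xlx b - xlx a = (b - a) - b log b + a log a`
  -- use concavity: `b log b - a log a ≤ (b - a) (log b + 1)`
  unfold xlx
  rcases ha.eq_or_lt with h | h
  · subst h
    have : 0 ≤ xlx b := xlx_nonneg hab hb
    unfold xlx at this
    simp only [zero_mul, sub_zero]
    exact this
  · have h3 : Real.log b - Real.log a ≤ (b - a) / a := by
      have h4 := Real.log_le_sub_one_of_pos (show 0 < b / a from div_pos (by linarith only [hab, h]) h)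
      rw [Real.log_div (by linarith only [hab, h]) h.ne'] at h4
      have : b / a - 1 = (b - a) / a := by field_simp
      linarith only [h4, this]
    have h5 : a * (Real.log b - Real.log a) ≤ b - a := by
      have := mul_le_mul_of_nonneg_left h3 h.le
      rwa [mul_div_cancel₀ _ h.ne'] at this
    have h6 : Real.log b ≤ 0 := Real.log_nonpos (by linarith only [hab, h]) hb
    nlinarith only [h5, hab, h6, mul_nonneg (sub_nonneg.2 hab) (neg_nonneg.2 h6)]

theorem Lr_cell {ρ x x' : ℝ} (hρ : 0 ≤ ρ) (hx : 0 ≤ x) (hxx : x ≤ x') (hx' : x' ≤ 1) :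
    -(2 * xlx (x' - x)) ≤ DT.Lr ρ x' - DT.Lr ρ x := by
  rw [DT.Lr_sub]
  have h1 : (∫ v in x..x', (Real.log v + Real.log (1 - v))) ≤ ∫ v in x..x', DT.el ρ v := by
    apply intervalIntegral.integral_mono_on_of_le_Ioo hxx
    · apply IntervalIntegrable.add intervalIntegral.intervalIntegrable_log'
      have := (intervalIntegral.intervalIntegrable_log' (a := 1 - x) (b := 1 - x')).comp_sub_left 1
      simpa using this
    · exact DT.el_intble ρ x x'
    · intro v hv
      exact el_ge hρ (by linarith only [hx, hv, hv.1]) (by linarith only [hx', hv, hv.2])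
  refine le_trans ?_ h1
  rw [intervalIntegral.integral_add intervalIntegral.intervalIntegrable_log' (by
    have := (intervalIntegral.intervalIntegrable_log' (a := 1 - x) (b := 1 - x')).comp_sub_left 1
    simpa using this)]
  have h2 := integral_log_ge hx (sub_nonneg.2 hxx)
  have h3 := integral_log_ge (x := 1 - x') (by linarith only [hx']) (sub_nonneg.2 hxx)
  rw [add_sub_cancel] at h2
  rw [show 1 - x' + (x' - x) = 1 - x by ring] at h3
  have h4 : (∫ v in x..x', Real.log (1 - v)) = ∫ v in (1 - x')..(1 - x), Real.log v := by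
    rw [intervalIntegral.integral_comp_sub_left (fun v => Real.log v) 1]
  rw [h4]
  linarith only [h2, h3]

theorem Lr_add_int {ρ : ℝ} (hρ : 0 ≤ ρ) (x : ℝ) (m : ℤ) :
    DT.Lr ρ (x + m) = DT.Lr ρ x + m * (Real.pi * ρ) := by
  induction m using Int.induction_on with
  | zero => simp
  | succ m ih =>
    have h := DT.Lr_add_one hρ (x + m)
    push_cast at ih ⊢
    rw [← add_assoc, h, ih]
    ring
  | pred m ih =>
    have h := DT.Lr_add_one hρ (x + (-m - 1))
    push_cast at ih ⊢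
    rw [show x + (-(m : ℝ) - 1) + 1 = x + -(m : ℝ) by ring, ih] at h
    linarith only [h]

/-- **Lower bound of an increment.** -/
theorem Lr_incr_ge {ρ x h : ℝ} (hρ : 0 ≤ ρ) (h0 : 0 ≤ h) (h1 : h ≤ 1) :
    -(4 * xlx h) ≤ DT.Lr ρ (x + h) - DT.Lr ρ x := by
  set m : ℤ := ⌊x⌋ with hm
  set y : ℝ := x - m with hy
  have hy0 : 0 ≤ y := by
    have := Int.floor_le x
    linarith only [this]
  have hy1 : y < 1 := by
    have := Int.lt_floor_add_one x
    linarith only [this]
  have e1 : x = y + m := by rw [hy]; ring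
  have e2 : x + h = (y + h) + m := by rw [hy]; ring
  rw [e2, Lr_add_int hρ, e1, Lr_add_int hρ]
  have hg := xlx_nonneg h0 h1
  rcases le_total (y + h) 1 with hc | hc
  · have := Lr_cell hρ hy0 (x' := y + h) (by linarith only [h0]) hc
    rw [add_sub_cancel_left] at this
    linarith only [hg, this]
  · have a1 := Lr_cell hρ hy0 (x' := 1) hy1.le le_rfl
    have a2 := Lr_cell hρ le_rfl (x' := y + h - 1) (by linarith only [hc]) (by linarith only [h1, hy1])
    have a3 := Lr_add_int hρ (y + h - 1) 1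
    have a4 := DT.Lr_one hρ
    have a5 := DT.Lr_zero_right ρ
    have g1 : xlx (1 - y) ≤ xlx h := xlx_mono (by linarith only [hy1]) (by linarith only [hc]) h1
    have g2 : xlx (y + h - 1 - 0) ≤ xlx h := xlx_mono (by linarith only [hc]) (by linarith only [hy1]) h1
    push_cast at a3
    rw [sub_add_cancel] at a3
    linarith only [a1, a2, a4, a5, g1, g2, a3]

theorem Lr_incr_le {ρ x h : ℝ} (hρ : 0 ≤ ρ) (h0 : 0 ≤ h) :
    DT.Lr ρ (x + h) - DT.Lr ρ x ≤ (Real.log 2 + Real.pi * ρ) * h := by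
  rw [DT.Lr_sub]
  have h1 : (∫ v in x..(x + h), DT.el ρ v) ≤ ∫ _v in x..(x + h), (Real.log 2 + Real.pi * ρ) :=
    intervalIntegral.integral_mono_on (by linarith only [h0]) (DT.el_intble ρ _ _)
      intervalIntegrable_const fun v _ => el_le hρ
  refine h1.trans (le_of_eq ?_)
  rw [intervalIntegral.integral_const, smul_eq_mul]
  ring

/-- **Shifts by `O(1/n)`** cost a power of `n` only. -/
theorem UU_shift {H : ℝ} (hH : 0 ≤ H) {n : ℕ} (hn : 4 ≤ n) {w : ℂ} {d : ℝ} (hd : |d| ≤ 2 / n)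
    (hw : |w.im| ≤ H) : n * |UU (w + d) - UU w| ≤ 8 * Real.log n + (8 + 2 * Real.pi * H) := by
  have hn4 : (4 : ℝ) ≤ n := by exact_mod_cast hn
  have hn0 : (0 : ℝ) < n := by linarith only [hn4]
  have hpi := Real.pi_pos
  have e1 : (w + d).re = w.re + d := by simp
  have e2 : (w + d).im = w.im := by simp
  have hlog2 := Real.log_two_lt_d9
  have hlog2' : 0 < Real.log 2 := Real.log_pos (by norm_num)
  have hlogn : 0 ≤ Real.log n := Real.log_nonneg (by linarith only [hn4, hlog2, hlog2'])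
  set ρ := |w.im| with hρ
  have hρ0 : 0 ≤ ρ := abs_nonneg _
  have hd1 : |d| ≤ 1 := hd.trans (by rw [div_le_one hn0]; linarith only [hn4, hlog2, hlog2'])
  -- the modulus
  have hg : n * (4 * xlx |d|) ≤ 8 * Real.log n + 8 := by
    have h2n : 2 / (n : ℝ) ≤ 1 := by rw [div_le_one hn0]; linarith only [hn4, hlog2, hlog2']
    have h1 := xlx_mono (abs_nonneg d) hd h2n
    have h2 : n * xlx (2 / n) = 2 + 2 * (Real.log n - Real.log 2) := by
      unfold xlx
      rw [Real.log_div two_ne_zero hn0.ne']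
      field_simp
      ring
    have h3 := mul_le_mul_of_nonneg_left h1 hn0.le
    nlinarith only [hlog2', h2, h3]
  have hu : n * ((Real.log 2 + Real.pi * ρ) * |d|) ≤ 8 + 2 * Real.pi * H := by
    have h1 : n * |d| ≤ 2 := by
      have := mul_le_mul_of_nonneg_left hd hn0.le
      rwa [mul_div_cancel₀ _ hn0.ne'] at this
    have h2 : Real.log 2 + Real.pi * ρ ≤ 1 + Real.pi * H := by
      have := mul_le_mul_of_nonneg_left hw hpi.le
      linarith only [hlog2, hlog2', this]
    have h3 : 0 ≤ Real.log 2 + Real.pi * ρ := by positivity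
    calc n * ((Real.log 2 + Real.pi * ρ) * |d|) = (Real.log 2 + Real.pi * ρ) * (n * |d|) := by ring
      _ ≤ (1 + Real.pi * H) * 2 := by
        apply mul_le_mul h2 h1 (by positivity)
        positivity
      _ ≤ _ := by linarith only [hlog2, hlog2']
  have hH2 : 0 ≤ 2 * Real.pi * H := by positivity
  have hdiff : UU (w + d) - UU w = DT.Lr ρ (w.re + d) - DT.Lr ρ w.re := by
    unfold UU
    rw [e1, e2]
    ring
  rw [hdiff, ← abs_of_pos hn0, ← abs_mul, abs_of_pos hn0]
  rcases le_total 0 d with h | h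
  · rw [abs_of_nonneg h] at hg hu hd1
    have a1 := Lr_incr_ge (x := w.re) hρ0 h hd1
    have a2 := Lr_incr_le (x := w.re) hρ0 h
    rw [abs_le]
    constructor
    · have := mul_le_mul_of_nonneg_left a1 hn0.le
      linarith only [hg, hH2, this]
    · have := mul_le_mul_of_nonneg_left a2 hn0.le
      linarith only [hlogn, hu, this]
  · rw [abs_of_nonpos h] at hg hu hd1
    have a1 := Lr_incr_ge (x := w.re + d) hρ0 (neg_nonneg.2 h) hd1
    have a2 := Lr_incr_le (x := w.re + d) hρ0 (neg_nonneg.2 h)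
    rw [add_neg_cancel_right] at a1 a2
    rw [abs_le]
    constructor
    · have := mul_le_mul_of_nonneg_left a2 hn0.le
      linarith only [hlogn, hu, this]
    · have := mul_le_mul_of_nonneg_left a1 hn0.le
      linarith only [hg, hH2, this]

theorem exp_UU_shift {H : ℝ} (hH : 0 ≤ H) : ∃ C : ℝ, 0 < C ∧ ∀ (n : ℕ) (w : ℂ) (d : ℝ), 4 ≤ n →
    |d| ≤ 2 / n → |w.im| ≤ H →
    Real.exp (n * UU (w + d)) ≤ C * (n : ℝ) ^ 8 * Real.exp (n * UU w) ∧
    Real.exp (-(n * UU (w + d))) ≤ C * (n : ℝ) ^ 8 * Real.exp (-(n * UU w)) := by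
  refine ⟨Real.exp (8 + 2 * Real.pi * H), Real.exp_pos _, fun n w d hn hd hw => ?_⟩
  have hn0 : (0 : ℝ) < n := by
    have : 0 < n := by omega
    exact_mod_cast this
  have h := UU_shift hH hn hd hw
  rw [← abs_of_pos hn0, ← abs_mul, abs_of_pos hn0, abs_le] at h
  have e : (n : ℝ) ^ 8 = Real.exp (8 * Real.log n) := by
    rw [show (8 : ℝ) = ((8 : ℕ) : ℝ) by norm_num, Real.exp_nat_mul, Real.exp_log hn0]
  rw [e, ← Real.exp_add, ← Real.exp_add, ← Real.exp_add]
  constructor
  · apply Real.exp_le_exp.2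
    linarith only [h, h.2]
  · apply Real.exp_le_exp.2
    linarith only [h, h.1]

/-! ### the bounds -/

theorem sin_ge_two_mul {x : ℝ} (a : 0 ≤ x) (b : x ≤ 1 / 2) : 2 * x ≤ Real.sin (Real.pi * x) := by
  have hpi := Real.pi_pos
  have h3 := Real.mul_le_sin (x := Real.pi * x) (by positivity) (by nlinarith only [b, hpi])
  have e : 2 / Real.pi * (Real.pi * x) = 2 * x := by field_simp
  rw [e] at h3
  exact h3

theorem sin_ge_of_margin {x η : ℝ} (h : 0 ≤ η) (_h2 : η ≤ 1 / 2) (a : η ≤ x) (b : x ≤ 1 - η) :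
    2 * η ≤ Real.sin (Real.pi * x) := by
  rcases le_total x (1 / 2) with hc | hc
  · have := sin_ge_two_mul (x := x) (by linarith only [h, a]) hc
    linarith only [a, this]
  · have := sin_ge_two_mul (x := 1 - x) (by linarith only [h, b]) (by linarith only [hc])
    rw [show Real.pi * (1 - x) = Real.pi - Real.pi * x by ring, Real.sin_pi_sub] at this
    linarith only [b, this]

theorem norm_Qn_le {n : ℕ} (hn : 4 ≤ n) {w : ℂ} (h0 : 0 ≤ w.re) (h1 : w.re ≤ 1 - 1 / n) :
    ‖Qn n w‖ ≤ 2 * √(n : ℝ) * Real.exp (n * UU (w + ((1 / (2 * n) : ℝ) : ℂ))) := by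
  obtain ⟨a1, a2, a3⟩ := half_n hn
  have hn0 : (0 : ℝ) < n := by
    have : 0 < n := by omega
    exact_mod_cast this
  have hpi := Real.pi_gt_three
  have e : w + 1 / (2 * n) = w + ((1 / (2 * n) : ℝ) : ℂ) := by push_cast; rfl
  set v : ℂ := w + ((1 / (2 * n) : ℝ) : ℂ) with hv
  have ev : v.re = w.re + 1 / (2 * n) := by rw [hv, add_re, ofReal_re]
  have hs : v ∈ strip := ⟨by rw [ev]; linarith only [h0, a1, a2], by rw [ev]; linarith only [h1, a1, a2]⟩
  have hJ := norm_J_le_unif (n := n) (by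
    have : (4 : ℝ) ≤ n := by exact_mod_cast hn
    linarith only [a1, a3, this]) (w := v) (by rw [ev]; linarith only [h0]) (by rw [ev]; linarith only [h1, a2])
  rw [Qn, e, norm_mul, Complex.norm_real, Real.norm_of_nonneg (Real.sqrt_nonneg _),
    Complex.norm_exp]
  have hre : (M n v).re ≤ n * UU v + 1 / (2 * Real.pi) := by
    have : (M n v).re = n * (Fh v).re + (J n v).re := by
      unfold M
      rw [add_re]
      congr 1
      have : ((n : ℝ) : ℂ) = (n : ℂ) := by simp
      rw [this, mul_re]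
      simp
    rw [this, UU_eq_Fh hs]
    have := (abs_le.1 ((Complex.abs_re_le_norm (J n v)).trans hJ)).2
    linarith only [this]
  have h2 : Real.exp (M n v).re ≤ 2 * Real.exp (n * UU v) := by
    have h3 : (2 : ℝ) ≥ Real.exp (1 / (2 * Real.pi)) := by
      have h4 : 1 / (2 * Real.pi) ≤ 1 / 2 := by
        apply div_le_div_of_nonneg_left (by norm_num) (by norm_num) (by linarith only [a1, a3, hpi])
      have h5 : Real.exp (1 / (2 * Real.pi)) ≤ Real.exp (1 / 2) := Real.exp_le_exp.2 h4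
      have h6 : Real.exp (1 / 2) ^ 2 ≤ 2 ^ 2 := by
        rw [← Real.exp_nat_mul]
        have := Real.exp_one_lt_d9
        norm_num
        linarith only [a1, a3, this]
      have h7 := (pow_le_pow_iff_left₀ (Real.exp_pos _).le (by norm_num) two_ne_zero).1 h6
      linarith only [h5, h7]
    calc Real.exp (M n v).re ≤ Real.exp (n * UU v + 1 / (2 * Real.pi)) := Real.exp_le_exp.2 hre
      _ = Real.exp (1 / (2 * Real.pi)) * Real.exp (n * UU v) := by
        rw [← Real.exp_add]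
        congr 1
        ring
      _ ≤ 2 * Real.exp (n * UU v) := mul_le_mul_of_nonneg_right h3 (Real.exp_pos _).le
  calc √(n : ℝ) * Real.exp (M n v).re ≤ √(n : ℝ) * (2 * Real.exp (n * UU v)) :=
        mul_le_mul_of_nonneg_left h2 (Real.sqrt_nonneg _)
    _ = _ := by ring

/-- first sheet -/
theorem norm_P1_le {H : ℝ} (hH : 0 ≤ H) : ∃ C : ℝ, 0 < C ∧ ∀ (n : ℕ) (w : ℂ), 4 ≤ n →
    -(1 / (2 * (n : ℝ))) ≤ w.re → w.re ≤ 1 → |w.im| ≤ H →
    ‖P1 n w‖ ≤ C * (n : ℝ) ^ 10 * Real.exp (n * UU w) := by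
  obtain ⟨C, hC, hsh⟩ := exp_UU_shift hH
  refine ⟨4 * C * Real.exp (Real.pi * H), by positivity, fun n w hn h0 h1 hw => ?_⟩
  obtain ⟨a1, a2, a3⟩ := half_n hn
  have hn4 : (4 : ℝ) ≤ n := by exact_mod_cast hn
  have hn0 : (0 : ℝ) < n := by linarith only [a1, a3, hn4]
  have hpi := Real.pi_pos
  have hE : 1 ≤ Real.exp (Real.pi * H) := Real.one_le_exp (by positivity)
  have hsq : √(n : ℝ) ≤ n := by
    rw [Real.sqrt_le_left hn0.le]
    nlinarith only [a1, a3, hn4]
  have a5 : 2 / (n : ℝ) = 2 * (1 / n) := by ring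
  have a6 : 3 / (2 * (n : ℝ)) = 3 * (1 / n / 2) := by field_simp
  unfold P1
  split_ifs with h
  · have e2 : (w + 1 / n).re = w.re + 1 / n := by rw [add_re, re_one_div]
    have hQ := norm_Qn_le hn (w := w + 1 / n) (by rw [e2]; linarith only [h0, a1, a2]) (by rw [e2]; linarith only [a3, h])
    have hS : 2 / (n : ℝ) ≤ ‖2 * Complex.sin (Real.pi * (w + 1 / n))‖ := by
      have s1 := VC.norm_sin_pi_ge (w + 1 / n)
      have s2 := sin_ge_of_margin (x := (w + 1 / n).re) (η := 1 / n / 2) (by linarith only [a1])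
        (by linarith only [a1, a3]) (by rw [e2]; linarith only [h0, a2]) (by rw [e2]; linarith only [a1, a3, h])
      have s3 := le_abs_self (Real.sin (Real.pi * (w + 1 / n).re))
      linarith only [a5, s1, s2, s3]
    have e3 : w + 1 / n + ((1 / (2 * n) : ℝ) : ℂ) = w + ((3 / (2 * n) : ℝ) : ℂ) := by
      push_cast
      have : (n : ℂ) ≠ 0 := by exact_mod_cast hn0.ne'
      field_simp
      ring
    rw [e3] at hQ
    have hU := (hsh n w (3 / (2 * n)) hn (by
      rw [abs_of_nonneg (by positivity), a6, a5]; linarith only [a1]) hw).1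
    rw [norm_div, div_le_iff₀ (lt_of_lt_of_le (by positivity) hS)]
    have hX : 0 < Real.exp (n * UU w) := Real.exp_pos _
    calc ‖Qn n (w + 1 / n)‖ ≤ 2 * √(n : ℝ) * Real.exp (n * UU (w + ((3 / (2 * n) : ℝ) : ℂ))) := hQ
      _ ≤ 2 * n * (C * (n : ℝ) ^ 8 * Real.exp (n * UU w)) := by
        apply mul_le_mul (by linarith only [hsq]) hU (Real.exp_pos _).le (by positivity)
      _ = 2 * C * (n : ℝ) ^ 9 * Real.exp (n * UU w) := by ring
      _ ≤ 4 * C * Real.exp (Real.pi * H) * (n : ℝ) ^ 10 * Real.exp (n * UU w) * (2 / n) := by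
        have : 4 * C * Real.exp (Real.pi * H) * (n : ℝ) ^ 10 * Real.exp (n * UU w) * (2 / n) =
            8 * C * Real.exp (Real.pi * H) * (n : ℝ) ^ 9 * Real.exp (n * UU w) := by
          field_simp
          ring
        rw [this]
        apply mul_le_mul_of_nonneg_right _ hX.le
        apply mul_le_mul_of_nonneg_right _ (by positivity)
        nlinarith only [hC, a1, a3, hE]
      _ ≤ _ := mul_le_mul_of_nonneg_left hS (by positivity)
  · push Not at h
    have e1 : (w - 1 / n).re = w.re - 1 / n := by rw [sub_re, re_one_div]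
    have hQ := norm_Qn_le hn (w := w - 1 / n) (by rw [e1]; linarith only [a1, a3, h]) (by rw [e1]; linarith only [h1])
    have e3 : w - 1 / n + ((1 / (2 * n) : ℝ) : ℂ) = w + ((-(1 / (2 * n)) : ℝ) : ℂ) := by
      push_cast
      have : (n : ℂ) ≠ 0 := by exact_mod_cast hn0.ne'
      field_simp
      ring
    rw [e3] at hQ
    have hU := (hsh n w (-(1 / (2 * n))) hn (by
      rw [abs_neg, abs_of_nonneg (by positivity), a2, a5]; linarith only [a1]) hw).1
    have hS := VC.norm_sin_pi_le w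
    have hS2 : 2 * Real.exp (Real.pi * |w.im|) ≤ 2 * Real.exp (Real.pi * H) := by
      have := Real.exp_le_exp.2 (mul_le_mul_of_nonneg_left hw hpi.le)
      linarith only [this]
    have hX : 0 < Real.exp (n * UU w) := Real.exp_pos _
    rw [norm_mul]
    calc ‖Qn n (w - 1 / n)‖ * ‖2 * Complex.sin (Real.pi * w)‖ ≤
        (2 * √(n : ℝ) * Real.exp (n * UU (w + ((-(1 / (2 * n)) : ℝ) : ℂ)))) *
          (2 * Real.exp (Real.pi * H)) :=
          mul_le_mul hQ (hS.trans hS2) (norm_nonneg _) (by positivity)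
      _ ≤ (2 * n * (C * (n : ℝ) ^ 8 * Real.exp (n * UU w))) * (2 * Real.exp (Real.pi * H)) := by
        apply mul_le_mul_of_nonneg_right _ (by positivity)
        apply mul_le_mul (by linarith only [hsq]) hU (Real.exp_pos _).le (by positivity)
      _ = 4 * C * Real.exp (Real.pi * H) * (n : ℝ) ^ 9 * Real.exp (n * UU w) := by ring
      _ ≤ _ := by
        apply mul_le_mul_of_nonneg_right _ hX.le
        apply mul_le_mul_of_nonneg_left _ (by positivity)
        exact pow_le_pow_right₀ (by linarith only [a1, a3, hn4]) (by norm_num)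

/-- **The bound for `Pn`.** -/
theorem norm_Pn_le {H : ℝ} (hH : 0 ≤ H) : ∃ C : ℝ, 0 < C ∧ ∀ (n : ℕ) (w : ℂ), 4 ≤ n →
    -(1 / (2 * (n : ℝ))) ≤ w.re → w.re ≤ 2 → |w.im| ≤ H →
    ‖Pn n w‖ ≤ C * (n : ℝ) ^ 10 * Real.exp (n * UU w) := by
  obtain ⟨C, hC, hP⟩ := norm_P1_le hH
  refine ⟨2 * C, by positivity, fun n w hn h0 h1 hw => ?_⟩
  have hn4 : (4 : ℝ) ≤ n := by exact_mod_cast hn
  have hn0 : (0 : ℝ) < n := by linarith only [hn4]
  have hpi := Real.pi_pos
  unfold Pn
  split_ifs with h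
  · refine (hP n w hn h0 h hw).trans ?_
    have : 0 < C * (n : ℝ) ^ 10 * Real.exp (n * UU w) := by positivity
    nlinarith only [this]
  · push Not at h
    have e1 : (w - 1).re = w.re - 1 := by simp
    have e2 : (w - 1).im = w.im := by simp
    have a0 : 0 < 1 / (2 * (n : ℝ)) := by positivity
    have h2 := hP n (w - 1) hn (by rw [e1]; linarith only [h, a0]) (by rw [e1]; linarith only [h1]) (by rw [e2]; exact hw)
    have h3 := VC.norm_sin_pi_le (n * (w - 1))
    have e3 : ((n : ℂ) * (w - 1)).im = n * w.im := by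
      rw [mul_im, e2]
      simp
    rw [e3, abs_mul, abs_of_pos hn0] at h3
    have e4 : UU w = UU (w - 1) + Real.pi * |w.im| := by
      have := UU_add_one (w - 1)
      rw [sub_add_cancel, e2] at this
      exact this
    rw [norm_mul, norm_neg, e4]
    calc ‖2 * Complex.sin (Real.pi * (n * (w - 1)))‖ * ‖P1 n (w - 1)‖ ≤
        (2 * Real.exp (Real.pi * (n * |w.im|))) * (C * (n : ℝ) ^ 10 * Real.exp (n * UU (w - 1))) :=
          mul_le_mul h3 h2 (norm_nonneg _) (by positivity)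
      _ = 2 * C * (n : ℝ) ^ 10 * (Real.exp (n * UU (w - 1)) * Real.exp (Real.pi * (n * |w.im|))) := by
        ring
      _ = _ := by
        rw [← Real.exp_add]
        congr 2
        ring

/-- **The bound for `Rn`.** -/
theorem norm_Rn_le {H : ℝ} (hH : 0 ≤ H) : ∃ C : ℝ, 0 < C ∧ ∀ (n : ℕ) (w : ℂ), 4 ≤ n →
    -1 - 1 / (n : ℝ) ≤ w.re → w.re ≤ 1 - 1 / (2 * (n : ℝ)) → |w.im| ≤ H →
    ‖Rn n w‖ ≤ C * (n : ℝ) ^ 18 * Real.exp (-(n * UU w)) := by
  obtain ⟨C, hC, hP⟩ := norm_Pn_le hH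
  obtain ⟨C', hC', hsh⟩ := exp_UU_shift hH
  refine ⟨C * C', by positivity, fun n w hn h0 h1 hw => ?_⟩
  obtain ⟨a1, a2, a3⟩ := half_n hn
  have hn4 : (4 : ℝ) ≤ n := by exact_mod_cast hn
  have hn0 : (0 : ℝ) < n := by linarith only [a1, a3, hn4]
  have e3 : (1 - 1 / n - w).re = 1 - 1 / n - w.re := by rw [sub_re, sub_re, re_one_div, one_re]
  have e4 : (1 - 1 / n - w).im = -w.im := by
    have : (1 : ℂ) / n = ((1 / (n : ℝ) : ℝ) : ℂ) := by push_cast; rfl
    rw [sub_im, sub_im, this, ofReal_im, one_im]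
    ring
  have h2 := hP n (1 - 1 / n - w) hn (by rw [e3]; linarith only [h1, a2]) (by rw [e3]; linarith only [h0])
    (by rw [e4, abs_neg]; exact hw)
  have e5 : UU (1 - 1 / n - w) = -UU (w + ((1 / n : ℝ) : ℂ)) := by
    rw [← UU_one_sub]
    congr 1
    push_cast
    ring
  rw [e5] at h2
  have h3 := (hsh n w (1 / n) hn (by
    rw [abs_of_pos a1]
    have : 2 / (n : ℝ) = 2 * (1 / n) := by ring
    linarith only [a1, this]) hw).2
  have e6 : (n : ℝ) * -UU (w + ((1 / n : ℝ) : ℂ)) = -(n * UU (w + ((1 / n : ℝ) : ℂ))) := by ring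
  rw [e6] at h2
  have hnorm : ‖Rn n w‖ = ‖Pn n (1 - 1 / n - w)‖ / n := by
    rw [Rn, norm_div, Complex.norm_natCast]
  rw [hnorm, div_le_iff₀ hn0]
  have hX : 0 < Real.exp (-(n * UU w)) := Real.exp_pos _
  calc _ ≤ C * (n : ℝ) ^ 10 * Real.exp (-(n * UU (w + ((1 / n : ℝ) : ℂ)))) := h2
    _ ≤ C * (n : ℝ) ^ 10 * (C' * (n : ℝ) ^ 8 * Real.exp (-(n * UU w))) :=
      mul_le_mul_of_nonneg_left h3 (by positivity)
    _ = C * C' * (n : ℝ) ^ 18 * Real.exp (-(n * UU w)) := by ring
    _ ≤ C * C' * (n : ℝ) ^ 18 * Real.exp (-(n * UU w)) * n := by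
      apply le_mul_of_one_le_right (by positivity)
      linarith only [a1, a3, hn4]

end Pool.Agent.Work.MP_b30479_gtS.G2

end

section

/-!
# Positivity of the Bloch-Wigner dilogarithm on the upper half plane
-/

namespace Pool.Agent.Work.MP_b30479_gtS.LT

open Finset VOL AX MeasureTheory

theorem thr_lt {x : ℝ} (h0 : 0 < x) (h1 : x < 1 / 2) (y : ℝ) :
    VC.thr (x + y * Complex.I) < Real.pi * (1 / 2 - x) := by
  have hpi := Real.pi_pos
  have hs := sin_pi_pos h0 (by linarith only [h0, h1])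
  have hc : 0 < Real.cos (Real.pi * x) :=
    Real.cos_pos_of_mem_Ioo ⟨by nlinarith only [hpi, h0], by nlinarith only [h1, hpi]⟩
  have hct : 0 < Real.cos (Real.pi * x) / Real.sin (Real.pi * x) := div_pos hc hs
  have e : Real.arctan (Real.cos (Real.pi * x) / Real.sin (Real.pi * x)) =
      Real.pi * (1 / 2 - x) := by
    rw [← VC.tan_half_sub, Real.arctan_tan (by nlinarith only [hpi, h1]) (by nlinarith only [h0, hpi])]
    ring
  rw [VC.thr_eq_arctan h0 (by linarith only [h0, h1]), ← e]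
  apply Real.arctan_strictMono
  have h2 : Real.sinh (Real.pi * y) / Real.cosh (Real.pi * y) < 1 := by
    rw [div_lt_one (Real.cosh_pos _)]
    exact Real.sinh_lt_cosh _
  calc Real.cos (Real.pi * x) / Real.sin (Real.pi * x) *
        (Real.sinh (Real.pi * y) / Real.cosh (Real.pi * y))
      < Real.cos (Real.pi * x) / Real.sin (Real.pi * x) * 1 := mul_lt_mul_of_pos_left h2 hct
    _ = _ := mul_one _

theorem thr_mono {x : ℝ} (h0 : 0 < x) (h1 : x < 1 / 2) {y y' : ℝ} (h : y ≤ y') :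
    VC.thr (x + y * Complex.I) ≤ VC.thr (x + y' * Complex.I) := by
  have hpi := Real.pi_pos
  have hs := sin_pi_pos h0 (by linarith only [h0, h1])
  have hc : 0 < Real.cos (Real.pi * x) :=
    Real.cos_pos_of_mem_Ioo ⟨by nlinarith only [hpi, h0], by nlinarith only [h1, hpi]⟩
  rw [VC.thr_eq_arctan h0 (by linarith only [h0, h1]), VC.thr_eq_arctan h0 (by linarith only [h0, h1])]
  apply Real.arctan_strictMono.monotone
  apply mul_le_mul_of_nonneg_left _ (div_pos hc hs).le
  rw [div_le_div_iff₀ (Real.cosh_pos _) (Real.cosh_pos _)]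
  have h2 : 0 ≤ Real.sinh (Real.pi * y' - Real.pi * y) :=
    Real.sinh_nonneg_iff.mpr (by nlinarith only [h0, h1, h, hpi])
  rw [Real.sinh_sub] at h2
  linarith only [h2]

theorem phr_pos {x : ℝ} (h0 : 0 < x) (h1 : x < 1 / 2) : 0 < VC.phr x := by
  obtain ⟨t, ht, ht'⟩ := exists_hasDerivAt_eq_slope (fun y : ℝ => VC.phr (x + y * Complex.I))
    (fun y : ℝ => VC.thr (x + y * Complex.I)) zero_lt_one
    (fun y _ => (VC.hasDerivAt_phr_im h0 (by linarith only [h0, h1]) y).continuousAt.continuousWithinAt)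
    (fun y _ => VC.hasDerivAt_phr_im h0 (by linarith only [h0, h1]) y)
  have h2 := thr_mono h0 h1 ht.2.le
  have h3 := thr_lt h0 h1 1
  have h4 := VC.asymptote_le_phr h0 h1.le 1
  simp only [Complex.ofReal_zero, zero_mul, add_zero, sub_zero, div_one] at ht'
  linarith only [h2, h3, h4, ht']

theorem phr_gt {x : ℝ} (h0 : 0 < x) (h1 : x < 1 / 2) (y : ℝ) :
    y * VC.thr (x + y * Complex.I) < VC.phr (x + y * Complex.I) := by
  have key : ∀ y : ℝ, 0 ≤ y →
      y * VC.thr (x + y * Complex.I) < VC.phr (x + y * Complex.I) := by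
    intro y hy
    rcases hy.eq_or_lt with h | h
    · subst h
      have := phr_pos h0 h1
      simpa using this
    · have h2 := thr_lt h0 h1 y
      have h3 := VC.asymptote_le_phr h0 h1.le y
      nlinarith only [h3, h, h2]
  rcases le_total 0 y with hy | hy
  · exact key y hy
  · have h := key (-y) (by linarith only [hy])
    rw [VC.phr_neg_im h0 (by linarith only [h0, h1]) y] at h
    have e : VC.thr (x + ((-y : ℝ) : ℂ) * Complex.I) = -VC.thr (x + y * Complex.I) := by
      rw [VC.thr_eq_arctan h0 (by linarith only [h0, h1]), VC.thr_eq_arctan h0 (by linarith only [h0, h1]), mul_neg,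
        Real.sinh_neg, Real.cosh_neg, neg_div, mul_neg, Real.arctan_neg]
    rw [e] at h
    linarith only [h]

/-- `D(z) > 0` for `Im z > 0` -/
theorem BW_pos {w : ℂ} (h0 : 0 < w.re) (h1 : w.re < 1 / 2) : 0 < BW (ee w) := by
  have hpi := Real.pi_pos
  rw [BW_ee ⟨h0, by linarith only [h0, h1]⟩]
  have h := phr_gt h0 h1 w.im
  have e : (w.re : ℂ) + w.im * Complex.I = w := Complex.re_add_im w
  rw [e] at h
  have e2 : VC.thr w = (ph w).im := by
    unfold VC.thr ph
    rw [Complex.log_im]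
  rw [e2] at h
  unfold VC.phr at h
  nlinarith only [hpi, h]

end Pool.Agent.Work.MP_b30479_gtS.LT

end

section

/-!
# The volume is positive
-/

namespace Pool.Agent.Work.MP_b30479_gtS.G2

open Finset
open Pool.Agent.Work.MP_b30479_gtS.LT (BW ee BW_pos)

lemma BW_pos_of_im {z : ℂ} (h : 0 < z.im) : 0 < BW z := by
  have hp : (0 : ℝ) < 2 * Real.pi := by positivity
  have hz : z ≠ 0 := by
    rintro rfl
    simp at h
  have hI : (2 * Real.pi * Complex.I : ℂ) ≠ 0 := by
    simp [Real.pi_ne_zero]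
  have e : ee (Complex.log z / (2 * Real.pi * Complex.I)) = z := by
    unfold ee
    rw [mul_div_cancel₀ _ hI, Complex.exp_log hz]
  have hre : (Complex.log z / (2 * Real.pi * Complex.I)).re = z.arg / (2 * Real.pi) := by
    rw [show Complex.log z / (2 * Real.pi * Complex.I) =
      (-(Complex.log z * Complex.I)) * ((1 / (2 * Real.pi) : ℝ) : ℂ) by
        push_cast
        have := Complex.I_sq
        field_simp
        linear_combination Complex.log z * this]
    rw [Complex.re_mul_ofReal, Complex.neg_re, Complex.mul_I_re, neg_neg, Complex.log_im]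
    ring
  have h1 : 0 < z.arg := by
    have h2 : 0 ≤ z.arg := Complex.arg_nonneg_iff.mpr h.le
    rcases h2.lt_or_eq with h3 | h3
    · exact h3
    · exfalso
      have := Complex.arg_eq_zero_iff.mp h3.symm
      rw [this.2] at h
      exact lt_irrefl _ h
  have h2 : z.arg < Real.pi := by
    rcases (Complex.arg_le_pi z).lt_or_eq with h3 | h3
    · exact h3
    · exfalso
      have := Complex.arg_eq_pi_iff.mp h3
      rw [this.2] at h
      exact lt_irrefl _ h
  rw [← e]
  apply BW_pos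
  · rw [hre]
    positivity
  · rw [hre, div_lt_iff₀ hp]
    linarith

/-- The volume is positive. -/
theorem swVolume_pos {M : ℕ} {a : Fin (M + 2) → ℕ} {p : Fin (M + 2) → ℂ} {q : Fin (M + 2) → ℕ → ℂ}
    (h0 : 2 ≤ a 0) (h : SWPos a p q) : 0 < swVolume a p q := by
  unfold swVolume
  have h1 : ∀ i, ∀ l ∈ lays a i, 0 < 2 * BW (swShape p q i l) := fun i l hl => by
    have := BW_pos_of_im (h i l hl)
    positivity
  have hl0 : (0 : Fin (M + 2)) ≠ Fin.last (M + 1) := (Fin.last_pos' (n := M + 1)).ne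
  refine Finset.sum_pos' (fun i _ => Finset.sum_nonneg fun l hl => (h1 i l hl).le) ⟨0, mem_univ _, ?_⟩
  refine Finset.sum_pos (fun l hl => h1 0 l hl) ⟨2, ?_⟩
  unfold lays
  rw [if_pos rfl, if_neg hl0, mem_Icc]
  exact ⟨le_rfl, h0⟩

end Pool.Agent.Work.MP_b30479_gtS.G2

end
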