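import Pool.Agent.Work.MP_b30479_gt.TBS.DT.RSum
import Pool.Agent.Work.MP_b30479_gt.TBS.G2.WordsD
import Pool.Agent.Work.MP_b30479_gt.TBS.VOL.MProd
import Pool.Agent.Work.MP_b30479_gt.TBS.LT.Defs
import Pool.Agent.Work.MP_b30479_gt.TBS.VOL.Ring
import Mathlib

section

/-!
# The kernel near the maximum
-/

namespace Pool.Agent.Work.MP_b30479_gtS.LT

open Finset VOL AX MeasureTheory

/-- midpoint summation formula on a finite rectangle (for example from `VC.AbelPlana` or directly):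
`∑_{k=a}^{b-1} g k` is the integral over `[a-1/2, b-1/2]` at height `t`, up to the integrals over the
sides (up to the heights `±H`) and the integrals over top and bottom with the factor
`e^{-2πH}` -/
theorem sum_rect {g : ℂ → ℂ} {a b : ℕ} (hab : a ≤ b) {H t : ℝ} (hH : 1 ≤ H) (ht : |t| ≤ H)
    (hg : DifferentiableOn ℂ g {z | (a : ℝ) - 1 ≤ z.re ∧ z.re ≤ b}) {B1 B2 : ℝ}
    (hside : ∀ y : ℝ, |y| ≤ H → ‖g (((a : ℝ) - 1 / 2 : ℝ) + y * Complex.I)‖ ≤ B1 ∧
      ‖g (((b : ℝ) - 1 / 2 : ℝ) + y * Complex.I)‖ ≤ B1)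
    (htop : ∀ x : ℝ, (a : ℝ) - 1 / 2 ≤ x → x ≤ (b : ℝ) - 1 / 2 →
      ‖g (x + H * Complex.I)‖ ≤ B2 ∧ ‖g (x - H * Complex.I)‖ ≤ B2) :
    ‖∑ k ∈ Ico a b, g k - ∫ x in ((a : ℝ) - 1 / 2)..((b : ℝ) - 1 / 2), g (x + t * Complex.I)‖ ≤
      8 * H * B1 + 4 * ((b : ℝ) - a) * Real.exp (-(2 * Real.pi * H)) * B2 := by
  have hpi := Real.pi_gt_three
  have hH0 : 0 < H := by linarith only [hH]
  have hba : ((b : ℝ) - a) = ((b - a : ℕ) : ℝ) := by
    rw [Nat.cast_sub hab]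
  have habR : (a : ℝ) ≤ b := by exact_mod_cast hab
  have hadm : VC.AdmF g (((a : ℤ) : ℝ) - 1 / 2) (((a : ℤ) : ℝ) + ((b - a : ℕ) : ℝ) - 1 / 2) := by
    have hsub : ∀ z : ℂ, z ∈ VC.strip (((a : ℤ) : ℝ) - 1 / 2)
        (((a : ℤ) : ℝ) + ((b - a : ℕ) : ℝ) - 1 / 2) →
        z ∈ {z : ℂ | (a : ℝ) - 1 ≤ z.re ∧ z.re ≤ b} := by
      intro z hz
      have h1 := hz.1
      have h2 := hz.2
      rw [← hba] at h2
      push_cast at h1 h2
      constructor <;> linarith only [h1, h2]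
    exact ⟨(hg.mono hsub).continuousOn, hg.mono fun z hz => hsub z (VC.ostrip_subset_strip _ _ hz)⟩
  have h := VC.abel_planaF (g := g) (a : ℤ) (b - a) hadm hH0 hH0 t
  have hsum : ∑ j ∈ range (b - a), g (((a : ℤ) : ℂ) + j) = ∑ k ∈ Ico a b, g k := by
    rw [Finset.sum_Ico_eq_sum_range]
    refine Finset.sum_congr rfl fun j _ => ?_
    push_cast
    rfl
  rw [hsum, ← hba] at h
  have e1 : ((a : ℤ) : ℝ) - 1 / 2 = (a : ℝ) - 1 / 2 := by push_cast; rfl
  have e2 : ((a : ℤ) : ℝ) + ((b : ℝ) - a) - 1 / 2 = (b : ℝ) - 1 / 2 := by push_cast; ring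
  rw [e1, e2] at h
  rw [h]
  have e3 : ∀ X Y Z : ℂ, X + Y + Z - X = Y + Z := fun X Y Z => by ring
  rw [e3]
  have hB1 : 0 ≤ B1 := (norm_nonneg _).trans (hside 0 (by simpa using hH0.le)).1
  have hB2 : 0 ≤ B2 := (norm_nonneg _).trans (htop ((a : ℝ) - 1 / 2) le_rfl (by linarith only [hba])).1
  have hm := VC.norm_modeF_le (g := g) (a := (a : ℝ) - 1 / 2) (b := (b : ℝ) - 1 / 2)
    (K := B2) (K' := B2) (by linarith only [hba]) hH0 hH0 (fun x h1 h2 => (htop x h1 h2).1)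
    (fun x h1 h2 => (htop x h1 h2).2)
  have hrho : ∀ y : ℝ, VC.rho y ≤ 1 := VC.rho_le_one
  have ht' := abs_le.mp ht
  have hs : ∀ ξ : ℝ, (∀ y : ℝ, |y| ≤ H → ‖g ((ξ : ℂ) + y * Complex.I)‖ ≤ B1) →
      ‖VC.sideF g H H t ξ‖ ≤ (H + H) * B1 := by
    intro ξ hξ
    refine VC.norm_sideF_le ht'.2 ht'.1 ?_ ?_
    · intro y h1 h2
      have h3 := hξ y (abs_le.mpr ⟨by linarith only [ht'.1, ht', h1], h2⟩)
      calc VC.rho y * ‖g ((ξ : ℂ) + y * Complex.I)‖ ≤ 1 * B1 :=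
            mul_le_mul (hrho y) h3 (norm_nonneg _) zero_le_one
        _ = B1 := one_mul _
    · intro y h1 h2
      have h3 := hξ y (abs_le.mpr ⟨h1, by linarith only [ht'.2, ht', h2]⟩)
      calc VC.rho (-y) * ‖g ((ξ : ℂ) + y * Complex.I)‖ ≤ 1 * B1 :=
            mul_le_mul (hrho (-y)) h3 (norm_nonneg _) zero_le_one
        _ = B1 := one_mul _
  have hs1 := hs ((a : ℝ) - 1 / 2) fun y hy => (hside y hy).1
  have hs2 := hs ((b : ℝ) - 1 / 2) fun y hy => (hside y hy).2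
  refine (norm_add_le _ _).trans ?_
  have h4 : ‖Complex.I • (VC.sideF g H H t ((b : ℝ) - 1 / 2) -
      VC.sideF g H H t ((a : ℝ) - 1 / 2))‖ ≤ 8 * H * B1 := by
    rw [norm_smul, Complex.norm_I, one_mul]
    refine (norm_sub_le _ _).trans ?_
    nlinarith only [mul_nonneg hH0.le hB1, hs1, hs2, hH0, hB1]
  have h5 : Real.exp (-(2 * Real.pi) * H) / (1 - Real.exp (-(2 * Real.pi) * H)) ≤
      2 * Real.exp (-(2 * Real.pi * H)) := by
    have e4 : -(2 * Real.pi) * H = -(2 * Real.pi * H) := by ring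
    rw [e4]
    have h6 : Real.exp (-(2 * Real.pi * H)) ≤ 1 / 2 := by
      have h7 : Real.exp (-(2 * Real.pi * H)) ≤ Real.exp (-1) := by
        apply Real.exp_le_exp.mpr
        nlinarith only [hH, hpi]
      have h8 : Real.exp (-1) ≤ 1 / 2 := by
        rw [Real.exp_neg, inv_eq_one_div]
        apply one_div_le_one_div_of_le (by norm_num)
        have := Real.add_one_le_exp (1 : ℝ)
        linarith only [this]
      linarith only [h7, h8]
    have h9 := Real.exp_pos (-(2 * Real.pi * H))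
    rw [div_le_iff₀ (by linarith only [h6, h9])]
    nlinarith only [h6, h9]
  have h6 : ‖VC.modeF g H H ((a : ℝ) - 1 / 2) ((b : ℝ) - 1 / 2)‖ ≤
      4 * ((b : ℝ) - a) * Real.exp (-(2 * Real.pi * H)) * B2 := by
    refine hm.trans ?_
    have h7 : ((b : ℝ) - 1 / 2 - ((a : ℝ) - 1 / 2)) = (b : ℝ) - a := by ring
    rw [h7]
    have h8 : 0 ≤ (b : ℝ) - a := by linarith only [hba]
    calc ((b : ℝ) - a) * (Real.exp (-(2 * Real.pi) * H) / (1 - Real.exp (-(2 * Real.pi) * H)) * B2 +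
          Real.exp (-(2 * Real.pi) * H) / (1 - Real.exp (-(2 * Real.pi) * H)) * B2)
        ≤ ((b : ℝ) - a) * (2 * Real.exp (-(2 * Real.pi * H)) * B2 +
          2 * Real.exp (-(2 * Real.pi * H)) * B2) := by gcongr
      _ = 4 * ((b : ℝ) - a) * Real.exp (-(2 * Real.pi * H)) * B2 := by ring
  linarith only [h4, h6]

theorem norm_exp_ph_le {w : ℂ} (h0 : 1 / 8 ≤ w.re) (h1 : w.re ≤ 3 / 8) :
    ‖Complex.exp (-(2 * ph w))‖ ≤ 4 := by
  have hpi := Real.pi_pos
  have hw : w ∈ VOL.strip := ⟨by linarith only [h0], by linarith only [h1]⟩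
  have h2 : 1 / 4 ≤ Real.sin (Real.pi * w.re) := by
    have h3 := Real.mul_le_sin (x := Real.pi * w.re) (by positivity) (by nlinarith only [hpi, h1])
    have h4 : 2 / Real.pi * (Real.pi * w.re) = 2 * w.re := by
      field_simp
    linarith only [h0, h3, h4]
  have h3 : 1 / 2 ≤ ‖2 * Complex.sin (Real.pi * w)‖ := by
    rw [norm_mul, Complex.norm_ofNat]
    have h4 := Complex.re_le_norm (Complex.sin (Real.pi * w))
    rw [sin_pi_re] at h4
    have h5 := Real.one_le_cosh (Real.pi * w.im)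
    nlinarith only [h2, h4, h5]
  have h4 : Complex.exp (-(2 * ph w)) = ((2 * Complex.sin (Real.pi * w)) ^ 2)⁻¹ := by
    rw [Complex.exp_neg, ← exp_ph hw, ← Complex.exp_nat_mul]
    norm_num
  rw [h4, norm_inv, norm_pow]
  have h5 : 1 / 4 ≤ ‖2 * Complex.sin (Real.pi * w)‖ ^ 2 := by nlinarith only [h3]
  calc (‖2 * Complex.sin (Real.pi * w)‖ ^ 2)⁻¹ ≤ (1 / 4)⁻¹ := inv_anti₀ (by norm_num) h5
    _ = 4 := by norm_num

/-- upper bound for the integrand -/
theorem exp_Tn_le : ∃ K : ℝ, 0 ≤ K ∧ ∀ n : ℕ, 8 ≤ n → ∀ w ζ ζ' : ℂ, 1 / 8 ≤ w.re → w.re ≤ 3 / 8 →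
    |ζ.re| ≤ 1 / 16 → |ζ'.re| ≤ 1 / 16 →
    ‖Complex.exp (Tn n w ζ ζ')‖ ≤ K * Real.exp (n * (tp w ζ ζ').re) := by
  obtain ⟨C, hC, h⟩ := Tn_expand
  refine ⟨4 * Real.exp C, by positivity, ?_⟩
  intro n hn w ζ ζ' h0 h1 h2 h3
  have h4 := h n hn w ζ ζ' h0 h1 h2 h3
  have hn1 : (1 : ℝ) ≤ n := by exact_mod_cast (by omega : 1 ≤ n)
  have h5 : C / n ≤ C := div_le_self hC hn1
  have h6 : Tn n w ζ ζ' = (n * tp w ζ ζ' + -(2 * ph w)) +
      (Tn n w ζ ζ' - (n * tp w ζ ζ' - 2 * ph w)) := by ring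
  rw [h6, Complex.exp_add, Complex.exp_add, norm_mul, norm_mul]
  have h7 : ‖Complex.exp (n * tp w ζ ζ')‖ = Real.exp (n * (tp w ζ ζ').re) := by
    rw [Complex.norm_exp]
    simp
  have h8 : ‖Complex.exp (Tn n w ζ ζ' - (n * tp w ζ ζ' - 2 * ph w))‖ ≤ Real.exp C := by
    rw [Complex.norm_exp]
    exact Real.exp_le_exp.mpr ((Complex.re_le_norm _).trans (h4.trans h5))
  rw [h7]
  have h9 := norm_exp_ph_le h0 h1
  calc Real.exp (n * (tp w ζ ζ').re) * ‖Complex.exp (-(2 * ph w))‖ *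
        ‖Complex.exp (Tn n w ζ ζ' - (n * tp w ζ ζ' - 2 * ph w))‖
      ≤ Real.exp (n * (tp w ζ ζ').re) * 4 * Real.exp C := by gcongr
    _ = 4 * Real.exp C * Real.exp (n * (tp w ζ ζ').re) := by ring

theorem absorb {c : ℝ} (hc : 0 < c) (n : ℕ) (t : ℝ) :
    (n : ℝ) * Real.exp (n * (t - c)) ≤ 2 / c * Real.exp (n * (t - c / 2)) := by
  have h1 := Real.add_one_le_exp ((n : ℝ) * (c / 2))
  have h2 : (n : ℝ) ≤ 2 / c * Real.exp ((n : ℝ) * (c / 2)) := by
    have h3 : (n : ℝ) * (c / 2) ≤ Real.exp ((n : ℝ) * (c / 2)) := by linarith only [h1]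
    calc (n : ℝ) = 2 / c * ((n : ℝ) * (c / 2)) := by field_simp
      _ ≤ _ := by gcongr
  have h4 : Real.exp (n * (t - c / 2)) = Real.exp ((n : ℝ) * (c / 2)) * Real.exp (n * (t - c)) := by
    rw [← Real.exp_add]
    congr 1
    ring
  rw [h4, ← mul_assoc]
  exact mul_le_mul_of_nonneg_right h2 (Real.exp_pos _).le

theorem near_num {n κ K E e1 e2 a b : ℝ} (hn : 1 ≤ n) (hκ : 0 ≤ κ) (hK : 0 ≤ K) (hE : 0 ≤ E)
    (he : e1 * e2 = E) (ha : 0 ≤ a) (hb : b ≤ n) :
    8 * (κ * n) * (1 / n ^ 2 * (K * E)) + 4 * (b - a) * e1 * (1 / n ^ 2 * (K * e2)) ≤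
      (8 * κ * K + 4 * K) * E := by
  have hnpos : 0 < n := by linarith only [hn]
  have h4 : 4 * (b - a) * e1 * (1 / n ^ 2 * (K * e2)) = 4 * ((b - a) / n ^ 2) * K * E := by
    rw [← he]
    ring
  rw [h4]
  have h5 : (b - a) / n ^ 2 ≤ 1 := by
    rw [div_le_one (by positivity)]
    nlinarith only [hn, ha, hb]
  have h6 : 8 * (κ * n) * (1 / n ^ 2 * (K * E)) = 8 * κ * (1 / n) * (K * E) := by
    field_simp
  rw [h6]
  have h7 : 1 / n ≤ 1 := by
    rw [div_le_one hnpos]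
    exact hn
  have h8 : 0 ≤ K * E := by positivity
  have h9 : 8 * κ * (1 / n) * (K * E) ≤ 8 * κ * 1 * (K * E) := by gcongr
  have h10 : 4 * ((b - a) / n ^ 2) * K * E ≤ 4 * 1 * K * E := by gcongr
  linarith only [h9, h10]

theorem far_sum {n a b : ℕ} {ζ ζ' : ℂ} {B : ℝ} (hbn : b ≤ n) (hB : 0 ≤ B)
    (hterm : ∀ k < n, (k < a ∨ b ≤ k) → ‖term n k ζ ζ'‖ ≤ B) :
    ‖SS n ζ ζ' - ∑ k ∈ Ico a b, term n k ζ ζ'‖ ≤ n * B := by
  have h1 : SS n ζ ζ' - ∑ k ∈ Ico a b, term n k ζ ζ' = ∑ k ∈ range n \ Ico a b, term n k ζ ζ' := by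
    unfold SS
    rw [← Finset.sum_sdiff (s₁ := Ico a b) (s₂ := range n)]
    · ring
    · intro k hk
      rw [Finset.mem_Ico] at hk
      rw [Finset.mem_range]
      omega
  rw [h1]
  have h2 : ∀ k ∈ range n \ Ico a b, ‖term n k ζ ζ'‖ ≤ B := by
    intro k hk
    rw [Finset.mem_sdiff, Finset.mem_range, Finset.mem_Ico] at hk
    refine hterm k hk.1 ?_
    by_contra h
    push Not at h
    exact hk.2 h
  refine (norm_sum_le _ _).trans ((Finset.sum_le_sum h2).trans ?_)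
  rw [Finset.sum_const, nsmul_eq_mul]
  apply mul_le_mul_of_nonneg_right _ hB
  have h3 : (range n \ Ico a b).card ≤ n := by
    refine (Finset.card_le_card Finset.sdiff_subset).trans ?_
    rw [Finset.card_range]
  exact_mod_cast h3

theorem end_int {f : ℝ → ℂ} {A B B₀ : ℝ} (hfc : ContinuousOn f (Set.Icc (1 / 8) (3 / 8)))
    (hA : 1 / 8 ≤ A) (hA' : A ≤ 3 / 16) (hB : 5 / 16 ≤ B) (hB' : B ≤ 3 / 8) (hB₀ : 0 ≤ B₀)
    (hfb : ∀ u : ℝ, 1 / 8 ≤ u → u ≤ 3 / 8 → 1 / 16 ≤ |u - 1 / 4| → ‖f u‖ ≤ B₀) :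
    ‖(∫ u in (1 / 8 : ℝ)..(3 / 8), f u) - ∫ u in A..B, f u‖ ≤ 2 * B₀ := by
  have hii : ∀ u v : ℝ, 1 / 8 ≤ u → u ≤ 3 / 8 → 1 / 8 ≤ v → v ≤ 3 / 8 →
      IntervalIntegrable f volume u v := by
    intro u v h1 h2 h3 h4
    refine (hfc.mono ?_).intervalIntegrable
    intro x hx
    rw [Set.mem_uIcc] at hx
    rcases hx with hx | hx
    · exact ⟨h1.trans hx.1, hx.2.trans h4⟩
    · exact ⟨h3.trans hx.1, hx.2.trans h2⟩
  have h2 := intervalIntegral.integral_add_adjacent_intervals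
    (hii (1 / 8) A le_rfl (by norm_num) hA (by linarith only [hA']))
    (hii A B hA (by linarith only [hA']) (by linarith only [hB]) hB')
  have h3 := intervalIntegral.integral_add_adjacent_intervals
    (hii (1 / 8) B le_rfl (by norm_num) (by linarith only [hB]) hB')
    (hii B (3 / 8) (by linarith only [hB]) hB' (by norm_num) le_rfl)
  have h1 : (∫ u in (1 / 8 : ℝ)..(3 / 8), f u) - (∫ u in A..B, f u) =
      (∫ u in (1 / 8 : ℝ)..A, f u) + ∫ u in B..(3 / 8 : ℝ), f u := by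
    rw [← h3, ← h2]
    ring
  rw [h1]
  have h5 : ‖∫ u in (1 / 8 : ℝ)..A, f u‖ ≤ B₀ := by
    have h6 := intervalIntegral.norm_integral_le_of_norm_le_const (a := (1 / 8 : ℝ))
      (b := A) (C := B₀) (f := f) (by
        intro u hu
        rw [Set.uIoc_of_le hA] at hu
        exact hfb u hu.1.le (by linarith only [hu.2, hA', hu]) (by
          rw [abs_of_neg (by linarith only [hu.2, hA', hu])]
          linarith only [hu.2, hA', hu]))
    refine h6.trans ?_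
    rw [abs_of_nonneg (by linarith only [hA])]
    nlinarith only [hB₀, hA']
  have h6 : ‖∫ u in B..(3 / 8 : ℝ), f u‖ ≤ B₀ := by
    have h6 := intervalIntegral.norm_integral_le_of_norm_le_const (a := B)
      (b := (3 / 8 : ℝ)) (C := B₀) (f := f) (by
        intro u hu
        rw [Set.uIoc_of_le hB'] at hu
        exact hfb u (by linarith only [hu.1, hB, hu]) hu.2 (by
          rw [abs_of_pos (by linarith only [hu.1, hB, hu])]
          linarith only [hu.1, hB, hu]))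
    refine h6.trans ?_
    rw [abs_of_nonneg (by linarith only [hB'])]
    nlinarith only [hB₀, hB]
  refine (norm_add_le _ _).trans ?_
  linarith only [h5, h6]

theorem change_var {n : ℕ} (hn : 0 < n) (τ A B : ℝ) (ζ ζ' : ℂ) :
    (∫ x in A..B, (1 / (n : ℂ) ^ 2 * Complex.exp (Tn n (((x : ℂ) + ((τ * n : ℝ) : ℂ) *
      Complex.I) / n) ζ ζ'))) =
      1 / n * ∫ u in (A / n)..(B / n), Complex.exp (Tn n ((u : ℂ) + τ * Complex.I) ζ ζ') := by
  have hnR : (n : ℝ) ≠ 0 := by exact_mod_cast hn.ne'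
  have hnC : (n : ℂ) ≠ 0 := by exact_mod_cast hn.ne'
  have h1 : ∀ x : ℝ, ((x : ℂ) + ((τ * n : ℝ) : ℂ) * Complex.I) / n =
      ((x / n : ℝ) : ℂ) + τ * Complex.I := by
    intro x
    push_cast
    field_simp
  simp only [h1]
  rw [intervalIntegral.integral_const_mul,
    intervalIntegral.integral_comp_div (fun u : ℝ => Complex.exp (Tn n ((u : ℂ) + τ * Complex.I) ζ ζ'))
      hnR, Complex.real_smul]
  push_cast
  field_simp

/-- the sum over the window against the integral -/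
theorem near_window {n a b : ℕ} {κ τ B B' : ℝ} {ζ ζ' : ℂ} (hn64 : 64 ≤ n)
    (hκn : 1 ≤ κ * n) (hτ : |τ| ≤ κ) (hζre : |ζ.re| ≤ 1 / 16) (hζre' : |ζ'.re| ≤ 1 / 16)
    (ha1 : (n : ℝ) / 8 + 1 ≤ a) (ha2 : (a : ℝ) < n / 8 + 2) (hb1 : (b : ℝ) ≤ 3 * n / 8)
    (hb2 : 3 * (n : ℝ) / 8 - 1 < b)
    (hS : ∀ w : ℂ, 1 / 8 ≤ w.re → w.re ≤ 3 / 8 → 1 / 16 ≤ |w.re - 1 / 4| → |w.im| ≤ κ →
      ‖Complex.exp (Tn n w ζ ζ')‖ ≤ B)
    (hT : ∀ w : ℂ, 1 / 8 ≤ w.re → w.re ≤ 3 / 8 → |w.im| = κ → ‖Complex.exp (Tn n w ζ ζ')‖ ≤ B') :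
    ‖∑ k ∈ Ico a b, term n k ζ ζ' - MM n τ ζ ζ'‖ ≤
      8 * (κ * n) * (1 / (n : ℝ) ^ 2 * B) +
        4 * ((b : ℝ) - a) * Real.exp (-(2 * Real.pi * (κ * n))) * (1 / (n : ℝ) ^ 2 * B') +
        2 * B := by
  have hn64R : (64 : ℝ) ≤ n := by exact_mod_cast hn64
  have hnpos : (0 : ℝ) < n := by linarith only [hn64R]
  have hnpos' : 0 < n := by omega
  have hn8 : 8 ≤ n := by omega
  have hκ : 0 ≤ κ := (abs_nonneg τ).trans hτ
  have habR : (a : ℝ) ≤ b := by linarith only [ha2, hb2, hn64R]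
  have hab : a ≤ b := by exact_mod_cast habR
  have hbn : b ≤ n := by
    have : (b : ℝ) ≤ n := by linarith only [hb1, hn64R]
    exact_mod_cast this
  have hre : ∀ z : ℂ, (z / n).re = z.re / n := fun z => Complex.div_natCast_re z n
  have him : ∀ z : ℂ, (z / n).im = z.im / n := fun z => Complex.div_natCast_im z n
  have hx : ∀ x y : ℝ, ((x : ℂ) + y * Complex.I).re = x := fun x y => by simp
  have hy' : ∀ x y : ℝ, ((x : ℂ) + y * Complex.I).im = y := fun x y => by simp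
  have hB0 : 0 ≤ B := by
    have h1 := hS (((1 / 8 : ℝ) : ℂ) + (0 : ℝ) * Complex.I) (by rw [hx]) (by rw [hx]; norm_num)
      (by rw [hx, abs_of_neg (by norm_num)]; norm_num)
      (by rw [hy', abs_zero]; exact hκ)
    exact (norm_nonneg _).trans h1
  set g : ℂ → ℂ := fun z => 1 / (n : ℂ) ^ 2 * Complex.exp (Tn n (z / n) ζ ζ') with hg
  have hgd : DifferentiableOn ℂ g {z | (a : ℝ) - 1 ≤ z.re ∧ z.re ≤ b} := by
    intro z hz
    have h1 : 0 < (z / n).re := by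
      rw [hre]
      apply div_pos _ hnpos
      linarith only [hz.1, ha1, hn64R, hz]
    have h2 : (z / n).re < 3 / 8 + 1 / 32 := by
      rw [hre, div_lt_iff₀ hnpos]
      linarith only [hz.2, hb1, hn64R, hz]
    have h3 := Tn_differentiable hn8 h1 h2 hζre hζre'
    have h4 : DifferentiableAt ℂ (fun z : ℂ => Tn n (z / n) ζ ζ') z :=
      DifferentiableAt.comp (g := fun w => Tn n w ζ ζ') z h3 (by fun_prop)
    exact ((h4.cexp).const_mul _).differentiableWithinAt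
  have hn2 : ‖(1 / (n : ℂ) ^ 2 : ℂ)‖ = 1 / (n : ℝ) ^ 2 := by
    rw [norm_div, norm_one, norm_pow, Complex.norm_natCast]
  have hgn : ∀ z : ℂ, ‖g z‖ = 1 / (n : ℝ) ^ 2 * ‖Complex.exp (Tn n (z / n) ζ ζ')‖ := by
    intro z
    rw [hg]
    simp only
    rw [norm_mul, hn2]
  have hτ' := abs_le.mp hτ
  -- the sides
  have hside : ∀ x : ℝ, 1 / 8 ≤ x / n → x / n ≤ 3 / 8 → 1 / 16 ≤ |x / n - 1 / 4| → ∀ y : ℝ,
      |y| ≤ κ * n → ‖g ((x : ℂ) + y * Complex.I)‖ ≤ 1 / (n : ℝ) ^ 2 * B := by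
    intro x h1 h2 h3 y hy
    rw [hgn]
    refine mul_le_mul_of_nonneg_left (hS _ ?_ ?_ ?_ ?_) (by positivity)
    · rw [hre, hx]; exact h1
    · rw [hre, hx]; exact h2
    · rw [hre, hx]; exact h3
    · rw [him, hy', abs_div, abs_of_pos hnpos, div_le_iff₀ hnpos]
      exact hy
  have hA1 : 1 / 8 ≤ ((a : ℝ) - 1 / 2) / n := by
    rw [le_div_iff₀ hnpos]
    linarith only [ha1]
  have hA2 : ((a : ℝ) - 1 / 2) / n ≤ 3 / 16 := by
    rw [div_le_iff₀ hnpos]
    linarith only [ha2, hn64R]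
  have hB1 : 5 / 16 ≤ ((b : ℝ) - 1 / 2) / n := by
    rw [le_div_iff₀ hnpos]
    linarith only [hb2, hn64R]
  have hB2 : ((b : ℝ) - 1 / 2) / n ≤ 3 / 8 := by
    rw [div_le_iff₀ hnpos]
    linarith only [hb1]
  have hrect := sum_rect (g := g) hab (H := κ * n) (t := τ * n) hκn
    (by
      rw [abs_mul, abs_of_pos hnpos]
      exact mul_le_mul_of_nonneg_right hτ hnpos.le)
    hgd (B1 := 1 / (n : ℝ) ^ 2 * B)
    (B2 := 1 / (n : ℝ) ^ 2 * B')
    (by
      intro y hy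
      constructor
      · exact hside _ hA1 (by linarith only [hA2]) (by
          rw [abs_of_neg (by linarith only [hA2])]
          linarith only [hA2]) y hy
      · exact hside _ (by linarith only [hB1]) hB2 (by
          rw [abs_of_pos (by linarith only [hB1])]
          linarith only [hB1]) y hy)
    (by
      intro x h1 h2
      have h3 : 1 / 8 ≤ x / n := by
        refine hA1.trans ?_
        gcongr
      have h4 : x / n ≤ 3 / 8 := by
        refine le_trans ?_ hB2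
        gcongr
      have hcom : ∀ y : ℝ, |y| = κ * n → ‖g ((x : ℂ) + y * Complex.I)‖ ≤
          1 / (n : ℝ) ^ 2 * B' := by
        intro y hy
        rw [hgn]
        refine mul_le_mul_of_nonneg_left (hT _ ?_ ?_ ?_) (by positivity)
        · rw [hre, hx]; exact h3
        · rw [hre, hx]; exact h4
        · rw [him, hy', abs_div, abs_of_pos hnpos, hy, mul_div_assoc, div_self hnpos.ne', mul_one]
      have hκnn : 0 ≤ κ * n := by positivity
      constructor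
      · have := hcom (κ * n) (abs_of_nonneg hκnn)
        simpa using this
      · have := hcom (-(κ * n)) (by rw [abs_neg, abs_of_nonneg hκnn])
        have e : (x : ℂ) + ((-(κ * n) : ℝ) : ℂ) * Complex.I = x - ((κ * n : ℝ) : ℂ) * Complex.I := by
          push_cast
          ring
        rw [e] at this
        exact this)
  -- the sum over the window
  have hsum : ∑ k ∈ Ico a b, term n k ζ ζ' = ∑ k ∈ Ico a b, g k := by
    refine Finset.sum_congr rfl fun k hk => ?_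
    rw [Finset.mem_Ico] at hk
    have hkn : k < n := by omega
    have hk3 : (k : ℝ) / n ≤ 3 / 8 := by
      rw [div_le_iff₀ hnpos]
      have : (k : ℝ) ≤ b := by exact_mod_cast hk.2.le
      linarith only [hb1, this]
    rw [term_eq hnpos' hkn (by linarith only [hζre, hk3]) (by linarith only [hζre', hk3])]
  have hint : (∫ x in ((a : ℝ) - 1 / 2)..((b : ℝ) - 1 / 2),
      g ((x : ℂ) + ((τ * n : ℝ) : ℂ) * Complex.I)) =
      1 / n * ∫ u in (((a : ℝ) - 1 / 2) / n)..(((b : ℝ) - 1 / 2) / n),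
        Complex.exp (Tn n ((u : ℂ) + τ * Complex.I) ζ ζ') :=
    change_var hnpos' τ _ _ ζ ζ'
  have hfc : ContinuousOn (fun u : ℝ => Complex.exp (Tn n ((u : ℂ) + τ * Complex.I) ζ ζ'))
      (Set.Icc (1 / 8) (3 / 8)) := by
    intro u hu
    have h1 := Tn_differentiable (w := (u : ℂ) + τ * Complex.I) hn8
      (by rw [hx]; linarith only [hu.1, hu]) (by rw [hx]; linarith only [hu.2, hu]) hζre hζre'
    have h2 : ContinuousAt (fun u : ℝ => Tn n ((u : ℂ) + τ * Complex.I) ζ ζ') u :=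
      ContinuousAt.comp (g := fun w => Tn n w ζ ζ') (f := fun u : ℝ => (u : ℂ) + τ * Complex.I)
        h1.continuousAt (by fun_prop)
    exact h2.cexp.continuousWithinAt
  have hends : ‖MM n τ ζ ζ' - 1 / n *
      ∫ u in (((a : ℝ) - 1 / 2) / n)..(((b : ℝ) - 1 / 2) / n),
        Complex.exp (Tn n ((u : ℂ) + τ * Complex.I) ζ ζ')‖ ≤ 2 * B := by
    unfold MM
    rw [← mul_sub, norm_mul]
    have h4 : ‖(1 / (n : ℂ))‖ ≤ 1 := by
      rw [norm_div, norm_one, Complex.norm_natCast, div_le_one hnpos]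
      linarith only [hn64R]
    have h7 := end_int hfc hA1 hA2 hB1 hB2 hB0 (by
      intro u h1 h2 h3
      exact hS _ (by rw [hx]; exact h1) (by rw [hx]; exact h2) (by rw [hx]; exact h3)
        (by rw [hy']; exact hτ))
    calc _ ≤ 1 * (2 * B) := mul_le_mul h4 h7 (norm_nonneg _) zero_le_one
      _ = 2 * B := one_mul _
  rw [hint] at hrect
  rw [hsum]
  have h1 : ∑ k ∈ Ico a b, g k - MM n τ ζ ζ' = (∑ k ∈ Ico a b, g k -
      1 / n * ∫ u in (((a : ℝ) - 1 / 2) / n)..(((b : ℝ) - 1 / 2) / n),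
        Complex.exp (Tn n ((u : ℂ) + τ * Complex.I) ζ ζ')) -
      (MM n τ ζ ζ' - 1 / n * ∫ u in (((a : ℝ) - 1 / 2) / n)..(((b : ℝ) - 1 / 2) / n),
        Complex.exp (Tn n ((u : ℂ) + τ * Complex.I) ζ ζ')) := by
    ring
  rw [h1]
  exact (norm_sub_le _ _).trans (add_le_add hrect hends)

/-- near the maximum the kernel is the integral `MM`, up to an exponentially smaller error -/
theorem SS_near : ∃ κ δ c C : ℝ, ∃ N : ℕ, 0 < κ ∧ 0 < δ ∧ δ ≤ 1 / 16 ∧ 0 < c ∧ 0 ≤ C ∧ 8 ≤ N ∧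
    ∀ n : ℕ, N ≤ n → ∀ τ : ℝ, |τ| ≤ κ → ∀ ζ ζ' : ℂ, ‖ζ‖ ≤ δ → ‖ζ'‖ ≤ δ →
    ‖SS n ζ ζ' - MM n τ ζ ζ'‖ ≤ C * Real.exp (n * (ts - c)) := by
  obtain ⟨κ₀, hκ₀, htop⟩ := tp_top
  obtain ⟨ε₁, c₁, hε₁, hε₁', hc₁, hmid⟩ := tp_mid (δ := 1 / 16) (by norm_num)
  obtain ⟨ε₂, c₂, hε₂, hε₂', hc₂, htop⟩ := htop (min κ₀ ε₁) (lt_min hκ₀ hε₁) (min_le_left _ _)
  obtain ⟨ε₃, c₃, C₃, hε₃, hc₃, hC₃, hfar⟩ := term_far (δ := 1 / 16) (by norm_num)
  obtain ⟨K, hK, hexp⟩ := exp_Tn_le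
  set κ : ℝ := min κ₀ ε₁ with hκdef
  have hκ : 0 < κ := lt_min hκ₀ hε₁
  have hκε : κ ≤ ε₁ := min_le_right _ _
  set δ : ℝ := min ε₁ (min ε₂ ε₃) with hδdef
  have hδ : 0 < δ := lt_min hε₁ (lt_min hε₂ hε₃)
  have hδ1 : δ ≤ ε₁ := min_le_left _ _
  have hδ2 : δ ≤ ε₂ := (min_le_right _ _).trans (min_le_left _ _)
  have hδ3 : δ ≤ ε₃ := (min_le_right _ _).trans (min_le_right _ _)
  set c : ℝ := min c₁ (min c₂ c₃) with hcdef
  have hc : 0 < c := lt_min hc₁ (lt_min hc₂ hc₃)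
  have hcc1 : c ≤ c₁ := min_le_left _ _
  have hcc2 : c ≤ c₂ := (min_le_right _ _).trans (min_le_left _ _)
  have hcc3 : c ≤ c₃ := (min_le_right _ _).trans (min_le_right _ _)
  clear_value κ δ c
  obtain ⟨N₀, hN₀⟩ := exists_nat_gt (1 / κ)
  refine ⟨κ, δ, c / 2, (C₃ + (8 * κ * K + 4 * K) + 2 * K) * (2 / c), max N₀ 64, hκ, hδ,
    hδ1.trans hε₁', by positivity, by positivity, by
      have := le_max_right N₀ 64
      omega, ?_⟩
  intro n hn τ hτ ζ ζ' hζ hζ'
  have hn64 : 64 ≤ n := (le_max_right _ _).trans hn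
  have hn64R : (64 : ℝ) ≤ n := by exact_mod_cast hn64
  have hnpos : (0 : ℝ) < n := by linarith only [hε₁, hε₁', hn64R]
  have hnpos' : 0 < n := by omega
  have hn8 : 8 ≤ n := by omega
  have hκn : 1 ≤ κ * n := by
    have h1 : (N₀ : ℝ) ≤ n := by exact_mod_cast (le_max_left N₀ 64).trans hn
    have h2 : 1 / κ < n := hN₀.trans_le h1
    rw [div_lt_iff₀ hκ] at h2
    linarith only [h2]
  have hζre : |ζ.re| ≤ 1 / 16 := (Complex.abs_re_le_norm ζ).trans (hζ.trans (hδ1.trans hε₁'))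
  have hζre' : |ζ'.re| ≤ 1 / 16 := (Complex.abs_re_le_norm ζ').trans (hζ'.trans (hδ1.trans hε₁'))
  set E : ℝ := Real.exp (n * (ts - c)) with hE
  have hEpos : 0 < E := Real.exp_pos _
  have hexpE : ∀ {u v : ℝ}, c ≤ v → u ≤ ts - v → Real.exp (n * u) ≤ E := by
    intro u v hv hu
    apply Real.exp_le_exp.mpr
    exact mul_le_mul_of_nonneg_left (by linarith only [hv, hu]) hnpos.le
  -- the window
  set a : ℕ := ⌈(n : ℝ) / 8⌉₊ + 1 with ha
  set b : ℕ := ⌊3 * (n : ℝ) / 8⌋₊ with hb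
  have ha1 : (n : ℝ) / 8 + 1 ≤ a := by
    have := Nat.le_ceil ((n : ℝ) / 8)
    rw [ha]
    push_cast
    linarith only [this]
  have ha2 : (a : ℝ) < n / 8 + 2 := by
    have := Nat.ceil_lt_add_one (a := (n : ℝ) / 8) (by positivity)
    rw [ha]
    push_cast
    linarith only [this]
  have hb1 : (b : ℝ) ≤ 3 * n / 8 := Nat.floor_le (by positivity)
  have hb2 : 3 * (n : ℝ) / 8 - 1 < b := by
    have := Nat.lt_floor_add_one (3 * (n : ℝ) / 8)
    linarith only [this]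
  clear_value a b
  have hbn : b ≤ n := by
    have : (b : ℝ) ≤ n := by linarith only [hε₁, hε₁', hn64R, hb1]
    exact_mod_cast this
  have hwin := near_window (B := K * E) (B' := K * Real.exp (n * (ts - c + 2 * Real.pi * κ)))
    hn64 hκn hτ hζre hζre' ha1 ha2 hb1 hb2
    (by
      intro w h1 h2 h3 h4
      refine (hexp n hn8 w ζ ζ' h1 h2 hζre hζre').trans ?_
      have h5 := hmid w ζ ζ' h1 h2 h3 (h4.trans hκε) (hζ.trans hδ1) (hζ'.trans hδ1)
      exact mul_le_mul_of_nonneg_left (hexpE hcc1 h5) hK)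
    (by
      intro w h1 h2 h3
      refine (hexp n hn8 w ζ ζ' h1 h2 hζre hζre').trans ?_
      have h6 := htop w ζ ζ' h1 h2 h3 (hζ.trans hδ2) (hζ'.trans hδ2)
      refine mul_le_mul_of_nonneg_left ?_ hK
      apply Real.exp_le_exp.mpr
      exact mul_le_mul_of_nonneg_left (by linarith only [hcc2, h6]) hnpos.le)
  -- the other terms
  have hfarsum : ‖SS n ζ ζ' - ∑ k ∈ Ico a b, term n k ζ ζ'‖ ≤ n * (C₃ * E) := by
    refine far_sum hbn (by positivity) ?_
    intro k hkn hk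
    have h3 := hfar n k hnpos' hkn ζ ζ' (by linarith only [hε₁, hε₁', hζre]) (by linarith only [hε₁, hε₁', hζre'])
      ((Complex.abs_im_le_norm ζ).trans (hζ.trans hδ3))
      ((Complex.abs_im_le_norm ζ').trans (hζ'.trans hδ3)) (Or.inl (by
        rcases hk with h | h
        · have h4 : (k : ℝ) + 1 ≤ a := by exact_mod_cast h
          have h5 : (k : ℝ) / n ≤ 3 / 16 := by
            rw [div_le_iff₀ hnpos]
            linarith only [hε₁, hε₁', hn64R, ha2, h4]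
          rw [abs_of_neg (by linarith only [hε₁, hε₁', h5])]
          linarith only [h5]
        · have h4 : (b : ℝ) ≤ k := by exact_mod_cast h
          have h5 : 5 / 16 ≤ (k : ℝ) / n := by
            rw [le_div_iff₀ hnpos]
            linarith only [hε₁, hε₁', hn64R, hb2, h4]
          rw [abs_of_pos (by linarith only [hε₁, hε₁', h5])]
          linarith only [h5]))
    exact h3.trans (mul_le_mul_of_nonneg_left (hexpE hcc3 le_rfl) hC₃)
  have hnum : 8 * (κ * n) * (1 / (n : ℝ) ^ 2 * (K * E)) +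
      4 * ((b : ℝ) - a) * Real.exp (-(2 * Real.pi * (κ * n))) *
        (1 / (n : ℝ) ^ 2 * (K * Real.exp (n * (ts - c + 2 * Real.pi * κ)))) ≤
      (8 * κ * K + 4 * K) * E := by
    refine near_num (by linarith only [hε₁, hε₁', hn64R]) hκ.le hK hEpos.le ?_ (Nat.cast_nonneg a)
      (by exact_mod_cast hbn)
    rw [hE, ← Real.exp_add]
    congr 1
    ring
  have htot : ‖SS n ζ ζ' - MM n τ ζ ζ'‖ ≤ n * ((C₃ + (8 * κ * K + 4 * K) + 2 * K) * E) := by
    have h1 : SS n ζ ζ' - MM n τ ζ ζ' = (SS n ζ ζ' - ∑ k ∈ Ico a b, term n k ζ ζ') +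
        (∑ k ∈ Ico a b, term n k ζ ζ' - MM n τ ζ ζ') := by
      ring
    rw [h1]
    refine (norm_add_le _ _).trans ((add_le_add hfarsum (hwin.trans
      (add_le_add hnum le_rfl))).trans ?_)
    have h4 : (1 : ℝ) ≤ n := by linarith only [hε₁, hε₁', hn64R]
    have h5 : 0 ≤ (8 * κ * K + 4 * K) * E + 2 * (K * E) := by positivity
    nlinarith only [h5, hε₁, hε₁', hn64R]
  refine htot.trans ?_
  have h1 := absorb hc n ts
  have h2 : 0 ≤ C₃ + (8 * κ * K + 4 * K) + 2 * K := by positivity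
  calc (n : ℝ) * ((C₃ + (8 * κ * K + 4 * K) + 2 * K) * E)
      = (C₃ + (8 * κ * K + 4 * K) + 2 * K) * (n * E) := by ring
    _ ≤ (C₃ + (8 * κ * K + 4 * K) + 2 * K) * (2 / c * Real.exp (n * (ts - c / 2))) :=
        mul_le_mul_of_nonneg_left h1 h2
    _ = _ := by ring

end Pool.Agent.Work.MP_b30479_gtS.LT

end

section

/-!
# Gaussian domination of the weights
-/

namespace Pool.Agent.Work.MP_b30479_gtS.LT

open Finset VOL AX MeasureTheory

lemma th_nonneg {σ : ℝ} (h : |σ| ≤ 1 / 2) : 0 ≤ th σ := by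
  unfold th
  refine le_min zero_le_one ?_
  linarith only [h]

lemma th_le_one (σ : ℝ) : th σ ≤ 1 := min_le_left _ _

lemma th_eq_one {σ : ℝ} (h : |σ| ≤ 1 / 4) : th σ = 1 := by
  unfold th
  exact min_eq_left (by linarith only [h])

lemma zt_re (ρ σ : ℝ) : (zt ρ σ).re = σ := by
  simp [zt]

lemma zt_im (ρ σ : ℝ) : (zt ρ σ).im = ρ * th σ := by
  simp [zt]

lemma zt_mid {ρ σ : ℝ} (h : |σ| ≤ 1 / 4) : zt ρ σ = (σ : ℂ) + (ρ : ℂ) * Complex.I := by
  simp [zt, th_eq_one h]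

lemma norm_dzt_le {ρ : ℝ} (h : 0 ≤ ρ) (σ : ℝ) : ‖dzt ρ σ‖ ≤ 1 + 4 * ρ := by
  unfold dzt
  refine (norm_add_le _ _).trans ?_
  rw [norm_one, norm_mul, Complex.norm_I, mul_one, Complex.norm_real, norm_mul,
    Real.norm_of_nonneg h, mul_comm 4 ρ]
  gcongr
  split_ifs <;> norm_num

/-- `|sin (x + iy)|² = sin² x + sinh² y` -/
lemma norm_sin_sq (z : ℂ) : ‖Complex.sin z‖ ^ 2 = Real.sin z.re ^ 2 + Real.sinh z.im ^ 2 := by
  have e : z = (z.re : ℂ) + (z.im : ℂ) * Complex.I := (Complex.re_add_im z).symm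
  rw [Complex.sq_norm, Complex.normSq_apply]
  conv_lhs => rw [e]
  rw [Complex.sin_add_mul_I, ← Complex.ofReal_sin, ← Complex.ofReal_cosh,
    ← Complex.ofReal_cos, ← Complex.ofReal_sinh]
  simp only [Complex.add_re, Complex.add_im, Complex.mul_re, Complex.mul_im, Complex.ofReal_re,
    Complex.ofReal_im, Complex.I_re, Complex.I_im]
  have c1 := Real.sin_sq_add_cos_sq z.re
  have c2 := Real.cosh_sq z.im
  have hb : Real.cos z.re ^ 2 = 1 - Real.sin z.re ^ 2 := by linarith only [c1]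
  ring_nf
  rw [hb, c2]
  ring

lemma norm_sin_le (z : ℂ) : ‖Complex.sin z‖ ≤ Real.cosh z.im := by
  apply le_of_sq_le_sq _ (Real.cosh_pos _).le
  rw [norm_sin_sq, Real.cosh_sq]
  have := Real.sin_sq_le_one z.re
  linarith only [this]

lemma sinh_exp_lower {a x : ℝ} (hx : a ≤ x) :
    (1 - Real.exp (-(2 * a))) / 2 * Real.exp x ≤ Real.sinh x := by
  rw [Real.sinh_eq]
  have h1 : Real.exp (-x) = Real.exp (-(2 * x)) * Real.exp x := by
    rw [← Real.exp_add]; congr 1; ring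
  have h2 : Real.exp (-(2 * x)) ≤ Real.exp (-(2 * a)) := Real.exp_le_exp.mpr (by linarith only [hx])
  rw [h1]
  have := Real.exp_pos x
  nlinarith only [h2, this]

/-- lower bound for the denominator in the whole range -/
lemma sin_lower_all {n : ℕ} (hn : Odd n) {ρ σ : ℝ} (hρ : 0 < ρ) (hσ : |σ| ≤ 1 / 2) :
    min (1 / 2) ((Real.pi * ρ) ^ 2) ≤ ‖Complex.sin (Real.pi * n * zt ρ σ)‖ ^ 2 := by
  have hpi := Real.pi_pos
  have hn1 : (1 : ℝ) ≤ n := by
    have := hn.pos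
    exact_mod_cast this
  have e : (Real.pi : ℂ) * n * zt ρ σ = ((Real.pi * n : ℝ) : ℂ) * zt ρ σ := by push_cast; ring
  rw [norm_sin_sq, e, Complex.re_ofReal_mul, Complex.im_ofReal_mul, zt_re, zt_im]
  -- `x = n (1/2 - |σ|)`
  by_cases hx : (n : ℝ) * (1 / 2 - |σ|) ≤ 1 / 4
  · -- the cosine is large
    have h1 : Real.sin (Real.pi * n * σ) ^ 2 =
        Real.cos (Real.pi * (n * (1 / 2 - |σ|))) ^ 2 := by
      have h2 : Real.sin (Real.pi * n * σ) ^ 2 = Real.sin (Real.pi * n * |σ|) ^ 2 := by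
        rcases abs_cases σ with h | h
        · rw [h.1]
        · rw [h.1, mul_neg, Real.sin_neg, neg_sq]
      obtain ⟨k, hk⟩ := hn
      have h3 : Real.pi * n * |σ| = Real.pi / 2 - Real.pi * (n * (1 / 2 - |σ|)) + k * Real.pi := by
        have : (n : ℝ) = 2 * k + 1 := by rw [hk]; push_cast; ring
        rw [this]
        ring
      rw [h2, h3, Real.sin_add_nat_mul_pi, mul_pow, Real.sin_pi_div_two_sub]
      have : ((-1 : ℝ) ^ k) ^ 2 = 1 := by
        rw [← pow_mul, mul_comm, pow_mul]; simp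
      rw [this, one_mul]
    have h4 : 0 ≤ (n : ℝ) * (1 / 2 - |σ|) := by
      apply mul_nonneg (by linarith only [hn1])
      linarith only [hσ]
    have h5 : 1 / 2 ≤ Real.cos (Real.pi * (n * (1 / 2 - |σ|))) ^ 2 := by
      have h6 : Real.cos (Real.pi / 4) ≤ Real.cos (Real.pi * (n * (1 / 2 - |σ|))) := by
        apply Real.cos_le_cos_of_nonneg_of_le_pi
        · positivity
        · linarith only [hpi]
        · nlinarith only [hpi, hx]
      rw [Real.cos_pi_div_four] at h6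
      have h7 : (√2 / 2) ^ 2 = 1 / 2 := by
        rw [div_pow, Real.sq_sqrt (by norm_num)]; norm_num
      exact h7.symm.le.trans (pow_le_pow_left₀ (by positivity) h6 2)
    rw [h1]
    refine (min_le_left _ _).trans ?_
    have := sq_nonneg (Real.sinh (Real.pi * n * (ρ * th σ)))
    linarith only [h5, this]
  · push Not at hx
    have h1 : 1 ≤ (n : ℝ) * th σ := by
      unfold th
      rcases le_total (1 : ℝ) (2 - 4 * |σ|) with h | h
      · rw [min_eq_left h]; linarith only [hn1]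
      · rw [min_eq_right h]; linarith only [hx]
    have h2 : Real.pi * ρ ≤ Real.pi * n * (ρ * th σ) := by
      have : Real.pi * n * (ρ * th σ) = (Real.pi * ρ) * (n * th σ) := by ring
      rw [this]
      exact le_mul_of_one_le_right (by positivity) h1
    have h3 : Real.pi * ρ ≤ Real.sinh (Real.pi * n * (ρ * th σ)) := by
      refine h2.trans ?_
      exact Real.self_le_sinh_iff.mpr (le_trans (by positivity) h2)
    have h4 : (Real.pi * ρ) ^ 2 ≤ Real.sinh (Real.pi * n * (ρ * th σ)) ^ 2 :=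
      pow_le_pow_left₀ (by positivity) h3 2
    refine (min_le_right _ _).trans ?_
    have := sq_nonneg (Real.sin (Real.pi * n * σ))
    linarith only [h4, this]

lemma norm_exp_weight (n : ℕ) (b : ℤ) (ρ σ : ℝ) :
    ‖Complex.exp (Real.pi * Complex.I * b * n * zt ρ σ ^ 2)‖ =
      Real.exp (n * (-(2 * Real.pi * b * ρ * σ * th σ))) := by
  rw [Complex.norm_exp]
  congr 1
  have e : (Real.pi : ℂ) * Complex.I * b * n * zt ρ σ ^ 2 =
      ((Real.pi * b * n : ℝ) : ℂ) * (Complex.I * zt ρ σ ^ 2) := by push_cast; ring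
  rw [e, Complex.re_ofReal_mul, Complex.mul_re, Complex.I_re, Complex.I_im, sq, Complex.mul_im,
    zt_re, zt_im]
  ring

/-- domination of the weight -/
theorem EE_bound {c : ℝ} (hc : 0 < c) : ∃ η ε : ℝ, 0 < η ∧ 0 < ε ∧ ∀ (b : ℤ) (ζ : ℂ), 0 < ζ.im →
    ‖ζ‖ ≤ η → |(b : ℝ) * ζ.im| ≤ ε → ∃ (C : ℝ) (N : ℕ), 0 ≤ C ∧ ∀ n : ℕ, N ≤ n → Odd n → ∀ σ : ℝ,
    |σ| ≤ 1 / 2 → ‖EE n b ζ.im σ‖ ≤ C * Real.exp (n * (-(2 * Real.pi * ζ.im * (1 + b * σ)) +
      c * (σ - ζ.re) ^ 2)) := by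
  have hpi := Real.pi_pos
  have hpi4 : Real.pi < 4 := Real.pi_lt_four
  refine ⟨min (1 / 8) (c / 1024), c / 1024, by positivity, by positivity, ?_⟩
  intro b ζ hζ hη hb
  set ρ := ζ.im with hρ
  have hη1 : ‖ζ‖ ≤ 1 / 8 := hη.trans (min_le_left _ _)
  have hη2 : ‖ζ‖ ≤ c / 1024 := hη.trans (min_le_right _ _)
  have hρ1 : ρ ≤ ‖ζ‖ := (le_abs_self _).trans (Complex.abs_im_le_norm ζ)
  have hre : |ζ.re| ≤ 1 / 8 := (Complex.abs_re_le_norm ζ).trans hη1
  set q := min (1 / 2) ((Real.pi * ρ) ^ 2) with hq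
  have hq0 : 0 < q := by positivity
  set u := (1 - Real.exp (-(2 * (Real.pi * ρ)))) / 2 with hu
  have hu0 : 0 < u := by
    rw [hu]
    have : Real.exp (-(2 * (Real.pi * ρ))) < 1 := by
      rw [Real.exp_lt_one_iff]
      have : 0 < Real.pi * ρ := by positivity
      linarith only [this]
    linarith only [this]
  set K := Real.cosh (2 * Real.pi * ρ) * (1 + 4 * ρ) with hK
  have hK0 : 0 ≤ K := by positivity
  refine ⟨K * (1 / q + 1 / u ^ 2), 1, by positivity, ?_⟩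
  intro n hn hodd σ hσ
  have hn1 : (1 : ℝ) ≤ n := by exact_mod_cast hn
  have hth0 := th_nonneg hσ
  have hth1 := th_le_one σ
  -- the numerator
  have h1 : ‖Complex.sin (2 * Real.pi * zt ρ σ)‖ ≤ Real.cosh (2 * Real.pi * ρ) := by
    refine (norm_sin_le _).trans ?_
    have e : (2 : ℂ) * Real.pi * zt ρ σ = ((2 * Real.pi : ℝ) : ℂ) * zt ρ σ := by push_cast; ring
    rw [e, Complex.im_ofReal_mul, zt_im, Real.cosh_le_cosh, abs_of_nonneg (by positivity),
      abs_of_nonneg (by positivity)]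
    have : ρ * th σ ≤ ρ * 1 := mul_le_mul_of_nonneg_left hth1 hζ.le
    nlinarith only [hpi, this]
  have h2 := norm_dzt_le hζ.le σ
  have h3 : ‖EE n b ρ σ‖ = Real.exp (n * (-(2 * Real.pi * b * ρ * σ * th σ))) *
      ‖Complex.sin (2 * Real.pi * zt ρ σ)‖ / ‖Complex.sin (Real.pi * n * zt ρ σ)‖ ^ 2 *
      ‖dzt ρ σ‖ := by
    unfold EE
    rw [norm_mul, norm_div, norm_mul, norm_pow, norm_exp_weight]
  have hmain : ∀ R E : ℝ, 0 ≤ R → (‖Complex.sin (Real.pi * n * zt ρ σ)‖ ^ 2)⁻¹ ≤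
      R * Real.exp (n * E) →
      -(2 * Real.pi * b * ρ * σ * th σ) + E ≤ -(2 * Real.pi * ρ * (1 + b * σ)) +
        c * (σ - ζ.re) ^ 2 → ‖EE n b ρ σ‖ ≤ K * R * Real.exp (n * (-(2 * Real.pi * ρ * (1 + b * σ)) +
        c * (σ - ζ.re) ^ 2)) := by
    intro R E hR hden hexp
    rw [h3, div_eq_mul_inv]
    calc _ ≤ Real.exp (n * (-(2 * Real.pi * b * ρ * σ * th σ))) *
          Real.cosh (2 * Real.pi * ρ) * (R * Real.exp (n * E)) * (1 + 4 * ρ) := by gcongr
      _ = K * R * (Real.exp (n * (-(2 * Real.pi * b * ρ * σ * th σ))) * Real.exp (n * E)) := by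
          rw [hK]; ring
      _ = K * R * Real.exp (n * (-(2 * Real.pi * b * ρ * σ * th σ) + E)) := by
          rw [← Real.exp_add]; congr 2; ring
      _ ≤ _ := by gcongr
  by_cases hs : |σ| ≤ 1 / 4
  · -- the middle part
    have hth := th_eq_one hs
    have hden : (‖Complex.sin (Real.pi * n * zt ρ σ)‖ ^ 2)⁻¹ ≤
        1 / u ^ 2 * Real.exp (n * (-(2 * Real.pi * ρ))) := by
      have h4 : u ^ 2 * Real.exp (n * (2 * Real.pi * ρ)) ≤
          ‖Complex.sin (Real.pi * n * zt ρ σ)‖ ^ 2 := by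
        have e : (Real.pi : ℂ) * n * zt ρ σ = ((Real.pi * n : ℝ) : ℂ) * zt ρ σ := by
          push_cast; ring
        rw [norm_sin_sq, e, Complex.im_ofReal_mul, zt_im, hth, mul_one]
        have h5 : Real.pi * ρ ≤ Real.pi * n * ρ := by
          have : Real.pi * n * ρ = Real.pi * ρ * n := by ring
          rw [this]
          exact le_mul_of_one_le_right (by positivity) hn1
        have h6 := sinh_exp_lower h5
        have h7 : (u * Real.exp (Real.pi * n * ρ)) ^ 2 ≤ Real.sinh (Real.pi * n * ρ) ^ 2 :=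
          pow_le_pow_left₀ (by positivity) h6 2
        have h8 : (u * Real.exp (Real.pi * n * ρ)) ^ 2 =
            u ^ 2 * Real.exp (n * (2 * Real.pi * ρ)) := by
          rw [mul_pow, ← Real.exp_nat_mul]
          congr 2
          push_cast
          ring
        rw [← h8]
        refine h7.trans ?_
        have := sq_nonneg (Real.sin (((Real.pi * n : ℝ) : ℂ) * zt ρ σ).re)
        linarith only [this]
      have h9 : (0 : ℝ) < u ^ 2 * Real.exp (n * (2 * Real.pi * ρ)) := by positivity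
      refine (inv_anti₀ h9 h4).trans (le_of_eq ?_)
      rw [mul_inv, ← Real.exp_neg, one_div]
      congr 2
      ring
    have h10 := hmain (1 / u ^ 2) (-(2 * Real.pi * ρ)) (by positivity) hden (by
      rw [hth]
      have : 0 ≤ c * (σ - ζ.re) ^ 2 := by positivity
      nlinarith only [this])
    refine h10.trans ?_
    gcongr
    have : 0 ≤ 1 / q := by positivity
    linarith only [this]
  · push Not at hs
    have hden : (‖Complex.sin (Real.pi * n * zt ρ σ)‖ ^ 2)⁻¹ ≤ 1 / q * Real.exp (n * 0) := by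
      rw [mul_zero, Real.exp_zero, mul_one, one_div]
      exact inv_anti₀ hq0 (sin_lower_all hodd hζ hσ)
    have h10 := hmain (1 / q) 0 (by positivity) hden (by
      have h11 : 1 / 64 ≤ (σ - ζ.re) ^ 2 := by
        have h12 : 1 / 8 ≤ |σ - ζ.re| := by
          have := abs_sub_abs_le_abs_sub σ ζ.re
          linarith only [hre, hs, this]
        rw [← sq_abs]
        nlinarith only [h12]
      have h13 : c / 64 ≤ c * (σ - ζ.re) ^ 2 := by
        have := mul_le_mul_of_nonneg_left h11 hc.le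
        linarith only [this]
      -- bound of `b ρ σ`
      have h14 : |(b : ℝ) * ρ * σ| ≤ c / 1024 * (1 / 2) := by
        rw [abs_mul]
        gcongr
      have h15 := abs_le.mp h14
      have h16 : |(b : ℝ) * ρ * σ * th σ| ≤ c / 1024 * (1 / 2) * 1 := by
        rw [abs_mul, abs_of_nonneg hth0]
        gcongr
      have h17 := abs_le.mp h16
      have h18 : ρ ≤ c / 1024 := hρ1.trans hη2
      have e1 : 2 * Real.pi * b * ρ * σ * th σ = 2 * Real.pi * (b * ρ * σ * th σ) := by ring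
      have e2 : 2 * Real.pi * ρ * (1 + b * σ) = 2 * Real.pi * (ρ + b * ρ * σ) := by ring
      rw [e1, e2]
      have h19 : 2 * Real.pi * (ρ + b * ρ * σ - b * ρ * σ * th σ) ≤ c / 64 := by
        have h20 : ρ + b * ρ * σ - b * ρ * σ * th σ ≤ c / 512 := by linarith only [hη2, hρ1, h15, h17]
        have h21 : 2 * Real.pi * (ρ + b * ρ * σ - b * ρ * σ * th σ) ≤ 2 * Real.pi * (c / 512) :=
          mul_le_mul_of_nonneg_left h20 (by positivity)
        nlinarith only [h21, hc, hpi4]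
      linarith only [h13, h19])
    refine h10.trans ?_
    gcongr
    have : 0 ≤ 1 / u ^ 2 := by positivity
    linarith only [this]

end Pool.Agent.Work.MP_b30479_gtS.LT

end

section

/-!
# Gaussian domination of the kernel and of the weights, at a critical point near the centre

`EE_bound` is in `BlkE`.
-/

namespace Pool.Agent.Work.MP_b30479_gtS.LT

open Finset VOL AX MeasureTheory

lemma exp_ph_bound {z : ℂ} (h0 : 1 / 8 ≤ z.re) (h1 : z.re ≤ 3 / 8) :
    Real.exp (-(2 * (ph z).re)) ≤ 1 / (2 * Real.sin (Real.pi / 8)) ^ 2 := by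
  have hpi := Real.pi_pos
  have hz : z ∈ strip := ⟨by linarith only [h0], by linarith only [h1]⟩
  have hs8 : 0 < Real.sin (Real.pi / 8) := by
    apply Real.sin_pos_of_pos_of_lt_pi <;> linarith only [hpi]
  have h2 : Real.sin (Real.pi / 8) ≤ Real.sin (Real.pi * z.re) := by
    apply Real.sin_le_sin_of_le_of_le_pi_div_two <;> nlinarith only [hpi, h1, h0]
  have h3 : Real.sin (Real.pi * z.re) ≤ ‖Complex.sin (Real.pi * z)‖ := by
    refine le_trans ?_ ((le_abs_self _).trans (Complex.abs_re_le_norm _))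
    rw [sin_pi_re]
    exact le_mul_of_one_le_right (hs8.le.trans h2) (Real.one_le_cosh _)
  have h4 : 2 * Real.sin (Real.pi / 8) ≤ Real.exp (ph z).re := by
    rw [← Complex.norm_exp, exp_ph hz, norm_mul, Complex.norm_ofNat]
    linarith only [h2, h3]
  have h5 : Real.exp (-(2 * (ph z).re)) = (Real.exp (ph z).re ^ 2)⁻¹ := by
    rw [Real.exp_neg, ← Real.exp_nat_mul]
    push_cast
    rfl
  rw [h5, one_div]
  exact inv_anti₀ (by positivity) (pow_le_pow_left₀ (by positivity) h4 2)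

lemma Tn_norm_bound : ∃ K : ℝ, 0 ≤ K ∧ ∀ n : ℕ, 8 ≤ n → ∀ w ζ ζ' : ℂ, 1 / 8 ≤ w.re → w.re ≤ 3 / 8 →
    |ζ.re| ≤ 1 / 16 → |ζ'.re| ≤ 1 / 16 →
    ‖Complex.exp (Tn n w ζ ζ')‖ ≤ K * Real.exp (n * (tp w ζ ζ').re) := by
  obtain ⟨C, hC, h⟩ := Tn_expand
  refine ⟨Real.exp C * (1 / (2 * Real.sin (Real.pi / 8)) ^ 2), by positivity, ?_⟩
  intro n hn w ζ ζ' h0 h1 h2 h3
  have h4 := h n hn w ζ ζ' h0 h1 h2 h3
  have hn1 : (1 : ℝ) ≤ n := by
    have : (8 : ℝ) ≤ n := by exact_mod_cast hn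
    linarith only [this]
  have h5 : C / n ≤ C := div_le_self hC hn1
  have h6 := (Complex.re_le_norm (Tn n w ζ ζ' - (n * tp w ζ ζ' - 2 * ph w))).trans (h4.trans h5)
  have e : (Tn n w ζ ζ' - (n * tp w ζ ζ' - 2 * ph w)).re =
      (Tn n w ζ ζ').re - (n * (tp w ζ ζ').re - 2 * (ph w).re) := by
    simp
  rw [e] at h6
  rw [Complex.norm_exp]
  calc Real.exp (Tn n w ζ ζ').re ≤ Real.exp (C + (-(2 * (ph w).re)) + n * (tp w ζ ζ').re) := by
        apply Real.exp_le_exp.mpr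
        linarith only [h6]
    _ = Real.exp C * Real.exp (-(2 * (ph w).re)) * Real.exp (n * (tp w ζ ζ').re) := by
        rw [Real.exp_add, Real.exp_add]
    _ ≤ _ := by
        gcongr
        exact exp_ph_bound h0 h1

lemma center_cont {ε : ℝ} (hε : 0 < ε) : ∃ η : ℝ, 0 < η ∧ ∀ w ζ ζ' : ℂ, ‖w - 1 / 4‖ ≤ η →
    ‖ζ‖ ≤ η → ‖ζ'‖ ≤ η → ts - ε ≤ (tp w ζ ζ').re := by
  have hmem : ((1 / 4, 0, 0) : ℂ × ℂ × ℂ) ∈ {p : ℂ × ℂ × ℂ | 0 < p.1.re ∧ p.1.re ≤ 3 / 8 ∧
      |p.2.1.re| ≤ 1 / 16 ∧ |p.2.2.re| ≤ 1 / 16} := by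
    refine ⟨by norm_num, by norm_num, by norm_num, by norm_num⟩
  obtain ⟨δ, hδ, h⟩ := Metric.continuousOn_iff.mp tp_continuousOn _ hmem ε hε
  refine ⟨min (δ / 2) (1 / 16), by positivity, ?_⟩
  intro w ζ ζ' h1 h2 h3
  have h1' := h1.trans (min_le_right _ _)
  have h2' := h2.trans (min_le_right _ _)
  have h3' := h3.trans (min_le_right _ _)
  have h1'' := h1.trans (min_le_left _ _)
  have h2'' := h2.trans (min_le_left _ _)
  have h3'' := h3.trans (min_le_left _ _)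
  have h4 : |w.re - 1 / 4| ≤ 1 / 16 := by
    have := (Complex.abs_re_le_norm (w - 1 / 4)).trans h1'
    simpa using this
  have h5 := abs_le.mp h4
  have h6 := h (w, ζ, ζ') ⟨by dsimp only; linarith only [h5], by dsimp only; linarith only [h5],
    (Complex.abs_re_le_norm _).trans h2', (Complex.abs_re_le_norm _).trans h3'⟩ (by
      rw [Prod.dist_eq, Prod.dist_eq, dist_eq_norm, dist_eq_norm, dist_eq_norm, sub_zero, sub_zero]
      refine max_lt (by linarith only [hδ, h1'']) (max_lt (by linarith only [hδ, h2'']) (by linarith only [hδ, h3''])))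
  dsimp only at h6
  rw [dist_eq_norm, tp_center] at h6
  have h7 := (Complex.abs_re_le_norm (tp w ζ ζ' - ((ts : ℝ) : ℂ))).trans h6.le
  rw [Complex.sub_re, Complex.ofReal_re] at h7
  have h8 := abs_le.mp h7
  linarith only [h8]

lemma tz_small : ∃ η : ℝ, 0 < η ∧ ∀ w ζ : ℂ, ‖w - 1 / 4‖ ≤ η → ‖ζ‖ ≤ η → ‖tz w ζ‖ ≤ 8 * ‖ζ‖ := by
  obtain ⟨r, hr, _, h⟩ := tz_approx (ε := 1) one_pos
  refine ⟨r, hr, ?_⟩
  intro w ζ h1 h2
  have h3 := h w ζ 0 h1 h2 (by simpa using hr.le)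
  have h4 : tz w 0 = 0 := by simp [tz]
  rw [h4, sub_zero, sub_zero, one_mul] at h3
  have h5 : ‖(2 * Real.pi * ζ : ℂ)‖ ≤ 7 * ‖ζ‖ := by
    rw [norm_mul, norm_mul, Complex.norm_ofNat, Complex.norm_real,
      Real.norm_of_nonneg Real.pi_pos.le]
    have : 2 * Real.pi ≤ 7 := by
      have := Real.pi_lt_d2
      linarith
    gcongr
  have h6 : ‖tz w ζ‖ ≤ ‖tz w ζ + 2 * Real.pi * ζ‖ + ‖(2 * Real.pi * ζ : ℂ)‖ := by
    have := norm_sub_le (tz w ζ + 2 * Real.pi * ζ) (2 * Real.pi * ζ)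
    rwa [add_sub_cancel_right] at this
  linarith only [h3, h5, h6]

lemma gauss_le {n x0 : ℝ} (hn : 0 < n) :
    ∫ x in (1 / 8 : ℝ)..(3 / 8), Real.exp (-n * (x - x0) ^ 2) ≤ √(Real.pi / n) := by
  have h1 : Integrable (fun x : ℝ => Real.exp (-n * (x - x0) ^ 2)) :=
    (integrable_exp_neg_mul_sq hn).comp_sub_right x0
  rw [intervalIntegral.integral_of_le (by norm_num), ← integral_gaussian n,
    ← integral_sub_right_eq_self (fun x : ℝ => Real.exp (-n * x ^ 2)) x0]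
  exact setIntegral_le_integral h1 (Filter.Eventually.of_forall fun x => (Real.exp_pos _).le)

lemma MM_norm_bound {K : ℝ} (hK0 : 0 ≤ K) (hK : ∀ n : ℕ, 8 ≤ n → ∀ w ζ ζ' : ℂ, 1 / 8 ≤ w.re →
    w.re ≤ 3 / 8 → |ζ.re| ≤ 1 / 16 → |ζ'.re| ≤ 1 / 16 →
    ‖Complex.exp (Tn n w ζ ζ')‖ ≤ K * Real.exp (n * (tp w ζ ζ').re)) {n : ℕ} (hn : 8 ≤ n)
    {τ Q x0 B : ℝ} {ζ ζ' : ℂ} (h2 : |ζ.re| ≤ 1 / 16) (h3 : |ζ'.re| ≤ 1 / 16)
    (h : ∀ x : ℝ, 1 / 8 ≤ x → x ≤ 3 / 8 → (tp ((x : ℂ) + τ * Complex.I) ζ ζ').re ≤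
      Q - (x - x0) ^ 2 ∨ (tp ((x : ℂ) + τ * Complex.I) ζ ζ').re ≤ B) :
    ‖MM n τ ζ ζ'‖ ≤ 1 / n * (K * (Real.exp (n * Q) * √(Real.pi / n) + Real.exp (n * B))) := by
  have hn0 : (0 : ℝ) < n := by
    have : (8 : ℝ) ≤ n := by exact_mod_cast hn
    linarith only [this]
  unfold MM
  rw [norm_mul, norm_div, norm_one, Complex.norm_natCast]
  gcongr
  have hb : ∀ x : ℝ, x ∈ Set.Ioc (1 / 8 : ℝ) (3 / 8) →
      ‖Complex.exp (Tn n ((x : ℂ) + τ * Complex.I) ζ ζ')‖ ≤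
      K * (Real.exp (n * Q) * Real.exp (-n * (x - x0) ^ 2) + Real.exp (n * B)) := by
    intro x hx
    have hre : ((x : ℂ) + τ * Complex.I).re = x := by simp
    refine (hK n hn _ ζ ζ' (by rw [hre]; exact hx.1.le) (by rw [hre]; exact hx.2) h2 h3).trans ?_
    gcongr
    rcases h x hx.1.le hx.2 with h4 | h4
    · have : Real.exp (n * (tp ((x : ℂ) + τ * Complex.I) ζ ζ').re) ≤
          Real.exp (n * Q) * Real.exp (-n * (x - x0) ^ 2) := by
        rw [← Real.exp_add]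
        apply Real.exp_le_exp.mpr
        have := mul_le_mul_of_nonneg_left h4 hn0.le
        linarith only [this]
      have h5 := Real.exp_pos (n * B)
      linarith only [this, h5]
    · have : Real.exp (n * (tp ((x : ℂ) + τ * Complex.I) ζ ζ').re) ≤ Real.exp (n * B) := by
        apply Real.exp_le_exp.mpr
        exact mul_le_mul_of_nonneg_left h4 hn0.le
      have h5 : 0 < Real.exp (n * Q) * Real.exp (-n * (x - x0) ^ 2) := by positivity
      linarith only [this, h5]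
  have hi : IntervalIntegrable (fun x : ℝ => K * (Real.exp (n * Q) *
      Real.exp (-n * (x - x0) ^ 2) + Real.exp (n * B))) volume (1 / 8) (3 / 8) := by
    apply Continuous.intervalIntegrable
    fun_prop
  have h5 := intervalIntegral.norm_integral_le_of_norm_le (μ := volume)
    (by norm_num : (1 / 8 : ℝ) ≤ 3 / 8)
    (Filter.Eventually.of_forall hb) hi
  refine h5.trans ?_
  rw [intervalIntegral.integral_const_mul, intervalIntegral.integral_add (by
    apply Continuous.intervalIntegrable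
    fun_prop) (by
    apply Continuous.intervalIntegrable
    fun_prop), intervalIntegral.integral_const_mul, intervalIntegral.integral_const]
  have h6 := gauss_le (x0 := x0) hn0
  have h7 : ((3 / 8 : ℝ) - 1 / 8) • Real.exp (n * B) ≤ Real.exp (n * B) := by
    rw [smul_eq_mul]
    have := Real.exp_pos (n * B)
    linarith only [this]
  gcongr

lemma rpow_32 {x : ℝ} (hx : 0 < x) : x ^ (-(3 / 2) : ℝ) = (x * √x)⁻¹ := by
  rw [Real.rpow_neg hx.le, Real.sqrt_eq_rpow]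
  congr 1
  have : (3 / 2 : ℝ) = 1 + 1 / 2 := by norm_num
  rw [this, Real.rpow_add hx, Real.rpow_one]

/-- exponentially small terms -/
lemma exp_small {c0 : ℝ} (hc : 0 < c0) {n : ℕ} (hn : 1 ≤ n) {B G : ℝ} (h : B + c0 / 2 ≤ G) :
    Real.exp (n * B) ≤ 8 / c0 ^ 2 * (n : ℝ) ^ (-(3 / 2) : ℝ) * Real.exp (n * G) := by
  have hn1 : (1 : ℝ) ≤ n := by exact_mod_cast hn
  have hn0 : (0 : ℝ) < n := by linarith only [hn1]
  have h1 : Real.exp (n * B) ≤ Real.exp (-(n * (c0 / 2))) * Real.exp (n * G) := by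
    rw [← Real.exp_add]
    apply Real.exp_le_exp.mpr
    have := mul_le_mul_of_nonneg_left h hn0.le
    linarith only [this]
  refine h1.trans ?_
  gcongr
  rw [rpow_32 hn0, Real.exp_neg]
  have h2 : (n * (c0 / 2)) ^ 2 / 2 ≤ Real.exp (n * (c0 / 2)) := by
    have h3 := Real.quadratic_le_exp_of_nonneg (x := n * (c0 / 2)) (by positivity)
    have h4 : 0 ≤ n * (c0 / 2) := by positivity
    linarith only [h3, h4]
  have h3 : (n * √n * (c0 ^ 2 / 8) : ℝ) ≤ Real.exp (n * (c0 / 2)) := by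
    refine le_trans ?_ h2
    have h5 : √(n : ℝ) ≤ n := by
      rw [Real.sqrt_le_left hn0.le]
      nlinarith only [hn1]
    have h6 : (n * √n : ℝ) ≤ n * n := mul_le_mul_of_nonneg_left h5 hn0.le
    have h7 : (n * √n * (c0 ^ 2 / 8) : ℝ) ≤ n * n * (c0 ^ 2 / 8) :=
      mul_le_mul_of_nonneg_right h6 (by positivity)
    refine h7.trans (le_of_eq ?_)
    ring
  have hs : 0 < √(n : ℝ) := Real.sqrt_pos.mpr hn0
  have h8 : (0 : ℝ) < n * √n * (c0 ^ 2 / 8) := by positivity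
  refine (inv_anti₀ h8 h3).trans (le_of_eq ?_)
  field_simp

/-- domination of the kernel -/
theorem SS_bound : ∃ η c : ℝ, 0 < η ∧ 0 < c ∧ ∀ w ζ ζ' : ℂ, tw w ζ ζ' = 0 → ‖w - 1 / 4‖ ≤ η →
    ‖ζ‖ ≤ η → ‖ζ'‖ ≤ η → 0 < ζ.im → 0 < ζ'.im → ∃ (C : ℝ) (N : ℕ), 0 ≤ C ∧ ∀ n : ℕ, N ≤ n →
    ∀ σ σ' : ℝ, |σ| ≤ 1 / 2 → |σ'| ≤ 1 / 2 → ‖SS n (zt ζ.im σ) (zt ζ'.im σ')‖ ≤
      C * (n : ℝ) ^ (-(3 / 2) : ℝ) * Real.exp (n * ((tp w ζ ζ').re + (tz w ζ).re * (σ - ζ.re) +
        (tz w ζ').re * (σ' - ζ'.re) - c * ((σ - ζ.re) ^ 2 + (σ' - ζ'.re) ^ 2))) := by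
  obtain ⟨r, hr, hr16, hconc⟩ := conc
  obtain ⟨κ, δ₁, c₁, C₁, N₁, hκ, hδ₁, hδ₁', hc₁, hC₁, hN₁, hnear⟩ := SS_near
  obtain ⟨ε₂, c₂, hε₂, hε₂', hc₂, hmid⟩ := tp_mid (δ := r / 2) (by positivity)
  obtain ⟨K, hK0, hK⟩ := Tn_norm_bound
  obtain ⟨η₅, hη₅, htz⟩ := tz_small
  set δ := min (r / 4) (min (δ₁ / 2) (ε₂ / 2)) with hδ
  have hδ0 : 0 < δ := by positivity
  obtain ⟨ε₃, c₃, C₃, hε₃, hc₃, hC₃, hfar⟩ := SS_far hδ0
  set c₀ := min c₁ (min c₂ c₃) with hc₀
  have hc₀0 : 0 < c₀ := by positivity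
  have hc01 : c₀ ≤ c₁ := min_le_left _ _
  have hc02 : c₀ ≤ c₂ := (min_le_right _ _).trans (min_le_left _ _)
  have hc03 : c₀ ≤ c₃ := (min_le_right _ _).trans (min_le_right _ _)
  obtain ⟨η₄, hη₄, hcen⟩ := center_cont (ε := c₀ / 8) (by positivity)
  set c := min 1 (c₀ / 8) with hc
  have hc0 : 0 < c := by positivity
  have hcle1 : c ≤ 1 := min_le_left _ _
  have hcle2 : c ≤ c₀ / 8 := min_le_right _ _
  set η := min (min (min (r / 4) κ) (min (δ₁ / 2) (ε₂ / 2)))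
    (min (min ε₃ η₄) (min η₅ (min (c₀ / 128) (1 / 2)))) with hη
  have hη0 : 0 < η := by positivity
  have hη1 : η ≤ r / 4 := (min_le_left _ _).trans ((min_le_left _ _).trans (min_le_left _ _))
  have hη2 : η ≤ κ := (min_le_left _ _).trans ((min_le_left _ _).trans (min_le_right _ _))
  have hη3 : η ≤ δ₁ / 2 := (min_le_left _ _).trans ((min_le_right _ _).trans (min_le_left _ _))
  have hη4 : η ≤ ε₂ / 2 := (min_le_left _ _).trans ((min_le_right _ _).trans (min_le_right _ _))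
  have hη5 : η ≤ ε₃ := (min_le_right _ _).trans ((min_le_left _ _).trans (min_le_left _ _))
  have hη6 : η ≤ η₄ := (min_le_right _ _).trans ((min_le_left _ _).trans (min_le_right _ _))
  have hη7 : η ≤ η₅ := (min_le_right _ _).trans ((min_le_right _ _).trans (min_le_left _ _))
  have hη8 : η ≤ c₀ / 128 := (min_le_right _ _).trans ((min_le_right _ _).trans
    ((min_le_right _ _).trans (min_le_left _ _)))
  have hη9 : η ≤ 1 / 2 := (min_le_right _ _).trans ((min_le_right _ _).trans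
    ((min_le_right _ _).trans (min_le_right _ _)))
  have hδ1 : δ ≤ r / 4 := min_le_left _ _
  have hδ2 : δ ≤ δ₁ / 2 := (min_le_right _ _).trans (min_le_left _ _)
  have hδ3 : δ ≤ ε₂ / 2 := (min_le_right _ _).trans (min_le_right _ _)
  refine ⟨η, c, hη0, hc0, ?_⟩
  intro w ζ ζ' hcrit hw hζ hζ' hρ hρ'
  set ρ := ζ.im with hρdef
  set ρ' := ζ'.im with hρ'def
  have hρη : ρ ≤ η := ((le_abs_self _).trans (Complex.abs_im_le_norm ζ)).trans hζ
  have hρη' : ρ' ≤ η := ((le_abs_self _).trans (Complex.abs_im_le_norm ζ')).trans hζ'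
  refine ⟨K * √Real.pi + (K + C₁ + C₃) * (8 / c₀ ^ 2), N₁, by positivity, ?_⟩
  intro n hn σ σ' hσ hσ'
  have hn8 : 8 ≤ n := hN₁.trans hn
  have hn1 : (1 : ℝ) ≤ n := by
    have : (8 : ℝ) ≤ n := by exact_mod_cast hn8
    linarith only [hr16, hη0, hη1, this]
  have hn0 : (0 : ℝ) < n := by linarith only [hr16, hη0, hη1, hn1]
  set D := (σ - ζ.re) ^ 2 + (σ' - ζ'.re) ^ 2 with hD
  have hD0 : 0 ≤ D := by positivity
  set P := (tp w ζ ζ').re + (tz w ζ).re * (σ - ζ.re) + (tz w ζ').re * (σ' - ζ'.re) with hP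
  set E := Real.exp (n * (P - c * D)) with hE
  have hE0 : 0 < E := Real.exp_pos _
  -- the tangent plane is high
  have hab : |σ - ζ.re| ≤ 1 := by
    have h1 := (Complex.abs_re_le_norm ζ).trans hζ
    have := abs_sub σ ζ.re
    linarith only [hr16, hη0, hη1, hσ, h1, this]
  have hab' : |σ' - ζ'.re| ≤ 1 := by
    have h1 := (Complex.abs_re_le_norm ζ').trans hζ'
    have := abs_sub σ' ζ'.re
    linarith only [hr16, hη0, hη1, hσ', h1, this]
  have hDle : D ≤ 2 := by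
    have h1 : (σ - ζ.re) ^ 2 ≤ 1 := by rw [← sq_abs]; exact pow_le_one₀ (abs_nonneg _) hab
    have h2 : (σ' - ζ'.re) ^ 2 ≤ 1 := by rw [← sq_abs]; exact pow_le_one₀ (abs_nonneg _) hab'
    linarith only [h1, h2]
  have hPge : ts - c₀ / 2 ≤ P - c * D := by
    have h1 := hcen w ζ ζ' (hw.trans hη6) (hζ.trans hη6) (hζ'.trans hη6)
    have h2 : |(tz w ζ).re * (σ - ζ.re)| ≤ c₀ / 16 := by
      rw [abs_mul]
      have h3 : |(tz w ζ).re| ≤ 8 * (c₀ / 128) :=
        (Complex.abs_re_le_norm _).trans ((htz w ζ (hw.trans hη7) (hζ.trans hη7)).trans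
          (by linarith only [hη8, hζ]))
      calc _ ≤ 8 * (c₀ / 128) * 1 := by gcongr
        _ = _ := by ring
    have h2' : |(tz w ζ').re * (σ' - ζ'.re)| ≤ c₀ / 16 := by
      rw [abs_mul]
      have h3 : |(tz w ζ').re| ≤ 8 * (c₀ / 128) :=
        (Complex.abs_re_le_norm _).trans ((htz w ζ' (hw.trans hη7) (hζ'.trans hη7)).trans
          (by linarith only [hη8, hζ']))
      calc _ ≤ 8 * (c₀ / 128) * 1 := by gcongr
        _ = _ := by ring
    have h4 : c * D ≤ c₀ / 8 * 2 := by gcongr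
    have h5 := abs_le.mp h2
    have h6 := abs_le.mp h2'
    rw [hP]
    linarith only [h1, h4, h5, h6]
  have hsm : ∀ B : ℝ, B ≤ ts - c₀ → Real.exp (n * B) ≤ 8 / c₀ ^ 2 * (n : ℝ) ^ (-(3 / 2) : ℝ) * E := by
    intro B hB
    exact exp_small hc₀0 (by omega) (by linarith only [hPge, hB])
  have hnp : (0 : ℝ) ≤ (n : ℝ) ^ (-(3 / 2) : ℝ) := by positivity
  have hth0 := th_nonneg hσ
  have hth0' := th_nonneg hσ'
  by_cases hcase : |σ| < δ ∧ |σ'| < δ
  · -- near the centre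
    obtain ⟨hs, hs'⟩ := hcase
    have hs4 : |σ| ≤ 1 / 4 := by linarith only [hr16, hη0, hη1, hδ1, hs]
    have hs4' : |σ'| ≤ 1 / 4 := by linarith only [hr16, hη0, hη1, hδ1, hs']
    rw [zt_mid hs4, zt_mid hs4']
    set z := (σ : ℂ) + (ρ : ℂ) * Complex.I with hz
    set z' := (σ' : ℂ) + (ρ' : ℂ) * Complex.I with hz'
    have hzn : ‖z‖ ≤ δ + η := by
      refine (norm_add_le _ _).trans ?_
      rw [norm_mul, Complex.norm_I, mul_one, Complex.norm_real, Complex.norm_real,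
        Real.norm_eq_abs, Real.norm_of_nonneg hρ.le]
      linarith only [hρη, hs]
    have hzn' : ‖z'‖ ≤ δ + η := by
      refine (norm_add_le _ _).trans ?_
      rw [norm_mul, Complex.norm_I, mul_one, Complex.norm_real, Complex.norm_real,
        Real.norm_eq_abs, Real.norm_of_nonneg hρ'.le]
      linarith only [hρη', hs']
    have hzre : z.re = σ := by simp [hz]
    have hzre' : z'.re = σ' := by simp [hz']
    have hτ : |w.im| ≤ η := by
      have := (Complex.abs_im_le_norm (w - 1 / 4)).trans hw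
      have e : (w - 1 / 4).im = w.im := by simp
      rwa [e] at this
    have h1 := hnear n hn w.im (hτ.trans hη2) z z' (by linarith only [hη3, hδ2, hzn]) (by linarith only [hη3, hδ2, hzn'])
    have h2 : ‖MM n w.im z z'‖ ≤ 1 / n * (K * (Real.exp (n * (P - D)) * √(Real.pi / n) +
        Real.exp (n * (ts - c₂)))) := by
      refine MM_norm_bound hK0 hK hn8 (x0 := w.re) (by rw [hzre]; linarith only [hr16, hη0, hη1, hδ1, hs])
        (by rw [hzre']; linarith only [hr16, hη0, hη1, hδ1, hs']) ?_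
      intro x hx0 hx1
      by_cases hx : |x - 1 / 4| ≤ r / 2
      · left
        have e1 : w + ((x - w.re : ℝ) : ℂ) = (x : ℂ) + (w.im : ℂ) * Complex.I := by
          apply Complex.ext <;> simp
        have e2 : ζ + ((σ - ζ.re : ℝ) : ℂ) = z := by
          apply Complex.ext <;> simp [hz, hρdef]
        have e3 : ζ' + ((σ' - ζ'.re : ℝ) : ℂ) = z' := by
          apply Complex.ext <;> simp [hz', hρ'def]
        have h3 := hconc w ζ ζ' (x - w.re) (σ - ζ.re) (σ' - ζ'.re) (by linarith only [hη0, hη1, hw]) (by linarith only [hη0, hη1, hζ])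
          (by linarith only [hη0, hη1, hζ']) (by
            rw [e1]
            have e4 : (x : ℂ) + (w.im : ℂ) * Complex.I - 1 / 4 =
                ((x - 1 / 4 : ℝ) : ℂ) + (w.im : ℂ) * Complex.I := by push_cast; ring
            rw [e4]
            refine (norm_add_le _ _).trans ?_
            rw [norm_mul, Complex.norm_I, mul_one, Complex.norm_real, Complex.norm_real,
              Real.norm_eq_abs, Real.norm_eq_abs]
            linarith only [hη0, hη1, hτ, hx]) (by rw [e2]; linarith only [hη0, hη1, hδ1, hzn]) (by rw [e3]; linarith only [hη0, hη1, hδ1, hzn'])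
        rw [e1, e2, e3, hcrit, Complex.zero_re, zero_mul, add_zero] at h3
        rw [hP, hD]
        linarith only [h3]
      · right
        push Not at hx
        have hre : ((x : ℂ) + (w.im : ℂ) * Complex.I).re = x := by simp
        have him : ((x : ℂ) + (w.im : ℂ) * Complex.I).im = w.im := by simp
        exact hmid _ z z' (by rw [hre]; exact hx0) (by rw [hre]; exact hx1)
          (by rw [hre]; exact hx.le) (by rw [him]; linarith only [hη0, hη4, hτ]) (by linarith only [hη4, hδ3, hzn]) (by linarith only [hη4, hδ3, hzn'])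
    have h3 : ‖SS n z z'‖ ≤ ‖SS n z z' - MM n w.im z z'‖ + ‖MM n w.im z z'‖ := by
      have := norm_add_le (SS n z z' - MM n w.im z z') (MM n w.im z z')
      rwa [sub_add_cancel] at this
    have h4 := hsm (ts - c₁) (by linarith only [hc01])
    have h5 := hsm (ts - c₂) (by linarith only [hc02])
    have h6 : 1 / n * (K * (Real.exp (n * (P - D)) * √(Real.pi / n) +
        Real.exp (n * (ts - c₂)))) ≤ K * √Real.pi * (n : ℝ) ^ (-(3 / 2) : ℝ) * E +
        K * (8 / c₀ ^ 2 * (n : ℝ) ^ (-(3 / 2) : ℝ) * E) := by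
      have h7 : 1 / n * (K * (Real.exp (n * (P - D)) * √(Real.pi / n) +
        Real.exp (n * (ts - c₂)))) = K * √Real.pi * (n : ℝ) ^ (-(3 / 2) : ℝ) *
          Real.exp (n * (P - D)) + 1 / n * (K * Real.exp (n * (ts - c₂))) := by
        rw [rpow_32 hn0, Real.sqrt_div Real.pi_pos.le]
        have hs : 0 < √(n : ℝ) := Real.sqrt_pos.mpr hn0
        field_simp
      rw [h7]
      apply add_le_add
      · gcongr
        rw [hE]
        apply Real.exp_le_exp.mpr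
        have : c * D ≤ 1 * D := by gcongr
        nlinarith only [this]
      · have h8 : (1 : ℝ) / n ≤ 1 := by
          rw [div_le_one hn0]; exact hn1
        calc 1 / (n : ℝ) * (K * Real.exp (n * (ts - c₂))) ≤ 1 * (K * Real.exp (n * (ts - c₂))) := by
              gcongr
          _ = K * Real.exp (n * (ts - c₂)) := one_mul _
          _ ≤ _ := by gcongr
    have h9 : C₁ * Real.exp (n * (ts - c₁)) ≤ C₁ * (8 / c₀ ^ 2 * (n : ℝ) ^ (-(3 / 2) : ℝ) * E) := by
      gcongr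
    have h10 : 0 ≤ C₃ * (8 / c₀ ^ 2) * (n : ℝ) ^ (-(3 / 2) : ℝ) * E := by positivity
    calc ‖SS n z z'‖ ≤ C₁ * (8 / c₀ ^ 2 * (n : ℝ) ^ (-(3 / 2) : ℝ) * E) +
          (K * √Real.pi * (n : ℝ) ^ (-(3 / 2) : ℝ) * E +
          K * (8 / c₀ ^ 2 * (n : ℝ) ^ (-(3 / 2) : ℝ) * E)) := by linarith only [h1, h2, h3, h6, h9]
      _ ≤ _ := by
          have e : (K * √Real.pi + (K + C₁ + C₃) * (8 / c₀ ^ 2)) * (n : ℝ) ^ (-(3 / 2) : ℝ) * E =
            C₁ * (8 / c₀ ^ 2 * (n : ℝ) ^ (-(3 / 2) : ℝ) * E) +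
            (K * √Real.pi * (n : ℝ) ^ (-(3 / 2) : ℝ) * E +
            K * (8 / c₀ ^ 2 * (n : ℝ) ^ (-(3 / 2) : ℝ) * E)) +
            C₃ * (8 / c₀ ^ 2) * (n : ℝ) ^ (-(3 / 2) : ℝ) * E := by ring
          rw [e]
          linarith only [h10]
  · have hcase' : δ ≤ |σ| ∨ δ ≤ |σ'| := by
      by_contra hcon
      push Not at hcon
      exact hcase hcon
    have him : ∀ {ρ₁ σ₁ : ℝ}, 0 < ρ₁ → ρ₁ ≤ η → |σ₁| ≤ 1 / 2 → |(zt ρ₁ σ₁).im| ≤ ε₃ := by
      intro ρ₁ σ₁ h1 h2 h3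
      have h4 := th_nonneg h3
      have h5 := th_le_one σ₁
      rw [zt_im, abs_of_nonneg (by positivity)]
      have : ρ₁ * th σ₁ ≤ ρ₁ * 1 := mul_le_mul_of_nonneg_left h5 h1.le
      linarith only [hη5, h2, this]
    have h1 := hfar n (by omega) (zt ρ σ) (zt ρ' σ') (by rwa [zt_re]) (by rwa [zt_re])
      (him hρ hρη hσ) (him hρ' hρη' hσ') (by rwa [zt_re, zt_re])
    have h2 := hsm (ts - c₃) (by linarith only [hc03])
    have h3 : 0 ≤ K * √Real.pi * (n : ℝ) ^ (-(3 / 2) : ℝ) * E := by positivity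
    have h4 : 0 ≤ (K + C₁) * (8 / c₀ ^ 2) * (n : ℝ) ^ (-(3 / 2) : ℝ) * E := by positivity
    calc _ ≤ C₃ * (8 / c₀ ^ 2 * (n : ℝ) ^ (-(3 / 2) : ℝ) * E) := h1.trans (by gcongr)
      _ ≤ _ := by
          have e : (K * √Real.pi + (K + C₁ + C₃) * (8 / c₀ ^ 2)) * (n : ℝ) ^ (-(3 / 2) : ℝ) * E =
            C₃ * (8 / c₀ ^ 2 * (n : ℝ) ^ (-(3 / 2) : ℝ) * E) +
            K * √Real.pi * (n : ℝ) ^ (-(3 / 2) : ℝ) * E +
            (K + C₁) * (8 / c₀ ^ 2) * (n : ℝ) ^ (-(3 / 2) : ℝ) * E := by ring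
          rw [e]
          linarith only [h3, h4]

end Pool.Agent.Work.MP_b30479_gtS.LT

end

section

/-!
# Pointwise limits on the scale `1/√n`, at a critical point near the centre
-/

namespace Pool.Agent.Work.MP_b30479_gtS.LT

open Finset VOL AX MeasureTheory Filter Topology

/-! ### elementary facts -/

theorem sqrt_tendsto : Tendsto (fun n : ℕ => √(n : ℝ)) atTop atTop :=
  Real.tendsto_sqrt_atTop.comp tendsto_natCast_atTop_atTop

theorem div_sqrt_tendsto (X : ℝ) : Tendsto (fun n : ℕ => X / √(n : ℝ)) atTop (𝓝 0) :=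
  sqrt_tendsto.const_div_atTop X

theorem div_sqrt_tendsto_c (X : ℝ) : Tendsto (fun n : ℕ => ((X / √(n : ℝ) : ℝ) : ℂ)) atTop (𝓝 0) := by
  have h := (Complex.continuous_ofReal.tendsto 0).comp (div_sqrt_tendsto X)
  rw [Complex.ofReal_zero] at h
  exact h

theorem zt_eq {ζ : ℂ} {u : ℝ} (h : |ζ.re + u| ≤ 1 / 4) : zt ζ.im (ζ.re + u) = ζ + (u : ℂ) := by
  have h1 : th (ζ.re + u) = 1 := by
    unfold th
    exact min_eq_left (by linarith only [h])
  unfold zt
  rw [h1, mul_one]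
  apply Complex.ext <;> simp

theorem eventually_abs_le {x : ℝ} (h : |x| < 1 / 4) (X : ℝ) :
    ∀ᶠ n : ℕ in atTop, |x + X / √(n : ℝ)| < 1 / 4 := by
  have h1 : Tendsto (fun n : ℕ => |x + X / √(n : ℝ)|) atTop (𝓝 |x + 0|) :=
    ((div_sqrt_tendsto X).const_add x).abs
  rw [add_zero] at h1
  exact h1.eventually_lt_const h

theorem sqrt_cast_sq {n : ℕ} (hn : 0 < n) : ((√(n : ℝ) : ℝ) : ℂ) * ((√(n : ℝ) : ℝ) : ℂ) = (n : ℂ) := by
  rw [← Complex.ofReal_mul, Real.mul_self_sqrt (by positivity)]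
  simp

/-- `n (ζ + X/√n)² = n ζ² + 2 √n X ζ + X²` -/
theorem sq_expand {n : ℕ} (hn : 0 < n) (ζ : ℂ) (X : ℝ) :
    (n : ℂ) * (ζ + ((X / √(n : ℝ) : ℝ) : ℂ)) ^ 2 =
      n * ζ ^ 2 + 2 * (√(n : ℝ) : ℝ) * X * ζ + X ^ 2 := by
  have hs : ((√(n : ℝ) : ℝ) : ℂ) ≠ 0 := by
    rw [Complex.ofReal_ne_zero]
    positivity
  have h := sqrt_cast_sq hn
  push_cast
  rw [← h]
  field_simp
  ring

theorem inv_sin_sq {z : ℂ} (hz : 0 < z.im) {n : ℕ} (hn : 0 < n) :
    1 / Complex.sin (Real.pi * n * z) ^ 2 = -4 * Complex.exp (2 * Real.pi * Complex.I * n * z) /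
      (1 - Complex.exp (2 * Real.pi * Complex.I * n * z)) ^ 2 := by
  set e := Complex.exp (Real.pi * Complex.I * n * z) with he
  have h1 : Complex.exp (2 * Real.pi * Complex.I * n * z) = e ^ 2 := by
    rw [he, ← Complex.exp_nat_mul]
    congr 1
    push_cast
    ring
  have h0 : e ≠ 0 := Complex.exp_ne_zero _
  have h2 : Complex.exp (-(Real.pi * n * z) * Complex.I) = e⁻¹ ∧
      Complex.exp (Real.pi * n * z * Complex.I) = e := by
    constructor
    · rw [he, ← Complex.exp_neg]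
      congr 1
      ring
    · rw [he]
      congr 1
      ring
  have h3 : Complex.sin (Real.pi * n * z) = (e⁻¹ - e) * Complex.I / 2 := by
    unfold Complex.sin
    rw [h2.1]
    congr 3
    rw [← h2.2]
  have hn1 : ‖Complex.exp (2 * Real.pi * Complex.I * n * z)‖ < 1 := by
    rw [Complex.norm_exp]
    have : (2 * Real.pi * Complex.I * n * z : ℂ).re = -(2 * Real.pi * n * z.im) := by
      simp
    rw [this, Real.exp_lt_one_iff]
    have : 0 < 2 * Real.pi * n * z.im := by positivity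
    linarith only [this]
  have hne : (1 : ℂ) - e ^ 2 ≠ 0 := by
    rw [← h1]
    intro h
    have : Complex.exp (2 * Real.pi * Complex.I * n * z) = 1 := by
      linear_combination -h
    rw [this] at hn1
    simp at hn1
  rw [h1, h3]
  have h4 : ((e⁻¹ - e) * Complex.I / 2) ^ 2 = -(1 - e ^ 2) ^ 2 / (4 * e ^ 2) := by
    rw [div_pow, mul_pow, Complex.I_sq]
    field_simp
    ring
  rw [h4]
  have h5 : e ^ 2 ≠ 0 := pow_ne_zero 2 h0
  have h6 : (1 - e ^ 2) ^ 2 ≠ 0 := pow_ne_zero 2 hne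
  field_simp

theorem EE_lim {b : ℤ} {ζ : ℂ} (h0 : 0 < ζ.im) (h1 : |ζ.re| < 1 / 4) (X : ℝ) :
    Tendsto (fun n : ℕ => Complex.exp (-(n * (Real.pi * Complex.I * b * ζ ^ 2 +
        2 * Real.pi * Complex.I * ζ) + √(n : ℝ) * (2 * Real.pi * Complex.I * (b * ζ + 1)) * X)) *
      EE n b ζ.im (ζ.re + X / √(n : ℝ))) atTop
      (𝓝 (-4 * Complex.sin (2 * Real.pi * ζ) * Complex.exp (Real.pi * Complex.I * b * X ^ 2))) := by
  have hz : Tendsto (fun n : ℕ => ζ + ((X / √(n : ℝ) : ℝ) : ℂ)) atTop (𝓝 ζ) := by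
    simpa using (div_sqrt_tendsto_c X).const_add ζ
  have hs : Tendsto (fun n : ℕ => Complex.sin (2 * Real.pi * (ζ + ((X / √(n : ℝ) : ℝ) : ℂ)))) atTop
      (𝓝 (Complex.sin (2 * Real.pi * ζ))) := by
    have : Continuous fun z : ℂ => Complex.sin (2 * Real.pi * z) := by fun_prop
    exact (this.tendsto ζ).comp hz
  have hq : Tendsto (fun n : ℕ => Complex.exp (2 * Real.pi * Complex.I * n *
      (ζ + ((X / √(n : ℝ) : ℝ) : ℂ)))) atTop (𝓝 0) := by
    rw [tendsto_zero_iff_norm_tendsto_zero]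
    have e : (fun n : ℕ => ‖Complex.exp (2 * Real.pi * Complex.I * n *
        (ζ + ((X / √(n : ℝ) : ℝ) : ℂ)))‖) = fun n : ℕ => Real.exp (-(2 * Real.pi * ζ.im * n)) := by
      funext n
      rw [Complex.norm_exp]
      congr 1
      simp
      ring
    rw [e]
    refine Real.tendsto_exp_atBot.comp ?_
    refine tendsto_neg_atTop_atBot.comp ?_
    exact tendsto_natCast_atTop_atTop.const_mul_atTop (by positivity)
  have hlim : Tendsto (fun n : ℕ => -4 * Complex.sin (2 * Real.pi * (ζ + ((X / √(n : ℝ) : ℝ) : ℂ))) *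
      Complex.exp (Real.pi * Complex.I * b * X ^ 2) / (1 - Complex.exp (2 * Real.pi * Complex.I * n *
      (ζ + ((X / √(n : ℝ) : ℝ) : ℂ)))) ^ 2) atTop
      (𝓝 (-4 * Complex.sin (2 * Real.pi * ζ) * Complex.exp (Real.pi * Complex.I * b * X ^ 2) /
        (1 - 0) ^ 2)) := by
    refine Tendsto.div ((hs.const_mul (-4)).mul_const _) ?_ (by simp)
    exact (hq.const_sub 1).pow 2
  rw [sub_zero, one_pow, div_one] at hlim
  refine hlim.congr' ?_
  filter_upwards [eventually_abs_le h1 X, eventually_gt_atTop 0] with n hn hn0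
  have hzt := zt_eq hn.le
  have hd : dzt ζ.im (ζ.re + X / √(n : ℝ)) = 1 := by
    unfold dzt
    rw [if_pos hn]
    simp
  unfold EE
  rw [hzt, hd, mul_one]
  set z : ℂ := ζ + ((X / √(n : ℝ) : ℝ) : ℂ) with hzdef
  have him : 0 < z.im := by
    rw [hzdef]
    simpa using h0
  rw [div_eq_mul_one_div (Complex.exp (Real.pi * Complex.I * b * n * z ^ 2) * Complex.sin (2 * Real.pi * z)),
    inv_sin_sq him hn0]
  have e1 : Complex.exp (Real.pi * Complex.I * b * X ^ 2) =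
      Complex.exp (-(n * (Real.pi * Complex.I * b * ζ ^ 2 +
        2 * Real.pi * Complex.I * ζ) + √(n : ℝ) * (2 * Real.pi * Complex.I * (b * ζ + 1)) * X)) *
      Complex.exp (Real.pi * Complex.I * b * n * z ^ 2) *
      Complex.exp (2 * Real.pi * Complex.I * n * z) := by
    rw [← Complex.exp_add, ← Complex.exp_add]
    congr 1
    have k1 := sq_expand hn0 ζ X
    rw [← hzdef] at k1
    have k2 : (n : ℂ) * z = n * ζ + (√(n : ℝ) : ℝ) * X := by
      rw [hzdef, mul_add]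
      congr 1
      have hs : ((√(n : ℝ) : ℝ) : ℂ) ≠ 0 := by
        rw [Complex.ofReal_ne_zero]
        positivity
      rw [← sqrt_cast_sq hn0]
      push_cast
      field_simp
    linear_combination (-(Real.pi * Complex.I * b)) * k1 - 2 * Real.pi * Complex.I * k2
  rw [e1]
  ring

/-- mixed second derivative -/
noncomputable def twz (w ζ : ℂ) : ℂ := ph' (w + 1 / 2 + ζ) - ph' (w + 1 / 2 - ζ)

/-- second derivative with respect to `ζ` -/
noncomputable def tzz (w ζ : ℂ) : ℂ := ph' (w + 1 / 2 + ζ) + ph' (w + 1 / 2 - ζ)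

/-- second derivative with respect to `w` -/
noncomputable def tww (w ζ ζ' : ℂ) : ℂ := tzz w ζ + tzz w ζ' - 4 * ph' w

/-! ### second order expansion -/

theorem Fh_taylor_loc {z : ℂ} (hz : z ∈ strip) {ε : ℝ} (hε : 0 < ε) : ∃ δ : ℝ, 0 < δ ∧ ∀ u : ℂ,
    ‖u‖ < δ → ‖Fh (z + u) - Fh z - ph z * u - ph' z * u ^ 2 / 2‖ ≤ ε * ‖u‖ ^ 2 := by
  have h1 := hasDerivAt_ph hz
  rw [hasDerivAt_iff_isLittleO, Asymptotics.isLittleO_iff] at h1
  have h2 := h1 hε
  rw [Metric.eventually_nhds_iff] at h2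
  obtain ⟨δ₁, hδ₁, h2⟩ := h2
  obtain ⟨δ₂, hδ₂, h3⟩ := Metric.isOpen_iff.mp strip_open z hz
  refine ⟨min δ₁ δ₂, lt_min hδ₁ hδ₂, ?_⟩
  intro u hu
  have hball : ∀ v ∈ Metric.closedBall (0 : ℂ) ‖u‖, dist (z + v) z < δ₁ ∧ z + v ∈ strip := by
    intro v hv
    have hv' : ‖v‖ ≤ ‖u‖ := by simpa using hv
    have hd : dist (z + v) z = ‖v‖ := by
      rw [Complex.dist_eq]
      simp
    refine ⟨?_, h3 ?_⟩
    · rw [hd]
      exact (hv'.trans_lt hu).trans_le (min_le_left _ _)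
    · rw [Metric.mem_ball, hd]
      exact (hv'.trans_lt hu).trans_le (min_le_right _ _)
  have hder : ∀ v ∈ Metric.closedBall (0 : ℂ) ‖u‖, HasDerivWithinAt
      (fun v => Fh (z + v) - Fh z - ph z * v - ph' z * v ^ 2 / 2)
      (ph (z + v) - ph z - ph' z * v) (Metric.closedBall (0 : ℂ) ‖u‖) v := by
    intro v hv
    have k1 : HasDerivAt (fun v : ℂ => Fh (z + v)) (ph (z + v)) v := by
      have := (hasDerivAt_Fh (hball v hv).2).comp_const_add z v
      exact this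
    have k2 : HasDerivAt (fun v : ℂ => ph z * v) (ph z) v := by
      simpa using (hasDerivAt_id v).const_mul (ph z)
    have k3 : HasDerivAt (fun v : ℂ => ph' z * v ^ 2 / 2) (ph' z * v) v := by
      have := ((hasDerivAt_pow 2 v).const_mul (ph' z)).div_const 2
      refine this.congr_deriv ?_
      push_cast
      ring
    exact (((k1.sub_const (Fh z)).sub k2).sub k3).hasDerivWithinAt
  have hbd : ∀ v ∈ Metric.closedBall (0 : ℂ) ‖u‖, ‖ph (z + v) - ph z - ph' z * v‖ ≤ ε * ‖u‖ := by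
    intro v hv
    have h4 := h2 (hball v hv).1
    have e : z + v - z = v := by ring
    rw [e, smul_eq_mul] at h4
    have hv' : ‖v‖ ≤ ‖u‖ := by simpa using hv
    calc ‖ph (z + v) - ph z - ph' z * v‖ = ‖ph (z + v) - ph z - v * ph' z‖ := by
          rw [mul_comm v]
      _ ≤ ε * ‖v‖ := h4
      _ ≤ ε * ‖u‖ := by gcongr
  have h5 := Convex.norm_image_sub_le_of_norm_hasDerivWithin_le hder hbd
    (convex_closedBall (0 : ℂ) ‖u‖) (x := 0) (y := u) (by simp) (by simp)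
  simp only [add_zero, mul_zero, sub_zero, sub_self, ne_eq, OfNat.ofNat_ne_zero, not_false_eq_true,
    zero_pow, zero_div] at h5
  calc _ ≤ ε * ‖u‖ * ‖u‖ := h5
    _ = ε * ‖u‖ ^ 2 := by ring

theorem Fh_quad {z : ℂ} (hz : z ∈ strip) (h : ℝ) :
    Tendsto (fun n : ℕ => (n : ℂ) * (Fh (z + ((h / √(n : ℝ) : ℝ) : ℂ)) - Fh z) -
      (√(n : ℝ) : ℝ) * (ph z * h)) atTop (𝓝 (ph' z * h ^ 2 / 2)) := by
  rw [Metric.tendsto_atTop']
  intro ε hε
  obtain ⟨δ, hδ, hd⟩ := Fh_taylor_loc hz (ε := ε / (2 * (h ^ 2 + 1))) (by positivity)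
  have h1 : ∀ᶠ n : ℕ in atTop, ‖((h / √(n : ℝ) : ℝ) : ℂ)‖ < δ := by
    have := (div_sqrt_tendsto_c h).norm
    rw [norm_zero] at this
    exact this.eventually_lt_const hδ
  obtain ⟨N, hN⟩ := eventually_atTop.mp h1
  refine ⟨N, fun n hn => ?_⟩
  have hn0 : 0 < n := by omega
  have h2 := hd _ (hN n hn.le)
  set u : ℂ := ((h / √(n : ℝ) : ℝ) : ℂ) with hu
  have hs : ((√(n : ℝ) : ℝ) : ℂ) ≠ 0 := by
    rw [Complex.ofReal_ne_zero]
    positivity
  have e1 : (n : ℂ) * u = (√(n : ℝ) : ℝ) * h := by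
    rw [hu, ← sqrt_cast_sq hn0]
    push_cast
    field_simp
  have e2 : (n : ℂ) * u ^ 2 = h ^ 2 := by
    rw [hu, ← sqrt_cast_sq hn0]
    push_cast
    field_simp
  rw [Complex.dist_eq]
  have e3 : (n : ℂ) * (Fh (z + u) - Fh z) - (√(n : ℝ) : ℝ) * (ph z * h) - ph' z * h ^ 2 / 2 =
      n * (Fh (z + u) - Fh z - ph z * u - ph' z * u ^ 2 / 2) := by
    linear_combination ph z * e1 + (ph' z / 2) * e2
  have hun : ‖u‖ ^ 2 = h ^ 2 / n := by
    rw [hu, Complex.norm_real, Real.norm_eq_abs, sq_abs, div_pow, Real.sq_sqrt (by positivity)]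
  rw [e3, norm_mul, Complex.norm_natCast]
  have hnp : (0 : ℝ) < n := by exact_mod_cast hn0
  calc (n : ℝ) * ‖Fh (z + u) - Fh z - ph z * u - ph' z * u ^ 2 / 2‖ ≤
        n * (ε / (2 * (h ^ 2 + 1)) * ‖u‖ ^ 2) := by gcongr
    _ = ε / 2 * (h ^ 2 / (h ^ 2 + 1)) := by
        rw [hun]
        field_simp
    _ ≤ ε / 2 * 1 := by
        gcongr
        rw [div_le_one (by positivity)]
        linarith only []
    _ < ε := by linarith only [hε]

theorem tp_quad {w ζ ζ' : ℂ} (h0 : 0 < w.re) (h1 : w.re ≤ 3 / 8) (h2 : |ζ.re| ≤ 1 / 16)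
    (h3 : |ζ'.re| ≤ 1 / 16) (Y X X' : ℝ) :
    Tendsto (fun n : ℕ => (n : ℂ) * (tp (w + ((Y / √(n : ℝ) : ℝ) : ℂ)) (ζ + ((X / √(n : ℝ) : ℝ) : ℂ))
      (ζ' + ((X' / √(n : ℝ) : ℝ) : ℂ)) - tp w ζ ζ') -
      (√(n : ℝ) : ℝ) * (tw w ζ ζ' * Y + tz w ζ * X + tz w ζ' * X')) atTop
      (𝓝 (tww w ζ ζ' * Y ^ 2 / 2 + tzz w ζ * X ^ 2 / 2 + tzz w ζ' * X' ^ 2 / 2 +
        (twz w ζ * X + twz w ζ' * X') * Y)) := by
  rw [abs_le] at h2 h3
  have m1 : w + 1 / 2 + ζ ∈ strip := by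
    refine ⟨?_, ?_⟩ <;> simp only [Complex.add_re] <;> norm_num <;> linarith only [h0, h1, h2, h2.1, h2.2]
  have m2 : w + 1 / 2 - ζ ∈ strip := by
    refine ⟨?_, ?_⟩ <;> simp only [Complex.add_re, Complex.sub_re] <;> norm_num <;>
      linarith only [h0, h1, h2, h2.1, h2.2]
  have m3 : w + 1 / 2 + ζ' ∈ strip := by
    refine ⟨?_, ?_⟩ <;> simp only [Complex.add_re] <;> norm_num <;> linarith only [h0, h1, h3, h3.1, h3.2]
  have m4 : w + 1 / 2 - ζ' ∈ strip := by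
    refine ⟨?_, ?_⟩ <;> simp only [Complex.add_re, Complex.sub_re] <;> norm_num <;>
      linarith only [h0, h1, h3, h3.1, h3.2]
  have m5 : w ∈ strip := ⟨h0, by linarith only [h0, h1]⟩
  have k1 := Fh_quad m1 (Y + X)
  have k2 := Fh_quad m2 (Y - X)
  have k3 := Fh_quad m3 (Y + X')
  have k4 := Fh_quad m4 (Y - X')
  have k5 := Fh_quad m5 Y
  have k := (((k1.add k2).add k3).add k4).sub (k5.const_mul 4)
  have e : tww w ζ ζ' * Y ^ 2 / 2 + tzz w ζ * X ^ 2 / 2 + tzz w ζ' * X' ^ 2 / 2 +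
        (twz w ζ * X + twz w ζ' * X') * Y =
      ph' (w + 1 / 2 + ζ) * ((Y + X : ℝ) : ℂ) ^ 2 / 2 + ph' (w + 1 / 2 - ζ) * ((Y - X : ℝ) : ℂ) ^ 2 / 2 +
      ph' (w + 1 / 2 + ζ') * ((Y + X' : ℝ) : ℂ) ^ 2 / 2 +
      ph' (w + 1 / 2 - ζ') * ((Y - X' : ℝ) : ℂ) ^ 2 / 2 - 4 * (ph' w * Y ^ 2 / 2) := by
    unfold tww tzz twz
    push_cast
    ring
  rw [e]
  refine k.congr fun n => ?_
  unfold tp tw tz
  have a1 : w + ((Y / √(n : ℝ) : ℝ) : ℂ) + 1 / 2 + (ζ + ((X / √(n : ℝ) : ℝ) : ℂ)) =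
      w + 1 / 2 + ζ + (((Y + X) / √(n : ℝ) : ℝ) : ℂ) := by
    push_cast
    ring
  have a2 : w + ((Y / √(n : ℝ) : ℝ) : ℂ) + 1 / 2 - (ζ + ((X / √(n : ℝ) : ℝ) : ℂ)) =
      w + 1 / 2 - ζ + (((Y - X) / √(n : ℝ) : ℝ) : ℂ) := by
    push_cast
    ring
  have a3 : w + ((Y / √(n : ℝ) : ℝ) : ℂ) + 1 / 2 + (ζ' + ((X' / √(n : ℝ) : ℝ) : ℂ)) =
      w + 1 / 2 + ζ' + (((Y + X') / √(n : ℝ) : ℝ) : ℂ) := by
    push_cast
    ring
  have a4 : w + ((Y / √(n : ℝ) : ℝ) : ℂ) + 1 / 2 - (ζ' + ((X' / √(n : ℝ) : ℝ) : ℂ)) =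
      w + 1 / 2 - ζ' + (((Y - X') / √(n : ℝ) : ℝ) : ℂ) := by
    push_cast
    ring
  rw [a1, a2, a3, a4]
  push_cast
  ring

/-! ### the centre -/

theorem tp_near {ε : ℝ} (hε : 0 < ε) : ∃ η : ℝ, 0 < η ∧ η ≤ 1 / 16 ∧ ∀ w ζ ζ' : ℂ,
    ‖w - 1 / 4‖ ≤ η → ‖ζ‖ ≤ η → ‖ζ'‖ ≤ η → ‖tp w ζ ζ' - ((ts : ℝ) : ℂ)‖ ≤ ε := by
  have hc : ContinuousOn (fun p : ℂ × ℂ × ℂ => tp p.1 p.2.1 p.2.2) Kc := by
    refine tp_continuousOn.mono ?_
    rintro p ⟨h1, h2, _, h4, h5⟩
    exact ⟨by linarith only [h1], h2, (Complex.abs_re_le_norm _).trans h4, (Complex.abs_re_le_norm _).trans h5⟩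
  have hu := Kc_compact.uniformContinuousOn_of_continuous hc
  rw [Metric.uniformContinuousOn_iff] at hu
  obtain ⟨δ, hδ, hd⟩ := hu ε hε
  refine ⟨min (δ / 2) (1 / 16), by positivity, min_le_right _ _, ?_⟩
  intro w ζ ζ' h1 h2 h3
  have g1 : min (δ / 2) (1 / 16) ≤ δ / 2 := min_le_left _ _
  have g2 : min (δ / 2) (1 / 16 : ℝ) ≤ 1 / 16 := min_le_right _ _
  have a1 := (Complex.abs_re_le_norm (w - 1 / 4)).trans (h1.trans g2)
  have a2 := (Complex.abs_im_le_norm (w - 1 / 4)).trans (h1.trans g2)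
  have r1 : (w - 1 / 4).re = w.re - 1 / 4 := by
    simp
  have r2 : (w - 1 / 4).im = w.im := by
    simp
  rw [r1, abs_le] at a1
  rw [r2] at a2
  have h := hd (w, ζ, ζ') ⟨by linarith only [a1, a1.1], by linarith only [a1, a1.2], a2, h2.trans g2, h3.trans g2⟩
    (1 / 4, 0, 0) ⟨by norm_num, by norm_num, by norm_num, by simp, by simp⟩ (by
      rw [Prod.dist_eq, Prod.dist_eq]
      simp only [dist_zero_right, Complex.dist_eq]
      refine max_lt ?_ (max_lt ?_ ?_)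
      · linarith only [hδ, h1, g1]
      · linarith only [hδ, h2, g1]
      · linarith only [hδ, h3, g1])
  rw [Complex.dist_eq] at h
  simp only at h
  rw [tp_center] at h
  exact h.le

theorem ph_bdd : ∃ P : ℝ, 0 ≤ P ∧ ∀ w : ℂ, 1 / 8 ≤ w.re → w.re ≤ 3 / 8 → |w.im| ≤ 1 / 16 →
    ‖ph w‖ ≤ P := by
  have h1 : IsCompact ((Set.Icc (1 / 8 : ℝ) (3 / 8)) ×ℂ (Set.Icc (-(1 / 16) : ℝ) (1 / 16))) :=
    isCompact_Icc.reProdIm isCompact_Icc
  have h2 : ContinuousOn ph ((Set.Icc (1 / 8 : ℝ) (3 / 8)) ×ℂ (Set.Icc (-(1 / 16) : ℝ) (1 / 16))) := by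
    intro w hw
    rw [Complex.mem_reProdIm] at hw
    exact (continuousAt_ph ⟨by linarith only [hw, hw.1.1], by linarith only [hw, hw.1.2]⟩).continuousWithinAt
  obtain ⟨P, hP⟩ := h1.exists_bound_of_continuousOn h2
  refine ⟨max P 0, le_max_right _ _, ?_⟩
  intro w a1 a2 a3
  refine (hP w ?_).trans (le_max_left _ _)
  rw [Complex.mem_reProdIm]
  exact ⟨⟨a1, a2⟩, abs_le.mp a3⟩

theorem ph'_quarter : ph' (1 / 4) = Real.pi := by
  unfold ph'
  have e : (Real.pi : ℂ) * (1 / 4) = ((Real.pi / 4 : ℝ) : ℂ) := by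
    push_cast
    ring
  rw [e, ← Complex.ofReal_cos, ← Complex.ofReal_sin, Real.cos_pi_div_four, Real.sin_pi_div_four]
  have : ((√2 / 2 : ℝ) : ℂ) ≠ 0 := by
    rw [Complex.ofReal_ne_zero]
    positivity
  field_simp

theorem ph'_one_sub (z : ℂ) : ph' (1 - z) = -ph' z := by
  unfold ph'
  rw [show (Real.pi : ℂ) * (1 - z) = Real.pi - Real.pi * z by ring, Complex.sin_pi_sub,
    Complex.cos_pi_sub]
  ring

theorem tww_center : tww (1 / 4) 0 0 = -(8 * Real.pi) := by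
  have h : ph' (3 / 4) = -Real.pi := by
    rw [show (3 / 4 : ℂ) = 1 - 1 / 4 by norm_num, ph'_one_sub, ph'_quarter]
  unfold tww tzz
  rw [show (1 / 4 + 1 / 2 + 0 : ℂ) = 3 / 4 by norm_num, show (1 / 4 + 1 / 2 - 0 : ℂ) = 3 / 4 by norm_num,
    h, ph'_quarter]
  ring

theorem tww_near : ∃ η : ℝ, 0 < η ∧ ∀ w ζ ζ' : ℂ, ‖w - 1 / 4‖ ≤ η → ‖ζ‖ ≤ η → ‖ζ'‖ ≤ η →
    (tww w ζ ζ').re < 0 := by
  have hc : ContinuousAt (fun p : ℂ × ℂ × ℂ => (tww p.1 p.2.1 p.2.2).re) (1 / 4, 0, 0) := by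
    apply Complex.continuous_re.continuousAt.comp
    have m : (3 / 4 : ℂ) ∈ strip := ⟨by norm_num, by norm_num⟩
    have m' : (1 / 4 : ℂ) ∈ strip := ⟨by norm_num, by norm_num⟩
    have k1 : ContinuousAt (fun p : ℂ × ℂ × ℂ => ph' (p.1 + 1 / 2 + p.2.1)) (1 / 4, 0, 0) := by
      apply ContinuousAt.comp (g := ph') (f := fun p : ℂ × ℂ × ℂ => p.1 + 1 / 2 + p.2.1)
      · simp only
        rw [show (1 / 4 + 1 / 2 + 0 : ℂ) = 3 / 4 by norm_num]
        exact continuousAt_ph' m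
      · fun_prop
    have k2 : ContinuousAt (fun p : ℂ × ℂ × ℂ => ph' (p.1 + 1 / 2 - p.2.1)) (1 / 4, 0, 0) := by
      apply ContinuousAt.comp (g := ph') (f := fun p : ℂ × ℂ × ℂ => p.1 + 1 / 2 - p.2.1)
      · simp only
        rw [show (1 / 4 + 1 / 2 - 0 : ℂ) = 3 / 4 by norm_num]
        exact continuousAt_ph' m
      · fun_prop
    have k3 : ContinuousAt (fun p : ℂ × ℂ × ℂ => ph' (p.1 + 1 / 2 + p.2.2)) (1 / 4, 0, 0) := by
      apply ContinuousAt.comp (g := ph') (f := fun p : ℂ × ℂ × ℂ => p.1 + 1 / 2 + p.2.2)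
      · simp only
        rw [show (1 / 4 + 1 / 2 + 0 : ℂ) = 3 / 4 by norm_num]
        exact continuousAt_ph' m
      · fun_prop
    have k4 : ContinuousAt (fun p : ℂ × ℂ × ℂ => ph' (p.1 + 1 / 2 - p.2.2)) (1 / 4, 0, 0) := by
      apply ContinuousAt.comp (g := ph') (f := fun p : ℂ × ℂ × ℂ => p.1 + 1 / 2 - p.2.2)
      · simp only
        rw [show (1 / 4 + 1 / 2 - 0 : ℂ) = 3 / 4 by norm_num]
        exact continuousAt_ph' m
      · fun_prop
    have k5 : ContinuousAt (fun p : ℂ × ℂ × ℂ => ph' p.1) (1 / 4, 0, 0) := by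
      apply ContinuousAt.comp (g := ph') (f := fun p : ℂ × ℂ × ℂ => p.1)
      · exact continuousAt_ph' m'
      · fun_prop
    exact ((k1.add k2).add (k3.add k4)).sub (continuousAt_const.mul k5)
  have h0 : (fun p : ℂ × ℂ × ℂ => (tww p.1 p.2.1 p.2.2).re) (1 / 4, 0, 0) < 0 := by
    simp only
    rw [tww_center]
    simp
    positivity
  have h1 := hc.eventually_lt_const h0
  rw [Metric.eventually_nhds_iff] at h1
  obtain ⟨δ, hδ, hd⟩ := h1
  refine ⟨δ / 2, by positivity, ?_⟩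
  intro w ζ ζ' a1 a2 a3
  refine hd (y := (w, ζ, ζ')) ?_
  rw [Prod.dist_eq, Prod.dist_eq]
  simp only [dist_zero_right, Complex.dist_eq]
  refine max_lt ?_ (max_lt ?_ ?_) <;> linarith only [hδ, a1, a2, a3]

/-! ### domination -/

theorem dom : ∃ η c C : ℝ, 0 < η ∧ η ≤ 1 / 32 ∧ 0 < c ∧ ∀ w ζ ζ' : ℂ, tw w ζ ζ' = 0 →
    ‖w - 1 / 4‖ ≤ η → ‖ζ‖ ≤ η → ‖ζ'‖ ≤ η → ∀ X X' : ℝ, ∀ᶠ n : ℕ in atTop, ∀ Y : ℝ,
    1 / 8 ≤ w.re + Y / √(n : ℝ) → w.re + Y / √(n : ℝ) ≤ 3 / 8 →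
    (Tn n (w + ((Y / √(n : ℝ) : ℝ) : ℂ)) (ζ + ((X / √(n : ℝ) : ℝ) : ℂ))
      (ζ' + ((X' / √(n : ℝ) : ℝ) : ℂ)) -
      (n * tp w ζ ζ' + (√(n : ℝ) : ℝ) * (tz w ζ * X + tz w ζ' * X'))).re ≤ C - c * Y ^ 2 := by
  obtain ⟨r, hr, hr', hconc⟩ := conc
  obtain ⟨ε₁, c₁, hε₁, hε₁', hc₁, hmid⟩ := tp_mid (δ := r / 4) (by positivity)
  obtain ⟨η₂, hη₂, hη₂', hcl⟩ := tp_near (ε := c₁ / 4) (by positivity)
  obtain ⟨D, hD, hexp⟩ := Tn_expand
  obtain ⟨P, hP, hph⟩ := ph_bdd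
  refine ⟨min (r / 4) (min (ε₁ / 2) (min η₂ (1 / 32))), min 1 (c₁ / 2), 2 * P + D, by positivity,
    (min_le_right _ _).trans ((min_le_right _ _).trans (min_le_right _ _)), by positivity, ?_⟩
  intro w ζ ζ' hcrit h1 h2 h3 X X'
  set η := min (r / 4) (min (ε₁ / 2) (min η₂ (1 / 32))) with hη
  have g1 : η ≤ r / 4 := min_le_left _ _
  have g2 : η ≤ ε₁ / 2 := (min_le_right _ _).trans (min_le_left _ _)
  have g3 : η ≤ η₂ := (min_le_right _ _).trans ((min_le_right _ _).trans (min_le_left _ _))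
  have g4 : η ≤ 1 / 32 := (min_le_right _ _).trans ((min_le_right _ _).trans (min_le_right _ _))
  have him : |w.im| ≤ η := by
    have := (Complex.abs_im_le_norm (w - 1 / 4)).trans h1
    simpa using this
  have hre : |w.re - 1 / 4| ≤ η := by
    have := (Complex.abs_re_le_norm (w - 1 / 4)).trans h1
    simpa using this
  set K := |(tz w ζ * X + tz w ζ' * X').re| with hK
  have b1 : ∀ᶠ n : ℕ in atTop, ‖((X / √(n : ℝ) : ℝ) : ℂ)‖ < min (r / 4) (min (ε₁ / 2) (1 / 32)) := by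
    have := (div_sqrt_tendsto_c X).norm
    rw [norm_zero] at this
    exact this.eventually_lt_const (by positivity)
  have b2 : ∀ᶠ n : ℕ in atTop, ‖((X' / √(n : ℝ) : ℝ) : ℂ)‖ < min (r / 4) (min (ε₁ / 2) (1 / 32)) := by
    have := (div_sqrt_tendsto_c X').norm
    rw [norm_zero] at this
    exact this.eventually_lt_const (by positivity)
  have b3 : ∀ᶠ n : ℕ in atTop, 4 * K / c₁ ≤ √(n : ℝ) := sqrt_tendsto.eventually_ge_atTop _
  filter_upwards [b1, b2, b3, eventually_ge_atTop 8] with n n1 n2 n3 n8 Y y1 y2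
  have hn0 : 0 < n := by omega
  have hnp : (0 : ℝ) < n := by exact_mod_cast hn0
  have hsp : 0 < √(n : ℝ) := by positivity
  have hss : √(n : ℝ) * √(n : ℝ) = n := Real.mul_self_sqrt hnp.le
  set u : ℝ := X / √(n : ℝ) with hu
  set u' : ℝ := X' / √(n : ℝ) with hu'
  set v : ℝ := Y / √(n : ℝ) with hv
  have eu : √(n : ℝ) * X = n * u := by
    rw [hu, mul_div_assoc', eq_div_iff hsp.ne']
    linear_combination X * hss
  have eu' : √(n : ℝ) * X' = n * u' := by
    rw [hu', mul_div_assoc', eq_div_iff hsp.ne']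
    linear_combination X' * hss
  have ev : Y ^ 2 = n * v ^ 2 := by
    rw [hv, div_pow, Real.sq_sqrt hnp.le]
    field_simp
  have m1 : min (r / 4) (min (ε₁ / 2) (1 / 32)) ≤ r / 4 := min_le_left _ _
  have m2 : min (r / 4) (min (ε₁ / 2) (1 / 32)) ≤ ε₁ / 2 := (min_le_right _ _).trans (min_le_left _ _)
  have m3 : min (r / 4) (min (ε₁ / 2) (1 / 32)) ≤ 1 / 32 := (min_le_right _ _).trans (min_le_right _ _)
  have z1 : ‖ζ + (u : ℂ)‖ ≤ ‖ζ‖ + ‖(u : ℂ)‖ := norm_add_le _ _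
  have z2 : ‖ζ' + (u' : ℂ)‖ ≤ ‖ζ'‖ + ‖(u' : ℂ)‖ := norm_add_le _ _
  have wre : (w + (v : ℂ)).re = w.re + v := by simp
  have wim : (w + (v : ℂ)).im = w.im := by simp
  -- the expansion
  have hE := hexp n n8 (w + (v : ℂ)) (ζ + (u : ℂ)) (ζ' + (u' : ℂ)) (by rw [wre]; exact y1)
    (by rw [wre]; exact y2) ((Complex.abs_re_le_norm _).trans (by linarith only [hr, hr', h2, g1, n1, m1, z1]))
    ((Complex.abs_re_le_norm _).trans (by linarith only [hr, hr', h3, g1, n2, m1, z2]))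
  have hE2 := (Complex.re_le_norm _).trans hE
  have hDn : D / n ≤ D := div_le_self hD (by exact_mod_cast hn0)
  have hph2 := (Complex.abs_re_le_norm _).trans (hph (w + (v : ℂ)) (by rw [wre]; exact y1)
    (by rw [wre]; exact y2) (by rw [wim]; linarith only [hr, hr', g1, him]))
  rw [abs_le] at hph2
  have e1 : (Tn n (w + (v : ℂ)) (ζ + (u : ℂ)) (ζ' + (u' : ℂ)) -
      (n * tp (w + (v : ℂ)) (ζ + (u : ℂ)) (ζ' + (u' : ℂ)) - 2 * ph (w + (v : ℂ)))).re =
      (Tn n (w + (v : ℂ)) (ζ + (u : ℂ)) (ζ' + (u' : ℂ))).re -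
      (n * (tp (w + (v : ℂ)) (ζ + (u : ℂ)) (ζ' + (u' : ℂ))).re - 2 * (ph (w + (v : ℂ))).re) := by
    simp
  rw [e1] at hE2
  have e2 : (Tn n (w + (v : ℂ)) (ζ + (u : ℂ)) (ζ' + (u' : ℂ)) -
      (n * tp w ζ ζ' + (√(n : ℝ) : ℝ) * (tz w ζ * X + tz w ζ' * X'))).re =
      (Tn n (w + (v : ℂ)) (ζ + (u : ℂ)) (ζ' + (u' : ℂ))).re -
      (n * (tp w ζ ζ').re + √(n : ℝ) * (tz w ζ * X + tz w ζ' * X').re) := by
    simp
  rw [e2]
  -- the main inequality
  have main : n * (tp (w + (v : ℂ)) (ζ + (u : ℂ)) (ζ' + (u' : ℂ))).re - (n * (tp w ζ ζ').re +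
      √(n : ℝ) * (tz w ζ * X + tz w ζ' * X').re) ≤ -(min 1 (c₁ / 2) * Y ^ 2) := by
    by_cases hcase : ‖w + (v : ℂ) - 1 / 4‖ ≤ r
    · have h4 := hconc w ζ ζ' v u u' (by linarith only [hr, h1, g1]) (by linarith only [hr, h2, g1]) (by linarith only [hr, h3, g1]) hcase
        (by linarith only [hr, h2, g1, n1, m1, z1]) (by linarith only [hr, h3, g1, n2, m1, z2])
      rw [hcrit, Complex.zero_re, zero_mul, add_zero] at h4
      have e3 : (tz w ζ * X + tz w ζ' * X').re = (tz w ζ).re * X + (tz w ζ').re * X' := by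
        simp
      rw [e3]
      have h5 := mul_le_mul_of_nonneg_left h4 hnp.le
      have e4 : √(n : ℝ) * ((tz w ζ).re * X + (tz w ζ').re * X') =
          n * ((tz w ζ).re * u + (tz w ζ').re * u') := by
        linear_combination (tz w ζ).re * eu + (tz w ζ').re * eu'
      rw [e4]
      have h6 : min 1 (c₁ / 2) * Y ^ 2 ≤ n * v ^ 2 := by
        rw [ev]
        have : min 1 (c₁ / 2) ≤ 1 := min_le_left _ _
        exact mul_le_of_le_one_left (by positivity) this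
      have h7 : 0 ≤ (n : ℝ) * u ^ 2 := by positivity
      have h8 : 0 ≤ (n : ℝ) * u' ^ 2 := by positivity
      linarith only [h5, h6, h7, h8]
    · rw [not_le] at hcase
      have h4 : r / 4 ≤ |(w + (v : ℂ)).re - 1 / 4| := by
        have h5 := Complex.norm_le_abs_re_add_abs_im (w + (v : ℂ) - 1 / 4)
        have e5 : (w + (v : ℂ) - 1 / 4).re = (w + (v : ℂ)).re - 1 / 4 := by
          simp
        have e6 : (w + (v : ℂ) - 1 / 4).im = w.im := by
          simp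
        rw [e5, e6] at h5
        linarith only [hr, g1, him, hcase, h5]
      have h6 := hmid (w + (v : ℂ)) (ζ + (u : ℂ)) (ζ' + (u' : ℂ)) (by rw [wre]; exact y1)
        (by rw [wre]; exact y2) h4 (by rw [wim]; linarith only [hε₁, g2, him]) (by linarith only [h2, g2, n1, m2, z1]) (by linarith only [h3, g2, n2, m2, z2])
      have h7 := hcl w ζ ζ' (h1.trans g3) (h2.trans g3) (h3.trans g3)
      have h8 := (Complex.abs_re_le_norm _).trans h7
      rw [Complex.sub_re, Complex.ofReal_re, abs_le] at h8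
      have h9 : √(n : ℝ) * K ≤ c₁ / 4 * n := by
        have : 4 * K ≤ c₁ * √(n : ℝ) := by
          have := n3
          rw [div_le_iff₀ hc₁] at this
          linarith only [this]
        calc √(n : ℝ) * K = √(n : ℝ) * (4 * K) / 4 := by ring
          _ ≤ √(n : ℝ) * (c₁ * √(n : ℝ)) / 4 := by gcongr
          _ = c₁ / 4 * (√(n : ℝ) * √(n : ℝ)) := by ring
          _ = c₁ / 4 * n := by rw [hss]
      have h10 : -(√(n : ℝ) * (tz w ζ * X + tz w ζ' * X').re) ≤ √(n : ℝ) * K := by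
        rw [← mul_neg, hK]
        exact mul_le_mul_of_nonneg_left (neg_le_abs _) hsp.le
      have h11 : min 1 (c₁ / 2) * Y ^ 2 ≤ c₁ / 2 * n := by
        have hv1 : |v| ≤ 1 := by
          rw [abs_le] at hre ⊢
          constructor <;> linarith only [hr, hr', g1, hre, y1, y2, hre.1, hre.2]
        have hv2 : v ^ 2 ≤ 1 := by
          rw [← sq_abs]
          exact pow_le_one₀ (abs_nonneg v) hv1
        rw [ev]
        have : min 1 (c₁ / 2) ≤ c₁ / 2 := min_le_right _ _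
        calc min 1 (c₁ / 2) * (n * v ^ 2) ≤ c₁ / 2 * (n * 1) := by gcongr
          _ = c₁ / 2 * n := by ring
      have h12 : n * (tp (w + (v : ℂ)) (ζ + (u : ℂ)) (ζ' + (u' : ℂ))).re ≤ n * (ts - c₁) := by
        gcongr
      have h13 : (n : ℝ) * (ts - c₁ / 4) ≤ n * (tp w ζ ζ').re := by
        gcongr
        linarith only [h8, h8.1]
      linarith only [h9, h10, h11, h12, h13]
  linarith only [hE2, hDn, hph2, main, hph2.1, hph2.2]

/-! ### the limit of the main part -/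

/-- the exponent on the scale `1/√n` -/
noncomputable def EX (n : ℕ) (w ζ ζ' : ℂ) (X X' Y : ℝ) : ℂ :=
  Tn n (w + ((Y / √(n : ℝ) : ℝ) : ℂ)) (ζ + ((X / √(n : ℝ) : ℝ) : ℂ))
    (ζ' + ((X' / √(n : ℝ) : ℝ) : ℂ)) -
    (n * tp w ζ ζ' + (√(n : ℝ) : ℝ) * (tz w ζ * X + tz w ζ' * X'))

/-- the limit of the exponent -/
noncomputable def QX (w ζ ζ' : ℂ) (X X' Y : ℝ) : ℂ :=
  tww w ζ ζ' * Y ^ 2 / 2 + tzz w ζ * X ^ 2 / 2 + tzz w ζ' * X' ^ 2 / 2 +
    (twz w ζ * X + twz w ζ' * X') * Y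

theorem eventually_small {ζ : ℂ} (h : ‖ζ‖ ≤ 1 / 32) (X : ℝ) :
    ∀ᶠ n : ℕ in atTop, |(ζ + ((X / √(n : ℝ) : ℝ) : ℂ)).re| ≤ 1 / 16 := by
  have h1 := (div_sqrt_tendsto_c X).norm
  rw [norm_zero] at h1
  filter_upwards [h1.eventually_lt_const (show (0 : ℝ) < 1 / 32 by norm_num)] with n hn
  refine (Complex.abs_re_le_norm _).trans ((norm_add_le _ _).trans ?_)
  linarith only [h, hn]

theorem EX_lim {w ζ ζ' : ℂ} (hcrit : tw w ζ ζ' = 0) (h1 : ‖w - 1 / 4‖ ≤ 1 / 32) (h2 : ‖ζ‖ ≤ 1 / 32)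
    (h3 : ‖ζ'‖ ≤ 1 / 32) (X X' Y : ℝ) :
    Tendsto (fun n : ℕ => EX n w ζ ζ' X X' Y) atTop (𝓝 (-(2 * ph w) + QX w ζ ζ' X X' Y)) := by
  obtain ⟨D, hD, hexp⟩ := Tn_expand
  have hre : |w.re - 1 / 4| ≤ 1 / 32 := by
    have := (Complex.abs_re_le_norm (w - 1 / 4)).trans h1
    simpa using this
  rw [abs_le] at hre
  have hwn : Tendsto (fun n : ℕ => w + ((Y / √(n : ℝ) : ℝ) : ℂ)) atTop (𝓝 w) := by
    simpa using (div_sqrt_tendsto_c Y).const_add w
  have k1 : Tendsto (fun n : ℕ => ph (w + ((Y / √(n : ℝ) : ℝ) : ℂ))) atTop (𝓝 (ph w)) :=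
    (continuousAt_ph ⟨by linarith only [hre], by linarith only [hre]⟩).tendsto.comp hwn
  have k2 := tp_quad (w := w) (ζ := ζ) (ζ' := ζ') (by linarith only [hre]) (by linarith only [hre])
    ((Complex.abs_re_le_norm _).trans (by linarith only [h2])) ((Complex.abs_re_le_norm _).trans (by linarith only [h3]))
    Y X X'
  rw [hcrit] at k2
  have k3 : Tendsto (fun n : ℕ => Tn n (w + ((Y / √(n : ℝ) : ℝ) : ℂ)) (ζ + ((X / √(n : ℝ) : ℝ) : ℂ))
      (ζ' + ((X' / √(n : ℝ) : ℝ) : ℂ)) - (n * tp (w + ((Y / √(n : ℝ) : ℝ) : ℂ))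
      (ζ + ((X / √(n : ℝ) : ℝ) : ℂ)) (ζ' + ((X' / √(n : ℝ) : ℝ) : ℂ)) -
      2 * ph (w + ((Y / √(n : ℝ) : ℝ) : ℂ)))) atTop (𝓝 0) := by
    rw [tendsto_zero_iff_norm_tendsto_zero]
    have hD0 : Tendsto (fun n : ℕ => D / (n : ℝ)) atTop (𝓝 0) :=
      tendsto_natCast_atTop_atTop.const_div_atTop D
    refine squeeze_zero' (Eventually.of_forall fun n => norm_nonneg _) ?_ hD0
    have hv := (div_sqrt_tendsto Y).abs
    rw [abs_zero] at hv
    filter_upwards [eventually_small h2 X, eventually_small h3 X', eventually_ge_atTop 8,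
      hv.eventually_lt_const (show (0 : ℝ) < 1 / 32 by norm_num)] with n n1 n2 n3 n4
    rw [abs_lt] at n4
    have wre : (w + ((Y / √(n : ℝ) : ℝ) : ℂ)).re = w.re + Y / √(n : ℝ) := by
      rw [Complex.add_re, Complex.ofReal_re]
    exact hexp n n3 _ _ _ (by rw [wre]; linarith only [hre, n4, n4.1]) (by rw [wre]; linarith only [hre, n4, n4.2]) n1 n2
  have k := (k3.add k2).sub (k1.const_mul 2)
  rw [zero_add] at k
  have e : -(2 * ph w) + QX w ζ ζ' X X' Y = tww w ζ ζ' * ↑Y ^ 2 / 2 + tzz w ζ * ↑X ^ 2 / 2 +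
      tzz w ζ' * ↑X' ^ 2 / 2 + (twz w ζ * ↑X + twz w ζ' * ↑X') * ↑Y - 2 * ph w := by
    unfold QX
    ring
  rw [e]
  refine k.congr fun n => ?_
  unfold EX
  ring

theorem rpow_three_half {n : ℕ} (hn : 0 < n) : ((n : ℝ) ^ (3 / 2 : ℝ)) = n * √(n : ℝ) := by
  have hnp : (0 : ℝ) < n := by exact_mod_cast hn
  rw [show (3 / 2 : ℝ) = 1 + 1 / 2 by norm_num, Real.rpow_add hnp, Real.rpow_one, Real.sqrt_eq_rpow]

theorem MM_eq {n : ℕ} (hn : 0 < n) (w ζ ζ' : ℂ) (X X' : ℝ) :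
    (((n : ℝ) ^ (3 / 2 : ℝ) : ℝ) : ℂ) *
      Complex.exp (-(n * tp w ζ ζ' + (√(n : ℝ) : ℝ) * (tz w ζ * X + tz w ζ' * X'))) *
      MM n w.im (ζ + ((X / √(n : ℝ) : ℝ) : ℂ)) (ζ' + ((X' / √(n : ℝ) : ℝ) : ℂ)) =
    ∫ Y : ℝ, (Set.Ioc (√(n : ℝ) * (1 / 8 - w.re)) (√(n : ℝ) * (3 / 8 - w.re))).indicator
      (fun Y => Complex.exp (EX n w ζ ζ' X X' Y)) Y := by
  have hnp : (0 : ℝ) < n := by exact_mod_cast hn
  have hsp : 0 < √(n : ℝ) := by positivity
  have hss : √(n : ℝ) * √(n : ℝ) = n := Real.mul_self_sqrt hnp.le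
  have h := intervalIntegral.integral_comp_div_add (a := √(n : ℝ) * (1 / 8 - w.re))
    (b := √(n : ℝ) * (3 / 8 - w.re)) (c := √(n : ℝ))
    (fun x : ℝ => Complex.exp (Tn n ((x : ℂ) + w.im * Complex.I) (ζ + ((X / √(n : ℝ) : ℝ) : ℂ))
      (ζ' + ((X' / √(n : ℝ) : ℝ) : ℂ)))) hsp.ne' w.re
  rw [mul_div_cancel_left₀ _ hsp.ne', mul_div_cancel_left₀ _ hsp.ne', sub_add_cancel,
    sub_add_cancel] at h
  have hle : √(n : ℝ) * (1 / 8 - w.re) ≤ √(n : ℝ) * (3 / 8 - w.re) := by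
    gcongr
    norm_num
  rw [integral_indicator measurableSet_Ioc, ← intervalIntegral.integral_of_le hle]
  have e : ∀ Y : ℝ, Complex.exp (EX n w ζ ζ' X X' Y) =
      Complex.exp (-(n * tp w ζ ζ' + (√(n : ℝ) : ℝ) * (tz w ζ * X + tz w ζ' * X'))) *
      Complex.exp (Tn n (((Y / √(n : ℝ) + w.re : ℝ) : ℂ) + w.im * Complex.I)
        (ζ + ((X / √(n : ℝ) : ℝ) : ℂ)) (ζ' + ((X' / √(n : ℝ) : ℝ) : ℂ))) := by
    intro Y
    rw [← Complex.exp_add]
    congr 1
    unfold EX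
    have : ((Y / √(n : ℝ) + w.re : ℝ) : ℂ) + w.im * Complex.I = w + ((Y / √(n : ℝ) : ℝ) : ℂ) := by
      apply Complex.ext
      · simp
        ring
      · simp
    rw [this]
    ring
  simp_rw [e]
  rw [intervalIntegral.integral_const_mul, h, Complex.real_smul, rpow_three_half hn]
  unfold MM
  push_cast
  have hnc : (n : ℂ) ≠ 0 := by
    exact_mod_cast hn.ne'
  field_simp

theorem MM_lim : ∃ η : ℝ, 0 < η ∧ ∀ w ζ ζ' : ℂ, tw w ζ ζ' = 0 → ‖w - 1 / 4‖ ≤ η →
    ‖ζ‖ ≤ η → ‖ζ'‖ ≤ η → (tww w ζ ζ').re < 0 ∧ ∀ X X' : ℝ,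
    Tendsto (fun n : ℕ => (((n : ℝ) ^ (3 / 2 : ℝ) : ℝ) : ℂ) *
      Complex.exp (-(n * tp w ζ ζ' + (√(n : ℝ) : ℝ) * (tz w ζ * X + tz w ζ' * X'))) *
      MM n w.im (ζ + ((X / √(n : ℝ) : ℝ) : ℂ)) (ζ' + ((X' / √(n : ℝ) : ℝ) : ℂ))) atTop
      (𝓝 (Complex.exp (-(2 * ph w)) * (Real.pi / -(tww w ζ ζ' / 2)) ^ (1 / 2 : ℂ) *
        Complex.exp (tzz w ζ * X ^ 2 / 2 + tzz w ζ' * X' ^ 2 / 2 -
        (twz w ζ * X + twz w ζ' * X') ^ 2 / (2 * tww w ζ ζ')))) := by
  obtain ⟨η₁, c, C, hη₁, hη₁', hc, hdom⟩ := dom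
  obtain ⟨η₂, hη₂, htww⟩ := tww_near
  refine ⟨min η₁ η₂, by positivity, ?_⟩
  intro w ζ ζ' hcrit h1 h2 h3
  have g1 : min η₁ η₂ ≤ η₁ := min_le_left _ _
  have g2 : min η₁ η₂ ≤ η₂ := min_le_right _ _
  have hneg := htww w ζ ζ' (h1.trans g2) (h2.trans g2) (h3.trans g2)
  refine ⟨hneg, ?_⟩
  intro X X'
  have hre : |w.re - 1 / 4| ≤ 1 / 32 := by
    have := (Complex.abs_re_le_norm (w - 1 / 4)).trans (h1.trans (g1.trans hη₁'))
    simpa using this
  rw [abs_le] at hre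
  -- the Gaussian integral
  have hG : ∫ Y : ℝ, Complex.exp (-(2 * ph w) + QX w ζ ζ' X X' Y) =
      Complex.exp (-(2 * ph w)) * (Real.pi / -(tww w ζ ζ' / 2)) ^ (1 / 2 : ℂ) *
        Complex.exp (tzz w ζ * X ^ 2 / 2 + tzz w ζ' * X' ^ 2 / 2 -
        (twz w ζ * X + twz w ζ' * X') ^ 2 / (2 * tww w ζ ζ')) := by
    have hq := integral_cexp_quadratic (b := tww w ζ ζ' / 2) (by
      rw [Complex.div_ofNat_re]
      linarith only [hneg]) (twz w ζ * X + twz w ζ' * X')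
      (-(2 * ph w) + (tzz w ζ * X ^ 2 / 2 + tzz w ζ' * X' ^ 2 / 2))
    have e1 : ∀ Y : ℝ, -(2 * ph w) + QX w ζ ζ' X X' Y = tww w ζ ζ' / 2 * (Y : ℂ) ^ 2 +
        (twz w ζ * X + twz w ζ' * X') * Y +
        (-(2 * ph w) + (tzz w ζ * X ^ 2 / 2 + tzz w ζ' * X' ^ 2 / 2)) := by
      intro Y
      unfold QX
      ring
    simp_rw [e1]
    rw [hq]
    have e2 : -(2 * ph w) + (tzz w ζ * X ^ 2 / 2 + tzz w ζ' * X' ^ 2 / 2) -
        (twz w ζ * X + twz w ζ' * X') ^ 2 / (4 * (tww w ζ ζ' / 2)) =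
        -(2 * ph w) + (tzz w ζ * X ^ 2 / 2 + tzz w ζ' * X' ^ 2 / 2 -
        (twz w ζ * X + twz w ζ' * X') ^ 2 / (2 * tww w ζ ζ')) := by
      rw [show 4 * (tww w ζ ζ' / 2) = 2 * tww w ζ ζ' by ring]
      ring
    rw [e2, Complex.exp_add]
    ring
  rw [← hG]
  -- dominated convergence
  have hlim := tendsto_integral_filter_of_dominated_convergence (μ := volume) (l := atTop)
    (F := fun (n : ℕ) (Y : ℝ) =>
      (Set.Ioc (√(n : ℝ) * (1 / 8 - w.re)) (√(n : ℝ) * (3 / 8 - w.re))).indicator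
      (fun Y => Complex.exp (EX n w ζ ζ' X X' Y)) Y)
    (f := fun Y : ℝ => Complex.exp (-(2 * ph w) + QX w ζ ζ' X X' Y))
    (fun Y => Real.exp C * Real.exp (-c * Y ^ 2)) ?_ ?_ ?_ ?_
  · refine hlim.congr' ?_
    filter_upwards [eventually_gt_atTop 0] with n hn
    exact (MM_eq hn w ζ ζ' X X').symm
  · -- measurability
    filter_upwards [eventually_small (h2.trans (g1.trans hη₁')) X,
      eventually_small (h3.trans (g1.trans hη₁')) X', eventually_ge_atTop 8] with n n1 n2 n3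
    rw [aestronglyMeasurable_indicator_iff measurableSet_Ioc]
    refine ContinuousOn.aestronglyMeasurable ?_ measurableSet_Ioc
    have hn0 : 0 < n := by omega
    have hnp : (0 : ℝ) < n := by exact_mod_cast hn0
    have hsp : 0 < √(n : ℝ) := by positivity
    refine Complex.continuous_exp.comp_continuousOn ?_
    unfold EX
    refine ContinuousOn.sub ?_ continuousOn_const
    have hT := (Tn_continuousOn n3).comp (f := fun Y : ℝ => (w + ((Y / √(n : ℝ) : ℝ) : ℂ),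
      ζ + ((X / √(n : ℝ) : ℝ) : ℂ), ζ' + ((X' / √(n : ℝ) : ℝ) : ℂ)))
      (s := Set.Ioc (√(n : ℝ) * (1 / 8 - w.re)) (√(n : ℝ) * (3 / 8 - w.re))) (by fun_prop) (by
        intro Y hY
        have hY1 : 1 / 8 < w.re + Y / √(n : ℝ) := by
          have := hY.1
          rw [← sub_lt_iff_lt_add', lt_div_iff₀ hsp]
          linarith only [this]
        have hY2 : w.re + Y / √(n : ℝ) ≤ 3 / 8 := by
          have := hY.2
          rw [← le_sub_iff_add_le', div_le_iff₀ hsp]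
          linarith only [this]
        have wre : (w + ((Y / √(n : ℝ) : ℝ) : ℂ)).re = w.re + Y / √(n : ℝ) := by
          rw [Complex.add_re, Complex.ofReal_re]
        refine ⟨?_, ?_, n1, n2⟩
        · simp only [wre]
          linarith only [hη₁, hη₁', hY1]
        · simp only [wre]
          exact hY2)
    exact hT
  · -- the bound
    filter_upwards [hdom w ζ ζ' hcrit (h1.trans g1) (h2.trans g1) (h3.trans g1) X X',
      eventually_gt_atTop 0] with n hn hn0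
    refine Eventually.of_forall fun Y => ?_
    have hnp : (0 : ℝ) < n := by exact_mod_cast hn0
    have hsp : 0 < √(n : ℝ) := by positivity
    by_cases hY : Y ∈ Set.Ioc (√(n : ℝ) * (1 / 8 - w.re)) (√(n : ℝ) * (3 / 8 - w.re))
    · rw [Set.indicator_of_mem hY]
      have hY1 : 1 / 8 ≤ w.re + Y / √(n : ℝ) := by
        have := hY.1
        rw [← sub_le_iff_le_add', le_div_iff₀ hsp]
        linarith only [this]
      have hY2 : w.re + Y / √(n : ℝ) ≤ 3 / 8 := by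
        have := hY.2
        rw [← le_sub_iff_add_le', div_le_iff₀ hsp]
        linarith only [this]
      have h4 := hn Y hY1 hY2
      rw [Complex.norm_exp, ← Real.exp_add]
      refine Real.exp_le_exp.mpr ?_
      unfold EX
      linarith only [h4]
    · rw [Set.indicator_of_notMem hY, norm_zero]
      positivity
  · exact (integrable_exp_neg_mul_sq hc).const_mul _
  · -- pointwise convergence
    refine Eventually.of_forall fun Y => ?_
    have hE := (Complex.continuous_exp.tendsto _).comp (EX_lim hcrit (h1.trans (g1.trans hη₁'))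
      (h2.trans (g1.trans hη₁')) (h3.trans (g1.trans hη₁')) X X' Y)
    refine hE.congr' ?_
    have a1 : ∀ᶠ n : ℕ in atTop, √(n : ℝ) * (1 / 8 - w.re) < Y := by
      have : Tendsto (fun n : ℕ => √(n : ℝ) * (1 / 8 - w.re)) atTop atBot :=
        sqrt_tendsto.atTop_mul_const_of_neg (by linarith only [hη₁, hη₁', hre])
      exact this.eventually_lt_atBot Y
    have a2 : ∀ᶠ n : ℕ in atTop, Y ≤ √(n : ℝ) * (3 / 8 - w.re) := by
      have : Tendsto (fun n : ℕ => √(n : ℝ) * (3 / 8 - w.re)) atTop atTop :=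
        sqrt_tendsto.atTop_mul_const (by linarith only [hη₁, hη₁', hre])
      exact this.eventually_ge_atTop Y
    filter_upwards [a1, a2] with n n1 n2
    have hm : Y ∈ Set.Ioc (√(n : ℝ) * (1 / 8 - w.re)) (√(n : ℝ) * (3 / 8 - w.re)) := ⟨n1, n2⟩
    rw [Set.indicator_of_mem hm]
    rfl

theorem rpow_exp_tendsto {a K : ℝ} (ha : 0 < a) :
    Tendsto (fun n : ℕ => (n : ℝ) ^ (3 / 2 : ℝ) * Real.exp (√(n : ℝ) * K - a * n)) atTop (𝓝 0) := by
  have h1 : Tendsto (fun n : ℕ => (n : ℝ) ^ (3 / 2 : ℝ) * Real.exp (-(a / 2) * n)) atTop (𝓝 0) :=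
    (tendsto_rpow_mul_exp_neg_mul_atTop_nhds_zero (3 / 2) (a / 2) (by positivity)).comp
      tendsto_natCast_atTop_atTop
  refine squeeze_zero' (Eventually.of_forall fun n => by positivity) ?_ h1
  filter_upwards [sqrt_tendsto.eventually_ge_atTop (2 * K / a), eventually_gt_atTop 0] with n hn hn0
  have hnp : (0 : ℝ) < n := by exact_mod_cast hn0
  have hss : √(n : ℝ) * √(n : ℝ) = n := Real.mul_self_sqrt hnp.le
  gcongr
  rw [div_le_iff₀ ha] at hn
  have h2 : √(n : ℝ) * (2 * K) ≤ √(n : ℝ) * (√(n : ℝ) * a) := by gcongr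
  have h3 : √(n : ℝ) * (√(n : ℝ) * a) = n * a := by
    rw [← mul_assoc, hss]
  linarith only [h2, h3]

/-- The limit of the kernel: a Gaussian in `X, X'` with a nonzero constant. -/
theorem SS_lim : ∃ η : ℝ, 0 < η ∧ ∀ w ζ ζ' : ℂ, tw w ζ ζ' = 0 → ‖w - 1 / 4‖ ≤ η →
    ‖ζ‖ ≤ η → ‖ζ'‖ ≤ η → 0 < ζ.im → 0 < ζ'.im → tww w ζ ζ' ≠ 0 ∧ ∃ A : ℂ, A ≠ 0 ∧ ∀ X X' : ℝ,
    Tendsto (fun n : ℕ => (((n : ℝ) ^ (3 / 2 : ℝ) : ℝ) : ℂ) *
      Complex.exp (-(n * tp w ζ ζ' + √(n : ℝ) * (tz w ζ * X + tz w ζ' * X'))) *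
      SS n (zt ζ.im (ζ.re + X / √(n : ℝ))) (zt ζ'.im (ζ'.re + X' / √(n : ℝ)))) atTop
      (𝓝 (A * Complex.exp (tzz w ζ * X ^ 2 / 2 + tzz w ζ' * X' ^ 2 / 2 -
        (twz w ζ * X + twz w ζ' * X') ^ 2 / (2 * tww w ζ ζ')))) := by
  obtain ⟨κ, δ, c, C, N, hκ, hδ, hδ', hc, hC, hN, hnear⟩ := SS_near
  obtain ⟨η₁, hη₁, hMM⟩ := MM_lim
  obtain ⟨η₂, hη₂, hη₂', hcl⟩ := tp_near (ε := c / 2) (by positivity)
  refine ⟨min κ (min (δ / 2) (min η₁ η₂)), by positivity, ?_⟩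
  intro w ζ ζ' hcrit h1 h2 h3 h4 h5
  set η := min κ (min (δ / 2) (min η₁ η₂)) with hη
  have g1 : η ≤ κ := min_le_left _ _
  have g2 : η ≤ δ / 2 := (min_le_right _ _).trans (min_le_left _ _)
  have g3 : η ≤ η₁ := (min_le_right _ _).trans ((min_le_right _ _).trans (min_le_left _ _))
  have g4 : η ≤ η₂ := (min_le_right _ _).trans ((min_le_right _ _).trans (min_le_right _ _))
  obtain ⟨hneg, hlim⟩ := hMM w ζ ζ' hcrit (h1.trans g3) (h2.trans g3) (h3.trans g3)
  have hne : tww w ζ ζ' ≠ 0 := by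
    intro h
    rw [h] at hneg
    simp at hneg
  refine ⟨hne, Complex.exp (-(2 * ph w)) * (Real.pi / -(tww w ζ ζ' / 2)) ^ (1 / 2 : ℂ), ?_, ?_⟩
  · refine mul_ne_zero (Complex.exp_ne_zero _) ?_
    rw [Complex.cpow_ne_zero_iff]
    left
    refine div_ne_zero (by exact_mod_cast Real.pi_ne_zero) ?_
    exact neg_ne_zero.mpr (div_ne_zero hne two_ne_zero)
  intro X X'
  have him : |w.im| ≤ κ := by
    have := (Complex.abs_im_le_norm (w - 1 / 4)).trans (h1.trans g1)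
    simpa using this
  have hts : ts - c / 2 ≤ (tp w ζ ζ').re := by
    have := (Complex.abs_re_le_norm _).trans (hcl w ζ ζ' (h1.trans g4) (h2.trans g4) (h3.trans g4))
    rw [Complex.sub_re, Complex.ofReal_re, abs_le] at this
    linarith only [this, this.1]
  set K := |(tz w ζ * X + tz w ζ' * X').re| with hK
  -- the difference tends to zero
  have hdiff : Tendsto (fun n : ℕ => (((n : ℝ) ^ (3 / 2 : ℝ) : ℝ) : ℂ) *
      Complex.exp (-(n * tp w ζ ζ' + √(n : ℝ) * (tz w ζ * X + tz w ζ' * X'))) *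
      (SS n (zt ζ.im (ζ.re + X / √(n : ℝ))) (zt ζ'.im (ζ'.re + X' / √(n : ℝ))) -
      MM n w.im (ζ + ((X / √(n : ℝ) : ℝ) : ℂ)) (ζ' + ((X' / √(n : ℝ) : ℝ) : ℂ)))) atTop (𝓝 0) := by
    rw [tendsto_zero_iff_norm_tendsto_zero]
    have hz := (rpow_exp_tendsto (a := c / 2) (K := K) (by positivity)).const_mul C
    rw [mul_zero] at hz
    refine squeeze_zero' (Eventually.of_forall fun n => norm_nonneg _) ?_ hz
    have hX := (div_sqrt_tendsto_c X).norm
    have hX' := (div_sqrt_tendsto_c X').norm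
    rw [norm_zero] at hX hX'
    have hre : |ζ.re| < 1 / 4 := by
      have := (Complex.abs_re_le_norm ζ).trans h2
      linarith only [hδ', g2, this]
    have hre' : |ζ'.re| < 1 / 4 := by
      have := (Complex.abs_re_le_norm ζ').trans h3
      linarith only [hδ', g2, this]
    filter_upwards [hX.eventually_lt_const (show (0 : ℝ) < δ / 2 by positivity),
      hX'.eventually_lt_const (show (0 : ℝ) < δ / 2 by positivity), eventually_ge_atTop N,
      eventually_abs_le hre X, eventually_abs_le hre' X'] with n n1 n2 n3 n4 n5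
    have hnp : (0 : ℝ) < n := by
      have : 0 < n := by omega
      exact_mod_cast this
    rw [zt_eq n4.le, zt_eq n5.le, norm_mul, norm_mul, Complex.norm_real, Real.norm_eq_abs,
      abs_of_nonneg (by positivity), Complex.norm_exp]
    have b1 := hnear n n3 w.im him (ζ + ((X / √(n : ℝ) : ℝ) : ℂ)) (ζ' + ((X' / √(n : ℝ) : ℝ) : ℂ))
      ((norm_add_le _ _).trans (by linarith only [h2, g2, n1])) ((norm_add_le _ _).trans (by linarith only [h3, g2, n2]))
    have e1 : (-(n * tp w ζ ζ' + √(n : ℝ) * (tz w ζ * X + tz w ζ' * X')) : ℂ).re =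
        -(n * (tp w ζ ζ').re + √(n : ℝ) * (tz w ζ * X + tz w ζ' * X').re) := by
      simp
    rw [e1]
    have b2 : -(√(n : ℝ) * (tz w ζ * X + tz w ζ' * X').re) ≤ √(n : ℝ) * K := by
      rw [← mul_neg, hK]
      exact mul_le_mul_of_nonneg_left (neg_le_abs _) (Real.sqrt_nonneg _)
    have b3 : (n : ℝ) * (ts - c / 2) ≤ n * (tp w ζ ζ').re := by gcongr
    calc (n : ℝ) ^ (3 / 2 : ℝ) * Real.exp (-(n * (tp w ζ ζ').re +
          √(n : ℝ) * (tz w ζ * X + tz w ζ' * X').re)) * _ ≤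
          (n : ℝ) ^ (3 / 2 : ℝ) * Real.exp (√(n : ℝ) * K - n * (ts - c / 2)) *
          (C * Real.exp (n * (ts - c))) := by
          gcongr
          linarith only [b2, b3]
      _ = C * ((n : ℝ) ^ (3 / 2 : ℝ) * (Real.exp (√(n : ℝ) * K - n * (ts - c / 2)) *
          Real.exp (n * (ts - c)))) := by ring
      _ = C * ((n : ℝ) ^ (3 / 2 : ℝ) * Real.exp (√(n : ℝ) * K - c / 2 * n)) := by
          rw [← Real.exp_add]
          congr 3
          ring
  have := (hlim X X').add hdiff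
  rw [add_zero] at this
  refine this.congr fun n => ?_
  ring

end Pool.Agent.Work.MP_b30479_gtS.LT

end

section

/-!
# Gaussian integrals with a complex symmetric matrix
-/

namespace Pool.Agent.Work.MP_b30479_gtS.VC

open MeasureTheory Matrix

variable {ι : Type*} [Fintype ι] [DecidableEq ι]

/-- simultaneous diagonalisation of a positive definite and a symmetric real matrix -/
theorem simul_diag {P Q : Matrix ι ι ℝ} (hP : P.PosDef) (hQ : Q.IsSymm) :
    ∃ (S : Matrix ι ι ℝ) (l : ι → ℝ), S.det ≠ 0 ∧ Sᵀ * P * S = 1 ∧ Sᵀ * Q * S = diagonal l := by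
  have hPs := hP.1.spectral_theorem
  set U : Matrix ι ι ℝ := (hP.1.eigenvectorUnitary : Matrix ι ι ℝ) with hU
  set mu := hP.1.eigenvalues with hmu
  have hmupos : ∀ i, 0 < mu i := fun i => hP.eigenvalues_pos i
  have hUU : Uᵀ * U = 1 := by
    have := Unitary.coe_star_mul_self hP.1.eigenvectorUnitary
    rw [Matrix.star_eq_conjTranspose, conjTranspose_eq_transpose_of_trivial] at this
    exact this
  have hP' : P = U * diagonal mu * Uᵀ := by
    rw [Unitary.conjStarAlgAut_apply] at hPs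
    rw [Matrix.star_eq_conjTranspose, conjTranspose_eq_transpose_of_trivial] at hPs
    exact hPs
  set C : Matrix ι ι ℝ := U * diagonal (fun i => (√(mu i))⁻¹) with hC
  have hCP : Cᵀ * P * C = 1 := by
    rw [hP', hC, transpose_mul, diagonal_transpose]
    have h1 : diagonal (fun i => (√(mu i))⁻¹) * Uᵀ * (U * diagonal mu * Uᵀ) *
        (U * diagonal fun i => (√(mu i))⁻¹) =
        diagonal (fun i => (√(mu i))⁻¹) * (Uᵀ * U) * diagonal mu * (Uᵀ * U) *
          diagonal (fun i => (√(mu i))⁻¹) := by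
      simp only [Matrix.mul_assoc]
    rw [h1, hUU, Matrix.mul_one, Matrix.mul_one, diagonal_mul_diagonal, diagonal_mul_diagonal,
      ← diagonal_one]
    congr 1
    funext i
    have h2 := Real.sq_sqrt (hmupos i).le
    have h3 : √(mu i) ≠ 0 := (Real.sqrt_pos.mpr (hmupos i)).ne'
    field_simp
    rw [h2]
  have hQ' : (Cᵀ * Q * C).IsHermitian := by
    rw [Matrix.IsHermitian, conjTranspose_eq_transpose_of_trivial, transpose_mul (Cᵀ * Q) C,
      transpose_mul Cᵀ Q, transpose_transpose, hQ.eq, Matrix.mul_assoc]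
  have hQs := hQ'.spectral_theorem
  set V : Matrix ι ι ℝ := (hQ'.eigenvectorUnitary : Matrix ι ι ℝ) with hV
  have hVV : Vᵀ * V = 1 := by
    have := Unitary.coe_star_mul_self hQ'.eigenvectorUnitary
    rw [Matrix.star_eq_conjTranspose, conjTranspose_eq_transpose_of_trivial] at this
    exact this
  have hQ2 : Cᵀ * Q * C = V * diagonal hQ'.eigenvalues * Vᵀ := by
    rw [Unitary.conjStarAlgAut_apply] at hQs
    rw [Matrix.star_eq_conjTranspose, conjTranspose_eq_transpose_of_trivial] at hQs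
    exact hQs
  have h1 : (C * V)ᵀ * P * (C * V) = 1 := by
    rw [transpose_mul]
    have : Vᵀ * Cᵀ * P * (C * V) = Vᵀ * (Cᵀ * P * C) * V := by simp only [Matrix.mul_assoc]
    rw [this, hCP, Matrix.mul_one, hVV]
  refine ⟨C * V, hQ'.eigenvalues, ?_, h1, ?_⟩
  · intro h0
    have h2 := congrArg Matrix.det h1
    rw [det_mul, h0, mul_zero, det_one] at h2
    exact zero_ne_one h2
  · rw [transpose_mul]
    have : Vᵀ * Cᵀ * Q * (C * V) = Vᵀ * (Cᵀ * Q * C) * V := by simp only [Matrix.mul_assoc]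
    rw [this]
    have h3 : Vᵀ * (V * diagonal hQ'.eigenvalues * Vᵀ) * V =
        (Vᵀ * V) * diagonal hQ'.eigenvalues * (Vᵀ * V) := by simp only [Matrix.mul_assoc]
    calc Vᵀ * (Cᵀ * Q * C) * V = Vᵀ * (V * diagonal hQ'.eigenvalues * Vᵀ) * V :=
          congrArg (fun Z => Vᵀ * Z * V) hQ2
      _ = diagonal hQ'.eigenvalues := by rw [h3, hVV, Matrix.one_mul, Matrix.mul_one]

/-- the quadratic form -/
def qform (M : Matrix ι ι ℂ) (x : ι → ℝ) : ℂ := ∑ i, ∑ j, M i j * x i * x j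

theorem qform_eq (M : Matrix ι ι ℂ) (x : ι → ℝ) :
    qform M x = (fun i => (x i : ℂ)) ⬝ᵥ (M *ᵥ fun i => (x i : ℂ)) := by
  unfold qform
  simp only [dotProduct, mulVec, Finset.mul_sum]
  refine Finset.sum_congr rfl fun i _ => Finset.sum_congr rfl fun j _ => by ring

theorem qform_comp (M : Matrix ι ι ℂ) (S : Matrix ι ι ℝ) (y : ι → ℝ) :
    qform M (S *ᵥ y) = qform ((S.map Complex.ofReal)ᵀ * M * S.map Complex.ofReal) y := by
  rw [qform_eq, qform_eq]
  have h1 : (fun i => (((S *ᵥ y) i : ℝ) : ℂ)) = S.map Complex.ofReal *ᵥ fun i => (y i : ℂ) := by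
    funext i
    simp only [mulVec, dotProduct, Matrix.map_apply]
    push_cast
    rfl
  rw [h1, ← Matrix.mulVec_mulVec, ← Matrix.mulVec_mulVec]
  conv_rhs => rw [dotProduct_mulVec, vecMul_transpose]

theorem qform_diag (l : ι → ℂ) (y : ι → ℝ) : qform (diagonal l) y = ∑ i, l i * (y i : ℂ) ^ 2 := by
  unfold qform
  refine Finset.sum_congr rfl fun i _ => ?_
  rw [Finset.sum_eq_single i]
  · rw [diagonal_apply_eq]; ring
  · intro j _ hj
    rw [diagonal_apply_ne _ (Ne.symm hj)]; ring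
  · intro h
    exact absurd (Finset.mem_univ i) h

/-- a complex symmetric matrix with positive definite real part is diagonalised by a real
invertible congruence -/
theorem exists_congr_diag {M : Matrix ι ι ℂ} (hs : M.IsSymm) (hM : (M.map Complex.re).PosDef) :
    ∃ (S : Matrix ι ι ℝ) (l : ι → ℝ), S.det ≠ 0 ∧
      (S.map Complex.ofReal)ᵀ * M * S.map Complex.ofReal =
        diagonal fun i => (1 : ℂ) + l i * Complex.I := by
  have hQ : (M.map Complex.im).IsSymm := by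
    rw [Matrix.IsSymm, ← transpose_map, hs.eq]
  obtain ⟨S, l, h1, h2, h3⟩ := simul_diag hM hQ
  refine ⟨S, l, h1, ?_⟩
  have hMM : M = (M.map Complex.re).map Complex.ofReal +
      Complex.I • (M.map Complex.im).map Complex.ofReal := by
    ext i j
    simp only [Matrix.add_apply, Matrix.smul_apply, Matrix.map_apply, smul_eq_mul]
    rw [mul_comm]
    exact (Complex.re_add_im _).symm
  have h4 : ∀ A : Matrix ι ι ℝ, (S.map Complex.ofReal)ᵀ * A.map Complex.ofReal *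
      S.map Complex.ofReal = (Sᵀ * A * S).map Complex.ofReal := by
    intro A
    rw [← transpose_map]
    ext i j
    simp only [Matrix.mul_apply, Matrix.map_apply]
    push_cast
    rfl
  rw [hMM, Matrix.mul_add, Matrix.add_mul, Matrix.mul_smul, Matrix.smul_mul, h4, h4, h2, h3]
  ext i j
  simp only [Matrix.add_apply, Matrix.smul_apply, Matrix.map_apply, smul_eq_mul]
  by_cases hij : i = j
  · subst hij
    simp only [Matrix.one_apply_eq, diagonal_apply_eq, Complex.ofReal_one]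
    ring
  · simp only [Matrix.one_apply_ne hij, diagonal_apply_ne _ hij, Complex.ofReal_zero]
    ring

/-- change of variables by an invertible matrix -/
theorem integral_mulVec {S : Matrix ι ι ℝ} (hS : S.det ≠ 0) (f : (ι → ℝ) → ℂ) :
    ∫ x, f x = ((|S.det| : ℝ) : ℂ) * ∫ y, f (S *ᵥ y) := by
  have h1 := Real.map_matrix_volume_pi_eq_smul_volume_pi hS
  have hme : MeasurableEmbedding (Matrix.toLin' S) := by
    have hinj : Function.Injective (Matrix.toLin' S) := by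
      intro x y hxy
      rw [Matrix.toLin'_apply, Matrix.toLin'_apply] at hxy
      exact Matrix.mulVec_injective_iff_isUnit.mpr
        ((Matrix.isUnit_iff_isUnit_det S).mpr (isUnit_iff_ne_zero.mpr hS)) hxy
    exact (Matrix.toLin' S).continuous_of_finiteDimensional.measurableEmbedding hinj
  have h2 : ∫ y, f (Matrix.toLin' S y) = ∫ x, f x ∂(Measure.map (Matrix.toLin' S) volume) :=
    (hme.integral_map _).symm
  have h3 : (fun y => f (S *ᵥ y)) = fun y => f (Matrix.toLin' S y) := by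
    funext y
    rw [Matrix.toLin'_apply]
  rw [h3, h2, h1, integral_smul_measure]
  have h4 : (ENNReal.ofReal |S.det⁻¹|).toReal = |S.det|⁻¹ := by
    rw [ENNReal.toReal_ofReal (abs_nonneg _), abs_inv]
  rw [h4, Complex.real_smul, ← mul_assoc, ← Complex.ofReal_mul, mul_inv_cancel₀ (abs_ne_zero.mpr hS),
    Complex.ofReal_one, one_mul]

theorem integral_gauss_eq {M : Matrix ι ι ℂ} {S : Matrix ι ι ℝ} {l : ι → ℝ} (hS : S.det ≠ 0)
    (h : (S.map Complex.ofReal)ᵀ * M * S.map Complex.ofReal =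
        diagonal fun i => (1 : ℂ) + l i * Complex.I) :
    ∫ x : ι → ℝ, Complex.exp (-qform M x) =
      ((|S.det| : ℝ) : ℂ) * ∏ i, (Real.pi / ((1 : ℂ) + l i * Complex.I)) ^ (1 / 2 : ℂ) := by
  rw [integral_mulVec hS]
  congr 1
  simp_rw [qform_comp, h, qform_diag]
  have h1 := GaussianFourier.integral_cexp_neg_sum_mul_add (b := fun i => (1 : ℂ) + l i * Complex.I)
    (fun i => by simp) (fun _ => 0)
  simpa using h1

theorem one_add_mul_I_ne_zero (r : ℝ) : (1 : ℂ) + r * Complex.I ≠ 0 := by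
  intro h
  have := congrArg Complex.re h
  simp at this

/-- the complex Gaussian integral does not vanish -/
theorem integral_gauss_ne_zero {M : Matrix ι ι ℂ} (hs : M.IsSymm)
    (hM : (M.map Complex.re).PosDef) : ∫ x : ι → ℝ, Complex.exp (-qform M x) ≠ 0 := by
  obtain ⟨S, l, h1, h2⟩ := exists_congr_diag hs hM
  rw [integral_gauss_eq h1 h2]
  refine mul_ne_zero ?_ ?_
  · exact_mod_cast abs_ne_zero.mpr h1
  · rw [Finset.prod_ne_zero_iff]
    intro i _
    rw [Ne, Complex.cpow_eq_zero_iff]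
    intro h3
    have h4 := h3.1
    rw [div_eq_zero_iff] at h4
    rcases h4 with h4 | h4
    · exact Real.pi_ne_zero (by exact_mod_cast h4)
    · exact one_add_mul_I_ne_zero (l i) h4

/-- square of the complex Gaussian integral -/
theorem integral_gauss_sq {M : Matrix ι ι ℂ} (hs : M.IsSymm)
    (hM : (M.map Complex.re).PosDef) : M.det ≠ 0 ∧
      (∫ x : ι → ℝ, Complex.exp (-qform M x)) ^ 2 = (Real.pi : ℂ) ^ Fintype.card ι / M.det := by
  obtain ⟨S, l, h1, h2⟩ := exists_congr_diag hs hM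
  have h3 := congrArg Matrix.det h2
  rw [det_mul, det_mul, det_transpose, det_diagonal] at h3
  have h4 : (S.map Complex.ofReal).det = ((S.det : ℝ) : ℂ) := by
    have := (RingHom.map_det Complex.ofRealHom S).symm
    exact this
  rw [h4] at h3
  have h5 : ∏ i, ((1 : ℂ) + l i * Complex.I) ≠ 0 := by
    rw [Finset.prod_ne_zero_iff]
    exact fun i _ => one_add_mul_I_ne_zero (l i)
  have h6 : M.det ≠ 0 := by
    intro h
    rw [h, mul_zero, zero_mul] at h3
    exact h5 h3.symm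
  refine ⟨h6, ?_⟩
  rw [integral_gauss_eq h1 h2, mul_pow, ← Finset.prod_pow]
  have h7 : ∀ i, ((Real.pi / ((1 : ℂ) + l i * Complex.I)) ^ (1 / 2 : ℂ)) ^ 2 =
      Real.pi / ((1 : ℂ) + l i * Complex.I) := by
    intro i
    rw [← Complex.cpow_nat_mul]
    norm_num
  simp_rw [h7]
  rw [Finset.prod_div_distrib, Finset.prod_const, Finset.card_univ, ← h3]
  have h8 : (((|S.det| : ℝ)) : ℂ) ^ 2 = ((S.det : ℝ) : ℂ) * ((S.det : ℝ) : ℂ) := by
    rw [← Complex.ofReal_pow, sq_abs, sq, Complex.ofReal_mul]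
  have h9 : ((S.det : ℝ) : ℂ) ≠ 0 := by exact_mod_cast h1
  rw [h8]
  field_simp

/-- the real part of the quadratic form is bounded below -/
theorem qform_re_ge {M : Matrix ι ι ℂ} (hs : M.IsSymm) (hM : (M.map Complex.re).PosDef) :
    ∃ c : ℝ, 0 < c ∧ ∀ x : ι → ℝ, c * ∑ i, x i ^ 2 ≤ (qform M x).re := by
  obtain ⟨S, l, h1, h2⟩ := exists_congr_diag hs hM
  set T : ℝ := ∑ i, ∑ j, S i j ^ 2 with hT
  have hT0 : 0 ≤ T := Finset.sum_nonneg fun i _ => Finset.sum_nonneg fun j _ => sq_nonneg _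
  refine ⟨(1 + T)⁻¹, by positivity, fun x => ?_⟩
  have hx : S *ᵥ (S⁻¹ *ᵥ x) = x := by
    rw [Matrix.mulVec_mulVec, Matrix.mul_nonsing_inv _ (isUnit_iff_ne_zero.mpr h1),
      Matrix.one_mulVec]
  set y := S⁻¹ *ᵥ x with hy
  have h3 : (qform M x).re = ∑ i, y i ^ 2 := by
    rw [← hx, qform_comp, h2, qform_diag, Complex.re_sum]
    refine Finset.sum_congr rfl fun i _ => ?_
    rw [← Complex.ofReal_pow, Complex.mul_re, Complex.ofReal_re, Complex.ofReal_im]
    simp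
  rw [h3, inv_mul_le_iff₀ (by positivity)]
  have h4 : ∀ i, x i ^ 2 ≤ (∑ j, S i j ^ 2) * ∑ j, y j ^ 2 := by
    intro i
    have h5 : x i = ∑ j, S i j * y j := by
      conv_lhs => rw [← hx]
      rfl
    rw [h5]
    exact Finset.sum_mul_sq_le_sq_mul_sq _ _ _
  calc ∑ i, x i ^ 2 ≤ ∑ i, (∑ j, S i j ^ 2) * ∑ j, y j ^ 2 := Finset.sum_le_sum fun i _ => h4 i
    _ = T * ∑ j, y j ^ 2 := by rw [← Finset.sum_mul]
    _ ≤ (1 + T) * ∑ j, y j ^ 2 := by
        apply mul_le_mul_of_nonneg_right (by linarith)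
        exact Finset.sum_nonneg fun j _ => sq_nonneg _

/-- real Gaussians are integrable -/
theorem integrable_rexp_neg_sum {κ : Type*} [Fintype κ] {c : ℝ} (hc : 0 < c) :
    Integrable (fun x : κ → ℝ => Real.exp (-c * ∑ i, x i ^ 2)) := by
  have h1 := (GaussianFourier.integrable_cexp_neg_mul_sum_add (ι := κ) (b := (c : ℂ))
    (by simpa using hc) (fun _ => 0)).norm
  refine h1.congr (Filter.Eventually.of_forall fun x => ?_)
  simp only [Complex.norm_exp]
  congr 1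
  simp only [zero_mul, Finset.sum_const_zero, add_zero]
  rw [show (-(c : ℂ) * ∑ i, ((x i : ℝ) : ℂ) ^ 2) = ((-c * ∑ i, x i ^ 2 : ℝ) : ℂ) by push_cast; ring,
    Complex.ofReal_re]

theorem continuous_qform (M : Matrix ι ι ℂ) : Continuous (qform M) := by
  unfold qform
  fun_prop

theorem integrable_gauss {M : Matrix ι ι ℂ} (hs : M.IsSymm) (hM : (M.map Complex.re).PosDef) :
    Integrable fun x : ι → ℝ => Complex.exp (-qform M x) := by
  obtain ⟨c, hc, h⟩ := qform_re_ge hs hM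
  refine (integrable_rexp_neg_sum (κ := ι) hc).mono'
    ((Complex.continuous_exp.comp (continuous_qform M).neg).aestronglyMeasurable) ?_
  refine Filter.Eventually.of_forall fun x => ?_
  rw [Complex.norm_exp, Complex.neg_re]
  apply Real.exp_le_exp.mpr
  have := h x
  linarith

end Pool.Agent.Work.MP_b30479_gtS.VC

end

section

/-!
# Laplace method on a set in `ℝ^N`, and quadratic forms

`laplace_nd`: dominated convergence on the scale `1/√ν`.
`IsQ`: quadratic forms; `IsQ.integral_ne_zero`.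
-/

namespace Pool.Agent.Work.MP_b30479_gtS.VC

open Filter Topology MeasureTheory Matrix

variable {ι : Type*} [Fintype ι]

theorem laplace_nd {S : Set (ι → ℝ)} (hS : MeasurableSet S) {x0 : ι → ℝ} (hx : S ∈ 𝓝 x0)
    {ν : ℕ → ℝ} (hν : Tendsto ν atTop atTop) {F : ℕ → (ι → ℝ) → ℂ} (hm : ∀ s, Measurable (F s))
    {C c : ℝ} (hc : 0 < c)
    (hb : ∀ᶠ s in atTop, ∀ x ∈ S, ‖F s x‖ ≤ C * Real.exp (-(ν s * (c * ∑ i, (x i - x0 i) ^ 2))))
    {G : (ι → ℝ) → ℂ}
    (hG : ∀ X, Tendsto (fun s => F s (fun i => x0 i + X i / √(ν s))) atTop (𝓝 (G X))) :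
    Tendsto (fun s => ((ν s ^ ((Fintype.card ι : ℝ) / 2) : ℝ) : ℂ) * ∫ x in S, F s x) atTop
      (𝓝 (∫ X, G X)) := by
  have hsq : Tendsto (fun s => √(ν s)) atTop atTop := Real.tendsto_sqrt_atTop.comp hν
  have hpt : ∀ X : ι → ℝ, Tendsto (fun s => (fun i => x0 i + X i / √(ν s) : ι → ℝ)) atTop
      (𝓝 x0) := by
    intro X
    rw [tendsto_pi_nhds]
    intro i
    have h1 : Tendsto (fun s => X i / √(ν s)) atTop (𝓝 0) := tendsto_const_nhds.div_atTop hsq
    simpa using h1.const_add (x0 i)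
  have hkey : ∀ᶠ s in atTop, ((ν s ^ ((Fintype.card ι : ℝ) / 2) : ℝ) : ℂ) * ∫ x in S, F s x =
      ∫ X : ι → ℝ, S.indicator (F s) (fun i => x0 i + X i / √(ν s)) := by
    filter_upwards [hν.eventually_gt_atTop 0] with s hs
    have hr : 0 < √(ν s) := Real.sqrt_pos.mpr hs
    rw [← integral_indicator hS]
    have h1 := Measure.integral_comp_inv_smul_of_nonneg (volume : Measure (ι → ℝ))
      (fun X => S.indicator (F s) (x0 + X)) hr.le
    have h2 : (fun X : ι → ℝ => S.indicator (F s) (fun i => x0 i + X i / √(ν s))) =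
        fun X => S.indicator (F s) (x0 + (√(ν s))⁻¹ • X) := by
      funext X
      congr 1
      funext i
      simp [div_eq_inv_mul]
    rw [h2]
    refine Eq.trans ?_ h1.symm
    rw [integral_add_left_eq_self, Module.finrank_fintype_fun_eq_card, Complex.real_smul]
    congr 2
    rw [Real.sqrt_eq_rpow, ← Real.rpow_natCast, ← Real.rpow_mul hs.le]
    congr 1
    ring
  refine Tendsto.congr' (EventuallyEq.symm hkey) ?_
  refine tendsto_integral_filter_of_dominated_convergence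
    (fun X => |C| * Real.exp (-c * ∑ i, X i ^ 2)) ?_ ?_ ?_ ?_
  · refine Eventually.of_forall fun s => ?_
    refine Measurable.aestronglyMeasurable ?_
    refine ((hm s).indicator hS).comp ?_
    fun_prop
  · filter_upwards [hb, hν.eventually_gt_atTop 0] with s h hs
    refine Eventually.of_forall fun X => ?_
    by_cases hX : (fun i => x0 i + X i / √(ν s)) ∈ S
    · rw [Set.indicator_of_mem hX]
      refine (h _ hX).trans ?_
      have h3 : -(ν s * (c * ∑ i, (x0 i + X i / √(ν s) - x0 i) ^ 2)) = -c * ∑ i, X i ^ 2 := by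
        have h4 : ∑ i, (x0 i + X i / √(ν s) - x0 i) ^ 2 = (∑ i, X i ^ 2) / ν s := by
          rw [Finset.sum_div]
          refine Finset.sum_congr rfl fun i _ => ?_
          rw [add_sub_cancel_left, div_pow, Real.sq_sqrt hs.le]
        rw [h4]
        field_simp
      rw [h3]
      exact mul_le_mul_of_nonneg_right (le_abs_self C) (Real.exp_pos _).le
    · rw [Set.indicator_of_notMem hX, norm_zero]
      positivity
  · exact (integrable_rexp_neg_sum hc).const_mul _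
  · refine Eventually.of_forall fun X => ?_
    refine (hG X).congr' ?_
    filter_upwards [(hpt X).eventually_mem hx] with s hs
    rw [Set.indicator_of_mem hs]

/-- the limit function satisfies the Gaussian bound -/
theorem laplace_nd_bound {S : Set (ι → ℝ)} {x0 : ι → ℝ} (hx : S ∈ 𝓝 x0)
    {ν : ℕ → ℝ} (hν : Tendsto ν atTop atTop) {F : ℕ → (ι → ℝ) → ℂ} {C c : ℝ}
    (hb : ∀ᶠ s in atTop, ∀ x ∈ S, ‖F s x‖ ≤ C * Real.exp (-(ν s * (c * ∑ i, (x i - x0 i) ^ 2))))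
    {G : (ι → ℝ) → ℂ}
    (hG : ∀ X, Tendsto (fun s => F s (fun i => x0 i + X i / √(ν s))) atTop (𝓝 (G X)))
    (X : ι → ℝ) : ‖G X‖ ≤ C * Real.exp (-(c * ∑ i, X i ^ 2)) := by
  have hsq : Tendsto (fun s => √(ν s)) atTop atTop := Real.tendsto_sqrt_atTop.comp hν
  have hpt : Tendsto (fun s => (fun i => x0 i + X i / √(ν s) : ι → ℝ)) atTop (𝓝 x0) := by
    rw [tendsto_pi_nhds]
    intro i
    have h1 : Tendsto (fun s => X i / √(ν s)) atTop (𝓝 0) := tendsto_const_nhds.div_atTop hsq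
    simpa using h1.const_add (x0 i)
  refine le_of_tendsto (hG X).norm ?_
  filter_upwards [hb, hν.eventually_gt_atTop 0, hpt.eventually_mem hx] with s h hs hX
  refine (h _ hX).trans (le_of_eq ?_)
  congr 2
  have h4 : ∑ i, (x0 i + X i / √(ν s) - x0 i) ^ 2 = (∑ i, X i ^ 2) / ν s := by
    rw [Finset.sum_div]
    refine Finset.sum_congr rfl fun i _ => ?_
    rw [add_sub_cancel_left, div_pow, Real.sq_sqrt hs.le]
  rw [h4]
  field_simp

/-- quadratic forms with complex coefficients -/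
def IsQ (Q : (ι → ℝ) → ℂ) : Prop := ∃ A : Matrix ι ι ℂ, A.IsSymm ∧ ∀ X, Q X = qform A X

theorem qform_add (A B : Matrix ι ι ℂ) (X : ι → ℝ) :
    qform (A + B) X = qform A X + qform B X := by
  unfold qform
  rw [← Finset.sum_add_distrib]
  refine Finset.sum_congr rfl fun i _ => ?_
  rw [← Finset.sum_add_distrib]
  refine Finset.sum_congr rfl fun j _ => ?_
  rw [Matrix.add_apply]
  ring

theorem qform_smul (a : ℂ) (A : Matrix ι ι ℂ) (X : ι → ℝ) :
    qform (a • A) X = a * qform A X := by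
  unfold qform
  rw [Finset.mul_sum]
  refine Finset.sum_congr rfl fun i _ => ?_
  rw [Finset.mul_sum]
  refine Finset.sum_congr rfl fun j _ => ?_
  rw [Matrix.smul_apply, smul_eq_mul]
  ring

theorem IsQ.zero : IsQ (fun _ : ι → ℝ => (0 : ℂ)) :=
  ⟨0, Matrix.transpose_zero, fun X => by simp [qform]⟩

theorem IsQ.add {Q R : (ι → ℝ) → ℂ} (hQ : IsQ Q) (hR : IsQ R) : IsQ fun X => Q X + R X := by
  obtain ⟨A, hA, h1⟩ := hQ
  obtain ⟨B, hB, h2⟩ := hR
  exact ⟨A + B, hA.add hB, fun X => by simp only [qform_add, h1, h2]⟩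

theorem IsQ.const_mul {Q : (ι → ℝ) → ℂ} (hQ : IsQ Q) (a : ℂ) : IsQ fun X => a * Q X := by
  obtain ⟨A, hA, h1⟩ := hQ
  exact ⟨a • A, hA.smul a, fun X => by simp only [qform_smul, h1]⟩

theorem IsQ.neg {Q : (ι → ℝ) → ℂ} (hQ : IsQ Q) : IsQ fun X => -Q X := by
  have := hQ.const_mul (-1)
  simpa using this

theorem IsQ.sub {Q R : (ι → ℝ) → ℂ} (hQ : IsQ Q) (hR : IsQ R) : IsQ fun X => Q X - R X := by
  have := hQ.add hR.neg
  simpa [sub_eq_add_neg] using this

theorem IsQ.sum {κ : Type*} (s : Finset κ) {Q : κ → (ι → ℝ) → ℂ} (hQ : ∀ k ∈ s, IsQ (Q k)) :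
    IsQ fun X => ∑ k ∈ s, Q k X := by
  classical
  induction s using Finset.induction_on with
  | empty => simpa using IsQ.zero
  | insert a s ha ih =>
    simp only [Finset.sum_insert ha]
    exact (hQ a (Finset.mem_insert_self a s)).add
      (ih fun k hk => hQ k (Finset.mem_insert_of_mem hk))

/-- the square of a linear form -/
theorem IsQ.sq (u : ι → ℂ) : IsQ fun X => (∑ i, u i * X i) ^ 2 := by
  refine ⟨Matrix.of fun i j => u i * u j, ?_, fun X => ?_⟩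
  · ext i j
    simp only [Matrix.transpose_apply, Matrix.of_apply]
    exact mul_comm _ _
  · simp only [qform, Matrix.of_apply]
    rw [_root_.sq, Finset.sum_mul_sum]
    refine Finset.sum_congr rfl fun i _ => Finset.sum_congr rfl fun j _ => by ring

theorem IsQ.apply_sq [DecidableEq ι] (i : ι) : IsQ fun X => (X i : ℂ) ^ 2 := by
  have := IsQ.sq (ι := ι) (fun j => if j = i then 1 else 0)
  simpa using this

theorem IsQ.lin_sq [DecidableEq ι] (i j : ι) (a b : ℂ) :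
    IsQ fun X => (a * X i + b * X j) ^ 2 := by
  have := IsQ.sq (ι := ι) (fun k => (if k = i then a else 0) + (if k = j then b else 0))
  simpa [add_mul, Finset.sum_add_distrib] using this

theorem IsQ.homog {Q : (ι → ℝ) → ℂ} (hQ : IsQ Q) (t : ℝ) (X : ι → ℝ) :
    Q (fun i => t * X i) = t ^ 2 * Q X := by
  obtain ⟨A, -, h⟩ := hQ
  rw [h, h]
  unfold qform
  rw [Finset.mul_sum]
  refine Finset.sum_congr rfl fun i _ => ?_
  rw [Finset.mul_sum]
  refine Finset.sum_congr rfl fun j _ => ?_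
  push_cast
  ring

theorem IsQ.continuous {Q : (ι → ℝ) → ℂ} (hQ : IsQ Q) : Continuous Q := by
  classical
  obtain ⟨A, -, h⟩ := hQ
  rw [show Q = qform A from funext h]
  exact continuous_qform A

/-- from an exponential bound to a bound of the real part -/
theorem IsQ.re_le {Q : (ι → ℝ) → ℂ} (hQ : IsQ Q) {C c : ℝ}
    (h : ∀ X, Real.exp (Q X).re ≤ C * Real.exp (-(c * ∑ i, X i ^ 2))) (X : ι → ℝ) :
    (Q X).re ≤ -(c * ∑ i, X i ^ 2) := by
  have hC : 0 < C := by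
    have h0 := h 0
    have h1 := (Real.exp_pos (Q 0).re).trans_le h0
    exact pos_of_mul_pos_left h1 (Real.exp_pos _).le
  have h1 : ∀ t : ℝ, t ^ 2 * (Q X).re ≤ Real.log C + -(t ^ 2 * (c * ∑ i, X i ^ 2)) := by
    intro t
    have h2 := h (fun i => t * X i)
    rw [hQ.homog] at h2
    have h3 := Real.log_le_log (Real.exp_pos _) h2
    rw [Real.log_exp, Real.log_mul hC.ne' (Real.exp_pos _).ne', Real.log_exp] at h3
    have h4 : ∑ i, (t * X i) ^ 2 = t ^ 2 * ∑ i, X i ^ 2 := by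
      rw [Finset.mul_sum]
      exact Finset.sum_congr rfl fun i _ => by ring
    rw [h4] at h3
    have h5 : ((t : ℂ) ^ 2 * Q X).re = t ^ 2 * (Q X).re := by
      rw [← Complex.ofReal_pow, Complex.re_ofReal_mul]
    rw [h5] at h3
    linarith
  by_contra hcon
  push_neg at hcon
  set d := (Q X).re + c * ∑ i, X i ^ 2 with hd
  have hd0 : 0 < d := by linarith
  have h6 := h1 (√((|Real.log C| + 1) / d))
  rw [Real.sq_sqrt (by positivity)] at h6
  have h7 : (|Real.log C| + 1) / d * d = |Real.log C| + 1 := by field_simp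
  have h8 : (|Real.log C| + 1) / d * (Q X).re + (|Real.log C| + 1) / d * (c * ∑ i, X i ^ 2) =
      |Real.log C| + 1 := by rw [← mul_add, ← hd, h7]
  have := le_abs_self (Real.log C)
  linarith

theorem IsQ.integral_ne_zero {Q : (ι → ℝ) → ℂ} (hQ : IsQ Q) {C c : ℝ} (hc : 0 < c)
    (h : ∀ X, Real.exp (Q X).re ≤ C * Real.exp (-(c * ∑ i, X i ^ 2))) :
    ∫ X, Complex.exp (Q X) ≠ 0 := by
  classical
  have hre := hQ.re_le h
  obtain ⟨A, hA, h1⟩ := hQ.neg
  have h2 : ∀ X, Q X = -qform A X := fun X => by rw [← h1, neg_neg]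
  simp_rw [h2]
  refine integral_gauss_ne_zero hA ?_
  refine Matrix.PosDef.of_dotProduct_mulVec_pos ?_ fun x hx => ?_
  · ext i j
    simp only [Matrix.conjTranspose_apply, Matrix.map_apply, star_trivial]
    rw [← hA.apply]
  · have h3 : star x ⬝ᵥ (A.map Complex.re *ᵥ x) = (qform A x).re := by
      unfold qform
      rw [Complex.re_sum]
      simp only [dotProduct, mulVec, Finset.mul_sum, Pi.star_apply, star_trivial]
      refine Finset.sum_congr rfl fun i _ => ?_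
      rw [Complex.re_sum]
      refine Finset.sum_congr rfl fun j _ => ?_
      rw [Matrix.map_apply, Complex.re_mul_ofReal, Complex.re_mul_ofReal]
      ring
    rw [h3]
    have h4 := hre x
    rw [h2, Complex.neg_re] at h4
    obtain ⟨i, hi⟩ : ∃ i, x i ≠ 0 := by
      by_contra hcon
      push_neg at hcon
      exact hx (funext hcon)
    have h5 : 0 < ∑ i, x i ^ 2 :=
      Finset.sum_pos' (fun i _ => sq_nonneg _) ⟨i, Finset.mem_univ i, by positivity⟩
    have : 0 < c * ∑ i, x i ^ 2 := mul_pos hc h5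
    linarith

end Pool.Agent.Work.MP_b30479_gtS.VC

end

section

/-!
# Asymptotics of the integral over the cube
-/

namespace Pool.Agent.Work.MP_b30479_gtS.LT

open Finset VOL AX MeasureTheory Filter Topology

/-! ### measurability -/

theorem continuous_th : Continuous th := by
  unfold th
  fun_prop

theorem continuous_zt (ρ : ℝ) : Continuous (zt ρ) := by
  unfold zt
  have := continuous_th
  fun_prop

theorem measurable_dzt (ρ : ℝ) : Measurable (dzt ρ) := by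
  have h1 : MeasurableSet {σ : ℝ | |σ| < 1 / 4} :=
    (isOpen_lt continuous_abs continuous_const).measurableSet
  have h2 : MeasurableSet {σ : ℝ | 0 < σ} := measurableSet_Ioi
  have h3 : Measurable fun σ : ℝ => (if |σ| < 1 / 4 then (0 : ℝ) else if 0 < σ then -4 else 4) :=
    Measurable.ite h1 measurable_const (Measurable.ite h2 measurable_const measurable_const)
  unfold dzt
  exact ((Complex.measurable_ofReal.comp (h3.const_mul ρ)).mul_const _).const_add _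

theorem measurable_EE (n : ℕ) (b : ℤ) (ρ : ℝ) : Measurable (EE n b ρ) := by
  have h1 := continuous_zt ρ
  have h2 : Continuous fun σ => Complex.exp (Real.pi * Complex.I * b * n * zt ρ σ ^ 2) *
      Complex.sin (2 * Real.pi * zt ρ σ) := by fun_prop
  have h3 : Continuous fun σ => Complex.sin (Real.pi * n * zt ρ σ) ^ 2 := by fun_prop
  exact (h2.measurable.div h3.measurable).mul (measurable_dzt ρ)

theorem continuous_PP (n y : ℕ) : Continuous (PP n y) := by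
  unfold PP
  fun_prop

theorem continuous_SS (n : ℕ) : Continuous fun p : ℂ × ℂ => SS n p.1 p.2 := by
  unfold SS term
  have h := continuous_PP n
  refine continuous_finset_sum _ fun y _ => ?_
  have h1 : Continuous fun p : ℂ × ℂ => PP n y p.1 := (h y).comp continuous_fst
  have h2 : Continuous fun p : ℂ × ℂ => PP n y p.2 := (h y).comp continuous_snd
  exact (h1.mul h2).div_const _

theorem measurable_SS (n : ℕ) : Measurable fun p : ℂ × ℂ => SS n p.1 p.2 :=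
  (continuous_SS n).measurable

theorem measurable_SS2 (n : ℕ) {M : ℕ} (ρ : Fin (M + 1) → ℝ) (j : Fin M) :
    Measurable fun σ : Fin (M + 1) → ℝ =>
      SS n (zt (ρ j.castSucc) (σ j.castSucc)) (zt (ρ j.succ) (σ j.succ)) := by
  have h1 : Measurable fun σ : Fin (M + 1) → ℝ =>
      (zt (ρ j.castSucc) (σ j.castSucc), zt (ρ j.succ) (σ j.succ)) :=
    Measurable.prodMk ((continuous_zt _).measurable.comp (measurable_pi_apply _))
      ((continuous_zt _).measurable.comp (measurable_pi_apply _))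
  have h3 := (measurable_SS n).comp h1
  exact h3

/-- the integrand on the cube -/
noncomputable def ig (n : ℕ) {M : ℕ} (b : Fin (M + 1) → ℤ) (ρ : Fin (M + 1) → ℝ)
    (σ : Fin (M + 1) → ℝ) : ℂ :=
  (∏ i, EE n (b i) (ρ i) (σ i)) *
    ∏ j : Fin M, SS n (zt (ρ j.castSucc) (σ j.castSucc)) (zt (ρ j.succ) (σ j.succ))

theorem measurable_ig (n : ℕ) {M : ℕ} (b : Fin (M + 1) → ℤ) (ρ : Fin (M + 1) → ℝ) :
    Measurable (ig n b ρ) := by
  unfold ig
  refine Measurable.mul ?_ ?_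
  · refine Finset.measurable_prod _ fun i _ => ?_
    exact (measurable_EE n (b i) (ρ i)).comp (measurable_pi_apply i)
  · refine Finset.measurable_prod _ fun j _ => ?_
    exact measurable_SS2 n ρ j

/-! ### the cube -/

theorem measurableSet_box (M : ℕ) : MeasurableSet (box M) :=
  MeasurableSet.univ_pi fun _ => measurableSet_Icc

theorem box_mem_nhds {M : ℕ} {x : Fin (M + 1) → ℝ} (h : ∀ i, |x i| < 1 / 2) : box M ∈ 𝓝 x := by
  refine set_pi_mem_nhds Set.finite_univ fun i _ => ?_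
  have := abs_lt.mp (h i)
  exact Icc_mem_nhds this.1 this.2

/-! ### sums -/

theorem sum_dz {M : ℕ} (y : Fin M → ℂ) (ζ f : Fin (M + 1) → ℂ) :
    ∑ i, dz y ζ i * f i = ∑ j : Fin M, (tz (y j) (ζ j.castSucc) * f j.castSucc +
      tz (y j) (ζ j.succ) * f j.succ) := by
  unfold dz
  simp_rw [Finset.sum_mul]
  rw [Finset.sum_comm]
  refine Finset.sum_congr rfl fun j _ => ?_
  simp_rw [add_mul]
  rw [Finset.sum_add_distrib]
  congr 1
  · rw [Finset.sum_eq_single j.castSucc]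
    · simp
    · intro i _ hi
      rw [if_neg (Ne.symm hi), zero_mul]
    · intro h
      exact absurd (Finset.mem_univ _) h
  · rw [Finset.sum_eq_single j.succ]
    · simp
    · intro i _ hi
      rw [if_neg (Ne.symm hi), zero_mul]
    · intro h
      exact absurd (Finset.mem_univ _) h

theorem sum_le_sum_pairs {M : ℕ} (hM : 1 ≤ M) {f : Fin (M + 1) → ℝ} (hf : ∀ i, 0 ≤ f i) :
    ∑ i, f i ≤ ∑ j : Fin M, (f j.castSucc + f j.succ) := by
  obtain ⟨m, rfl⟩ : ∃ m, M = m + 1 := ⟨M - 1, by omega⟩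
  rw [Fin.sum_univ_castSucc, Finset.sum_add_distrib]
  refine add_le_add le_rfl ?_
  have h := Finset.single_le_sum (f := fun j : Fin (m + 1) => f j.succ)
    (fun j _ => hf _) (Finset.mem_univ (Fin.last m))
  simpa using h

/-! ### the theorem -/

/-- the exponent of the limit -/
noncomputable def Qf {M : ℕ} (b : Fin (M + 1) → ℤ) (y : Fin M → ℂ) (ζ : Fin (M + 1) → ℂ)
    (X : Fin (M + 1) → ℝ) : ℂ :=
  ∑ i, Real.pi * Complex.I * b i * (X i : ℂ) ^ 2 +
    ∑ j : Fin M, (tzz (y j) (ζ j.castSucc) * (X j.castSucc : ℂ) ^ 2 / 2 +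
      tzz (y j) (ζ j.succ) * (X j.succ : ℂ) ^ 2 / 2 -
      (twz (y j) (ζ j.castSucc) * X j.castSucc + twz (y j) (ζ j.succ) * X j.succ) ^ 2 /
        (2 * tww (y j) (ζ j.castSucc) (ζ j.succ)))

theorem isQ_Qf {M : ℕ} (b : Fin (M + 1) → ℤ) (y : Fin M → ℂ) (ζ : Fin (M + 1) → ℂ) :
    VC.IsQ (Qf b y ζ) := by
  unfold Qf
  refine VC.IsQ.add ?_ ?_
  · exact VC.IsQ.sum _ fun i _ => (VC.IsQ.apply_sq i).const_mul _
  · refine VC.IsQ.sum _ fun j _ => VC.IsQ.sub (VC.IsQ.add ?_ ?_) ?_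
    · have := (VC.IsQ.apply_sq (ι := Fin (M + 1)) j.castSucc).const_mul
        (tzz (y j) (ζ j.castSucc) / 2)
      refine cast (congrArg VC.IsQ (funext fun X => ?_)) this
      ring
    · have := (VC.IsQ.apply_sq (ι := Fin (M + 1)) j.succ).const_mul (tzz (y j) (ζ j.succ) / 2)
      refine cast (congrArg VC.IsQ (funext fun X => ?_)) this
      ring
    · have := (VC.IsQ.lin_sq (ι := Fin (M + 1)) j.castSucc j.succ (twz (y j) (ζ j.castSucc))
        (twz (y j) (ζ j.succ))).const_mul (2 * tww (y j) (ζ j.castSucc) (ζ j.succ))⁻¹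
      refine cast (congrArg VC.IsQ (funext fun X => ?_)) this
      rw [div_eq_inv_mul]

/-- the linear terms cancel at a critical point -/
theorem lin_zero {M : ℕ} {b : Fin (M + 1) → ℤ} {y : Fin M → ℂ} {ζ : Fin (M + 1) → ℂ}
    (h : Crit b y ζ) (f : Fin (M + 1) → ℂ) :
    ∑ i, 2 * Real.pi * Complex.I * (b i * ζ i + 1) * f i +
      ∑ j : Fin M, (tz (y j) (ζ j.castSucc) * f j.castSucc +
        tz (y j) (ζ j.succ) * f j.succ) = 0 := by
  rw [← sum_dz, ← Finset.sum_add_distrib]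
  refine Finset.sum_eq_zero fun i _ => ?_
  rw [← add_mul, h.crit_z i, zero_mul]

theorem re_wt (b : ℤ) (ζ : ℂ) : (Real.pi * Complex.I * b * ζ ^ 2 + 2 * Real.pi * Complex.I * ζ).re =
    -(2 * Real.pi * ζ.im * (1 + b * ζ.re)) := by
  have h : (Real.pi * Complex.I * b * ζ ^ 2 + 2 * Real.pi * Complex.I * ζ) =
      ((Real.pi * b : ℝ) : ℂ) * (Complex.I * ζ ^ 2) + ((2 * Real.pi : ℝ) : ℂ) * (Complex.I * ζ) := by
    push_cast
    ring
  rw [h, Complex.add_re, Complex.re_ofReal_mul, Complex.re_ofReal_mul, Complex.I_mul_re,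
    Complex.I_mul_re, pow_two, Complex.mul_im]
  ring

theorem re_lin (b : ℤ) (ζ : ℂ) (t : ℝ) : (2 * Real.pi * Complex.I * (b * ζ + 1) * (t : ℂ)).re =
    -(2 * Real.pi * ζ.im * (b * t)) := by
  have h : (2 * Real.pi * Complex.I * (b * ζ + 1) * (t : ℂ)) =
      ((2 * Real.pi * t : ℝ) : ℂ) * (Complex.I * (((b : ℝ) : ℂ) * ζ + 1)) := by
    push_cast
    ring
  rw [h, Complex.re_ofReal_mul, Complex.I_mul_re, Complex.add_im, Complex.im_ofReal_mul,
    Complex.one_im]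
  ring

/-- the tangent planes add up to the critical value -/
theorem re_sum {M : ℕ} {b : Fin (M + 1) → ℤ} {y : Fin M → ℂ} {ζ : Fin (M + 1) → ℂ}
    (h : Crit b y ζ) (σ : Fin (M + 1) → ℝ) :
    ∑ i, -(2 * Real.pi * (ζ i).im * (1 + b i * σ i)) +
      ∑ j : Fin M, ((tp (y j) (ζ j.castSucc) (ζ j.succ)).re +
        (tz (y j) (ζ j.castSucc)).re * (σ j.castSucc - (ζ j.castSucc).re) +
        (tz (y j) (ζ j.succ)).re * (σ j.succ - (ζ j.succ).re)) = (TT b y ζ).re := by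
  have h1 := congrArg Complex.re (lin_zero h fun i => ((σ i - (ζ i).re : ℝ) : ℂ))
  rw [Complex.add_re, Complex.re_sum, Complex.re_sum, Complex.zero_re] at h1
  rw [TT, Complex.add_re, Complex.re_sum, Complex.re_sum]
  have h2 : ∀ i, -(2 * Real.pi * (ζ i).im * (1 + b i * σ i)) =
      (Real.pi * Complex.I * b i * ζ i ^ 2 + 2 * Real.pi * Complex.I * ζ i).re +
        (2 * Real.pi * Complex.I * (b i * ζ i + 1) * ((σ i - (ζ i).re : ℝ) : ℂ)).re := by
    intro i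
    rw [re_wt, re_lin]
    ring
  have h3 : ∀ j : Fin M, (tp (y j) (ζ j.castSucc) (ζ j.succ)).re +
        (tz (y j) (ζ j.castSucc)).re * (σ j.castSucc - (ζ j.castSucc).re) +
        (tz (y j) (ζ j.succ)).re * (σ j.succ - (ζ j.succ).re) =
      (tp (y j) (ζ j.castSucc) (ζ j.succ)).re +
      (tz (y j) (ζ j.castSucc) * ((σ j.castSucc - (ζ j.castSucc).re : ℝ) : ℂ) +
        tz (y j) (ζ j.succ) * ((σ j.succ - (ζ j.succ).re : ℝ) : ℂ)).re := by
    intro j
    rw [Complex.add_re, Complex.re_mul_ofReal, Complex.re_mul_ofReal]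
    ring
  simp_rw [h2, h3]
  rw [Finset.sum_add_distrib, Finset.sum_add_distrib]
  linarith

/-- Gaussian domination of the integrand -/
theorem ig_bound : ∃ η c : ℝ, 0 < η ∧ 0 < c ∧ ∀ (M : ℕ) (b : Fin (M + 1) → ℤ) (y : Fin M → ℂ)
    (ζ : Fin (M + 1) → ℂ), 1 ≤ M → Crit b y ζ → (∀ j, ‖y j - 1 / 4‖ ≤ η) → (∀ i, ‖ζ i‖ ≤ η) →
    (∀ i, 0 < (ζ i).im) → ∃ (C : ℝ) (N : ℕ), 0 ≤ C ∧ ∀ n : ℕ, N ≤ n → Odd n → ∀ σ ∈ box M,
    ‖ig n b (fun i => (ζ i).im) σ‖ ≤ C * ((n : ℝ) ^ (-(3 / 2) : ℝ)) ^ M *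
      Real.exp (n * ((TT b y ζ).re - c * ∑ i, (σ i - (ζ i).re) ^ 2)) := by
  obtain ⟨ηS, cS, hηS, hcS, hS⟩ := SS_bound
  obtain ⟨ηE, ε, hηE, hε, hE⟩ := EE_bound (c := cS / 2) (by positivity)
  obtain ⟨ηK, hηK, hK⟩ := crit_small hε
  refine ⟨min ηS (min ηE ηK), cS / 2, lt_min hηS (lt_min hηE hηK), by positivity, ?_⟩
  intro M b y ζ hM hcr hy hζ him
  have l1 : min ηS (min ηE ηK) ≤ ηS := min_le_left _ _
  have l2 : min ηS (min ηE ηK) ≤ ηE := (min_le_right _ _).trans (min_le_left _ _)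
  have l3 : min ηS (min ηE ηK) ≤ ηK := (min_le_right _ _).trans (min_le_right _ _)
  have hsm := hK M b y ζ hcr (fun j => (hy j).trans l3) (fun i => (hζ i).trans l3)
  choose CE NE hCE hE' using fun i => hE (b i) (ζ i) (him i) ((hζ i).trans l2) (hsm i).1
  choose CS NS hCS hS' using fun j : Fin M => hS (y j) (ζ j.castSucc) (ζ j.succ) (hcr.crit_y j)
    ((hy j).trans l1) ((hζ _).trans l1) ((hζ _).trans l1) (him _) (him _)
  refine ⟨(∏ i, CE i) * ∏ j, CS j, (Finset.univ.sup NE) ⊔ (Finset.univ.sup NS),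
    mul_nonneg (Finset.prod_nonneg fun i _ => hCE i) (Finset.prod_nonneg fun j _ => hCS j),
    fun n hn hodd σ hσ => ?_⟩
  have hσ' : ∀ i, |σ i| ≤ 1 / 2 := fun i => abs_le.mpr (hσ i (Set.mem_univ i))
  have hnE : ∀ i, NE i ≤ n := fun i =>
    (Finset.le_sup (Finset.mem_univ i)).trans (le_sup_left.trans hn)
  have hnS : ∀ j, NS j ≤ n := fun j =>
    (Finset.le_sup (Finset.mem_univ j)).trans (le_sup_right.trans hn)
  rw [ig, norm_mul, norm_prod, norm_prod]
  have p1 := Finset.prod_le_prod (s := Finset.univ) (fun i _ => norm_nonneg _)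
    (fun i _ => hE' i n (hnE i) hodd (σ i) (hσ' i))
  have p2 := Finset.prod_le_prod (s := Finset.univ) (fun j _ => norm_nonneg _)
    (fun j _ => hS' j n (hnS j) (σ j.castSucc) (σ j.succ) (hσ' _) (hσ' _))
  refine (mul_le_mul p1 p2 (Finset.prod_nonneg fun j _ => norm_nonneg _)
    (Finset.prod_nonneg fun i _ => mul_nonneg (hCE i) (Real.exp_pos _).le)).trans ?_
  rw [Finset.prod_mul_distrib, Finset.prod_mul_distrib, Finset.prod_mul_distrib,
    ← Real.exp_sum, ← Real.exp_sum, Finset.prod_const, Finset.card_univ, Fintype.card_fin,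
    ← Finset.mul_sum, ← Finset.mul_sum]
  have hA : 0 ≤ (∏ i, CE i) * (∏ j, CS j) * ((n : ℝ) ^ (-(3 / 2) : ℝ)) ^ M :=
    mul_nonneg (mul_nonneg (Finset.prod_nonneg fun i _ => hCE i)
      (Finset.prod_nonneg fun j _ => hCS j)) (pow_nonneg (Real.rpow_nonneg (Nat.cast_nonneg n) _) _)
  have hex : ∀ (P Q R u v : ℝ), P * Real.exp u * (Q * R * Real.exp v) =
      P * Q * R * Real.exp (u + v) := fun P Q R u v => by rw [Real.exp_add]; ring
  rw [hex, ← mul_add]
  refine mul_le_mul_of_nonneg_left (Real.exp_le_exp.mpr ?_) hA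
  refine mul_le_mul_of_nonneg_left ?_ (Nat.cast_nonneg n)
  have h1 := re_sum hcr σ
  have h2 := sum_le_sum_pairs hM (f := fun i => (σ i - (ζ i).re) ^ 2) (fun i => sq_nonneg _)
  rw [Finset.sum_add_distrib, Finset.sum_sub_distrib, ← Finset.mul_sum, ← Finset.mul_sum]
  nlinarith [h1, h2]

theorem prod_mul_exp {κ : Type*} (s : Finset κ) (f g : κ → ℂ) :
    ∏ i ∈ s, f i * Complex.exp (g i) = (∏ i ∈ s, f i) * Complex.exp (∑ i ∈ s, g i) := by
  rw [Finset.prod_mul_distrib, Complex.exp_sum]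

/-- pointwise limit of the integrand -/
theorem ig_lim : ∃ η : ℝ, 0 < η ∧ ∀ (M : ℕ) (b : Fin (M + 1) → ℤ) (y : Fin M → ℂ)
    (ζ : Fin (M + 1) → ℂ), Crit b y ζ → (∀ j, ‖y j - 1 / 4‖ ≤ η) → (∀ i, ‖ζ i‖ ≤ η) →
    (∀ i, 0 < (ζ i).im) → ∃ K : ℂ, K ≠ 0 ∧ ∀ X : Fin (M + 1) → ℝ,
    Tendsto (fun n : ℕ => (((n : ℝ) ^ (3 / 2 : ℝ) : ℝ) : ℂ) ^ M *
      Complex.exp (-(n * TT b y ζ)) *
      ig n b (fun i => (ζ i).im) (fun i => (ζ i).re + X i / √(n : ℝ))) atTop
      (𝓝 (K * Complex.exp (Qf b y ζ X))) := by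
  obtain ⟨η, hη, h⟩ := SS_lim
  refine ⟨min η (1 / 8), lt_min hη (by norm_num), ?_⟩
  intro M b y ζ hcr hy hζ him
  have l1 : min η (1 / 8) ≤ η := min_le_left _ _
  have l2 : min η (1 / 8) ≤ 1 / 8 := min_le_right _ _
  have h' := fun j : Fin M => h (y j) (ζ j.castSucc) (ζ j.succ) (hcr.crit_y j)
    ((hy j).trans l1) ((hζ _).trans l1) ((hζ _).trans l1) (him _) (him _)
  choose hww A hA hAX using h'
  have hre : ∀ i, |(ζ i).re| < 1 / 4 := fun i =>
    ((Complex.abs_re_le_norm _).trans ((hζ i).trans l2)).trans_lt (by norm_num)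
  refine ⟨(∏ i, (-4 * Complex.sin (2 * Real.pi * ζ i))) * ∏ j, A j, ?_, fun X => ?_⟩
  · refine mul_ne_zero (Finset.prod_ne_zero_iff.mpr fun i _ => ?_)
      (Finset.prod_ne_zero_iff.mpr fun j _ => hA j)
    refine mul_ne_zero (by norm_num) fun h0 => ?_
    obtain ⟨k, hk⟩ := Complex.sin_eq_zero_iff.mp h0
    have h1 := congrArg Complex.im hk
    have h2 : (2 * (Real.pi : ℂ) * ζ i).im = 2 * Real.pi * (ζ i).im := by
      rw [show (2 * (Real.pi : ℂ) * ζ i) = ((2 * Real.pi : ℝ) : ℂ) * ζ i by push_cast; ring,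
        Complex.im_ofReal_mul]
    have h3 : ((k : ℂ) * (Real.pi : ℂ)).im = 0 := by
      rw [show ((k : ℂ) * (Real.pi : ℂ)) = ((k * Real.pi : ℝ) : ℂ) by push_cast; ring,
        Complex.ofReal_im]
    rw [h2, h3] at h1
    have := him i
    have : 0 < 2 * Real.pi * (ζ i).im := by positivity
    linarith
  · have t1 := tendsto_finset_prod (Finset.univ : Finset (Fin (M + 1)))
      fun i _ => EE_lim (b := b i) (him i) (hre i) (X i)
    have t2 := tendsto_finset_prod (Finset.univ : Finset (Fin M))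
      fun j _ => hAX j (X j.castSucc) (X j.succ)
    have t3 := t1.mul t2
    have e1 : (∏ i, (-4 * Complex.sin (2 * Real.pi * ζ i) *
          Complex.exp (Real.pi * Complex.I * b i * (X i : ℂ) ^ 2))) *
        ∏ j : Fin M, (A j * Complex.exp (tzz (y j) (ζ j.castSucc) * (X j.castSucc : ℂ) ^ 2 / 2 +
          tzz (y j) (ζ j.succ) * (X j.succ : ℂ) ^ 2 / 2 -
          (twz (y j) (ζ j.castSucc) * X j.castSucc + twz (y j) (ζ j.succ) * X j.succ) ^ 2 /
            (2 * tww (y j) (ζ j.castSucc) (ζ j.succ)))) =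
        (∏ i, (-4 * Complex.sin (2 * Real.pi * ζ i))) * (∏ j, A j) *
          Complex.exp (Qf b y ζ X) := by
      rw [prod_mul_exp, prod_mul_exp, Qf, Complex.exp_add]
      ring
    rw [e1] at t3
    refine t3.congr fun n => ?_
    rw [Finset.prod_mul_distrib, Finset.prod_mul_distrib, Finset.prod_mul_distrib,
      Finset.prod_const, Finset.card_univ, Fintype.card_fin, ← Complex.exp_sum, ← Complex.exp_sum,
      ig]
    have e2 : Complex.exp (-(n * TT b y ζ)) =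
        Complex.exp (∑ i, -(n * (Real.pi * Complex.I * b i * ζ i ^ 2 +
          2 * Real.pi * Complex.I * ζ i) +
          ((√(n : ℝ) : ℝ) : ℂ) * (2 * Real.pi * Complex.I * (b i * ζ i + 1)) * X i)) *
        Complex.exp (∑ j : Fin M, -(n * tp (y j) (ζ j.castSucc) (ζ j.succ) +
          ((√(n : ℝ) : ℝ) : ℂ) * (tz (y j) (ζ j.castSucc) * X j.castSucc +
            tz (y j) (ζ j.succ) * X j.succ))) := by
      rw [← Complex.exp_add]
      congr 1
      have h1 := lin_zero hcr fun i => (X i : ℂ)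
      have h2 : ∑ i, -(n * (Real.pi * Complex.I * b i * ζ i ^ 2 +
          2 * Real.pi * Complex.I * ζ i) +
          ((√(n : ℝ) : ℝ) : ℂ) * (2 * Real.pi * Complex.I * (b i * ζ i + 1)) * X i) =
          -(n * ∑ i, (Real.pi * Complex.I * b i * ζ i ^ 2 + 2 * Real.pi * Complex.I * ζ i)) -
          ((√(n : ℝ) : ℝ) : ℂ) * ∑ i, 2 * Real.pi * Complex.I * (b i * ζ i + 1) * X i := by
        rw [Finset.mul_sum, Finset.mul_sum, ← Finset.sum_neg_distrib, ← Finset.sum_sub_distrib]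
        exact Finset.sum_congr rfl fun i _ => by ring
      have h3 : ∑ j : Fin M, -(n * tp (y j) (ζ j.castSucc) (ζ j.succ) +
          ((√(n : ℝ) : ℝ) : ℂ) * (tz (y j) (ζ j.castSucc) * X j.castSucc +
            tz (y j) (ζ j.succ) * X j.succ)) =
          -(n * ∑ j : Fin M, tp (y j) (ζ j.castSucc) (ζ j.succ)) -
          ((√(n : ℝ) : ℝ) : ℂ) * ∑ j : Fin M, (tz (y j) (ζ j.castSucc) * X j.castSucc +
            tz (y j) (ζ j.succ) * X j.succ) := by
        rw [Finset.mul_sum, Finset.mul_sum, ← Finset.sum_neg_distrib, ← Finset.sum_sub_distrib]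
        exact Finset.sum_congr rfl fun i _ => by ring
      rw [h2, h3, TT]
      linear_combination ((√(n : ℝ) : ℝ) : ℂ) * h1
    rw [e2]
    ring

theorem core : ∃ η : ℝ, 0 < η ∧ ∀ (M : ℕ) (b : Fin (M + 1) → ℤ) (y : Fin M → ℂ)
    (ζ : Fin (M + 1) → ℂ), 1 ≤ M → Crit b y ζ → (∀ j, ‖y j - 1 / 4‖ ≤ η) → (∀ i, ‖ζ i‖ ≤ η) →
    (∀ i, 0 < (ζ i).im) → ∃ L : ℂ, L ≠ 0 ∧
    Tendsto (fun s : ℕ => ((((2 * s + 1 : ℕ) : ℝ) ^ (2 * (M : ℝ) + 1 / 2) : ℝ) : ℂ) *
      Complex.exp (-(((2 * s + 1 : ℕ) : ℂ) * TT b y ζ)) *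
      II (2 * s + 1) b (fun i => (ζ i).im)) atTop (𝓝 L) := by
  obtain ⟨η1, c, hη1, hc, hB⟩ := ig_bound
  obtain ⟨η2, hη2, hL⟩ := ig_lim
  refine ⟨min η1 (min η2 (1 / 8)), lt_min hη1 (lt_min hη2 (by norm_num)), ?_⟩
  intro M b y ζ hM hcr hy hζ him
  have l1 : min η1 (min η2 (1 / 8)) ≤ η1 := min_le_left _ _
  have l2 : min η1 (min η2 (1 / 8)) ≤ η2 := (min_le_right _ _).trans (min_le_left _ _)
  have l3 : min η1 (min η2 (1 / 8)) ≤ 1 / 8 := (min_le_right _ _).trans (min_le_right _ _)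
  obtain ⟨C, N, hC, hB'⟩ := hB M b y ζ hM hcr (fun j => (hy j).trans l1)
    (fun i => (hζ i).trans l1) him
  obtain ⟨K, hK, hL'⟩ := hL M b y ζ hcr (fun j => (hy j).trans l2)
    (fun i => (hζ i).trans l2) him
  have hx : box M ∈ 𝓝 (fun i => (ζ i).re) := box_mem_nhds fun i =>
    ((Complex.abs_re_le_norm _).trans ((hζ i).trans l3)).trans_lt (by norm_num)
  have hodd : Tendsto (fun s : ℕ => 2 * s + 1) atTop atTop :=
    tendsto_atTop_mono (fun s => by simp only [id]; omega) tendsto_id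
  have hν : Tendsto (fun s : ℕ => ((2 * s + 1 : ℕ) : ℝ)) atTop atTop :=
    tendsto_natCast_atTop_atTop.comp hodd
  set F : ℕ → (Fin (M + 1) → ℝ) → ℂ := fun s x =>
    ((((2 * s + 1 : ℕ) : ℝ) ^ (3 / 2 : ℝ) : ℝ) : ℂ) ^ M *
      Complex.exp (-(((2 * s + 1 : ℕ) : ℂ) * TT b y ζ)) *
      ig (2 * s + 1) b (fun i => (ζ i).im) x with hF
  have hb : ∀ᶠ s in atTop, ∀ x ∈ box M, ‖F s x‖ ≤
      C * Real.exp (-(((2 * s + 1 : ℕ) : ℝ) * (c * ∑ i, (x i - (ζ i).re) ^ 2))) := by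
    filter_upwards [hodd.eventually_ge_atTop N] with s hs x hx'
    have h1 := hB' (2 * s + 1) hs ⟨s, rfl⟩ x hx'
    have hn0 : (0 : ℝ) < ((2 * s + 1 : ℕ) : ℝ) := by positivity
    rw [hF]
    simp only
    rw [norm_mul, norm_mul, norm_pow, Complex.norm_real, Complex.norm_exp, Real.norm_eq_abs,
      abs_of_nonneg (Real.rpow_nonneg hn0.le _)]
    refine (mul_le_mul_of_nonneg_left h1 (by positivity)).trans (le_of_eq ?_)
    have h2 : ((2 * s + 1 : ℕ) : ℝ) ^ (3 / 2 : ℝ) * ((2 * s + 1 : ℕ) : ℝ) ^ (-(3 / 2) : ℝ) = 1 := by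
      rw [← Real.rpow_add hn0]
      norm_num
    have h3 : (-(((2 * s + 1 : ℕ) : ℂ) * TT b y ζ)).re =
        -(((2 * s + 1 : ℕ) : ℝ) * (TT b y ζ).re) := by
      rw [Complex.neg_re, ← Complex.ofReal_natCast, Complex.re_ofReal_mul]
    rw [h3]
    have h4 : ∀ P Q R u v : ℝ, P ^ M * Real.exp u * (R * Q ^ M * Real.exp v) =
        R * (P * Q) ^ M * Real.exp (u + v) := fun P Q R u v => by
      rw [Real.exp_add, mul_pow]; ring
    rw [h4, h2, one_pow, mul_one]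
    congr 2
    ring
  have hG : ∀ X : Fin (M + 1) → ℝ, Tendsto (fun s => F s (fun i => (ζ i).re + X i /
      √(((2 * s + 1 : ℕ) : ℝ)))) atTop (𝓝 (K * Complex.exp (Qf b y ζ X))) := fun X =>
    (hL' X).comp hodd
  have hlap := VC.laplace_nd (measurableSet_box M) hx hν (F := F)
    (fun s => (measurable_ig _ _ _).const_mul _) hc hb hG
  have hbd := VC.laplace_nd_bound hx hν (F := F) hb hG
  refine ⟨∫ X, K * Complex.exp (Qf b y ζ X), ?_, ?_⟩
  · rw [integral_const_mul]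
    refine mul_ne_zero hK ((isQ_Qf b y ζ).integral_ne_zero (C := C / ‖K‖) hc fun X => ?_)
    have h1 := hbd X
    rw [norm_mul, Complex.norm_exp] at h1
    have hK0 : 0 < ‖K‖ := norm_pos_iff.mpr hK
    rw [div_mul_eq_mul_div, le_div_iff₀ hK0, mul_comm]
    exact h1
  · refine hlap.congr fun s => ?_
    have hn0 : (0 : ℝ) < ((2 * s + 1 : ℕ) : ℝ) := by positivity
    rw [hF]
    simp only
    rw [integral_const_mul, ← mul_assoc, ← mul_assoc, Fintype.card_fin]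
    congr 2
    rw [← Complex.ofReal_pow, ← Complex.ofReal_mul]
    congr 1
    rw [← Real.rpow_natCast, ← Real.rpow_mul hn0.le, ← Real.rpow_add hn0]
    congr 1
    push_cast
    ring

end Pool.Agent.Work.MP_b30479_gtS.LT

end
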